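import Pool.Agent.Helper9.FJ.Main

/-!
A criterion for very ampleness of line bundles on projective bundles over curves.
-/

set_option autoImplicit false
set_option linter.unusedSectionVars false

namespace Pool.Agent.Helper9.GR

open FF Module MvPolynomial Pool.Agent.Helper9.FJ

variable {K : Type} [Field K] [Algebra ℂ K] {r : ℕ} {P : Place ℂ K} [IsFF ℂ K]

theorem unit_of_sub {x : K} {c : ℂ} (hc : c ≠ 0) (h : Ge P 1 (x - algebraMap ℂ K c)) :
    x ≠ 0 ∧ P.ord x = 0 := by
  by_cases hx : x - algebraMap ℂ K c = 0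
  · rw [sub_eq_zero.1 hx]
    exact ⟨(map_ne_zero _).2 hc, P.ord_const hc⟩
  · have h1 := (ge_iff hx).1 h
    have h2 := P.ord_add_eq (f := algebraMap ℂ K c) (g := x - algebraMap ℂ K c)
      ((map_ne_zero _).2 hc) hx (by rw [P.ord_const hc]; omega)
    rw [add_sub_cancel, P.ord_const hc] at h2
    exact h2

/-- **The criterion.** -/
theorem crit (hr0 : 0 < r) (E : Bundle K r) {W : Place ℂ K →₀ ℤ} (hW : IsCanonical W) {k' : ℕ}
    (N : Place ℂ K →₀ ℤ) (μ : ℝ)
    (hμ : ∀ (ρ : ℕ) (Λ : Matrix (Fin r) (Fin ρ) K) (d : Place ℂ K →₀ ℤ), 0 < ρ →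
      IsQuot E Λ d → μ * ρ ≤ ddeg d)
    (hn1' : (1 : ℝ) < μ * (k' + 1) + (ddeg N - ddeg W))
    (hn2 : ∀ (Λ : Matrix (Fin r) (Fin 1) K) (δ : Place ℂ K →₀ ℤ), IsQuot E Λ δ →
      2 < (k' + 1 : ℕ) * ddeg δ + (ddeg N - ddeg W)) :
    BaseFree E (k' + 1) N ∧ SepPoints E (k' + 1) N ∧
      (∀ (P : Place ℂ K) (t : K) (ξ : Fin r → ℂ) (z : Fin r → K), P.ord t = 1 → ξ ≠ 0 →
        (∀ j, Ge P 1 (Matrix.mulVec (E.B P) z j - algebraMap ℂ K (ξ j))) →
        ∃ s, IsSec E (k' + 1) N s ∧ Ge P (1 - N P) (eval (pt E P ξ) s) ∧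
          ¬ Ge P (2 - N P) (eval z s)) ∧
      SepVertical E (k' + 1) N := by
  classical
  -- the two existence statements
  have hfib : ∀ (P0 : Place ℂ K) (G : AddSubgroup (MvPolynomial (Fin r) K)),
      (∀ (c : K) s, P0.Reg c → s ∈ G → C c * s ∈ G) →
      (∀ s, CGe P0 (1 - N P0) (loc E P0 s) → s ∈ G) → ∀ s0 : MvPolynomial (Fin r) K,
      s0.IsHomogeneous (k' + 1) → CGe P0 (-N P0) (loc E P0 s0) →
      ∃ s, IsSec E (k' + 1) N s ∧ s - s0 ∈ G := by
    intro P0 G hG hG1 s0 hs0 hs0'
    by_contra hcon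
    push Not at hcon
    have h1 := fibre hr0 hW E μ hμ N P0 G hG hG1 s0 hs0 hs0' hcon
    push_cast at h1
    linarith
  have harc : ∀ e : Place ℂ K →₀ ℤ, (∀ P, 0 ≤ e P) → ddeg e ≤ 2 →
      ∀ y : Place ℂ K → Fin r → K, (∀ P j, Ge P 0 (Matrix.mulVec (E.B P) (y P) j)) →
      (∀ P, 0 < e P → ∃ j, Matrix.mulVec (E.B P) (y P) j ≠ 0 ∧
      P.ord (Matrix.mulVec (E.B P) (y P) j) = 0) → ∀ (P0 : Place ℂ K)
      (s0 : MvPolynomial (Fin r) K), s0.IsHomogeneous (k' + 1) →
      CGe P0 (-N P0) (loc E P0 s0) →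
      ∃ s, IsSec E (k' + 1) N s ∧ (∀ P, P ≠ P0 → Ge P (e P - N P) (eval (y P) s)) ∧
        Ge P0 (e P0 - N P0) (eval (y P0) (s - s0)) := by
    intro e he he2 y hy hy1 P0 s0 hs0 hs0'
    by_contra hcon
    push Not at hcon
    obtain ⟨ρ, Λ, δ, hρ, hδ, h1 | ⟨h1, h2⟩⟩ := arcs hr0 hW E μ hμ N e he y hy hy1 P0 s0 hs0 hs0' hcon
    · have h3 : (2 : ℝ) ≤ ρ := by exact_mod_cast h1.1
      have h4 : (ddeg e : ℝ) ≤ 2 := by exact_mod_cast he2
      have h5 := h1.2
      nlinarith
    · subst h1
      have h3 := hn2 Λ δ hδ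
      push_cast at h3
      omega
  refine ⟨fun P ξ hξ => ?_, fun P Q ξ η hξ hη hPQ => ?_, fun P t ξ z ht hξ hz => ?_,
    fun P ξ η hξ hη => ?_⟩
  · -- base points
    obtain ⟨lam, hlam⟩ := exists_one hξ
    obtain ⟨t, ht0, ht⟩ := P.surj
    let G : AddSubgroup (MvPolynomial (Fin r) K) :=
      { carrier := {s | Ge P (1 - N P) (eval (pt E P ξ) s)}
        zero_mem' := by
          change Ge P (1 - N P) (eval (pt E P ξ) 0)
          rw [map_zero]
          exact ge_zero
        add_mem' := by
          intro s s' hs hs'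
          change Ge P (1 - N P) (eval (pt E P ξ) (s + s'))
          rw [map_add]
          exact hs.add hs'
        neg_mem' := by
          intro s hs
          change Ge P (1 - N P) (eval (pt E P ξ) (-s))
          rw [map_neg]
          exact hs.neg }
    have hG : ∀ s, s ∈ G ↔ Ge P (1 - N P) (eval (pt E P ξ) s) := fun _ => Iff.rfl
    obtain ⟨s, hs, hsG⟩ := hfib P G (fun c s hc hs => by
      rw [hG] at hs ⊢
      rw [map_mul, eval_C]
      have hc' : Ge P 0 c := hc
      have := hc'.mul hs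
      rwa [zero_add] at this) (fun s hs => ge_of_eval_pt hs ξ)
      (C (t ^ (-N P)) * cf E P lam ^ (k' + 1)) (C_mul_hom _ (by
        have := (cf_hom E P lam).pow (k' + 1)
        rwa [one_mul] at this)) (by
        rw [loc_mul, loc_C, loc_pow]
        have h1 := (cge_C (r := r) (ge_zpow ht (-N P))).mul ((cf_loc E P lam).pow (k' + 1))
        rwa [mul_zero, add_zero] at h1)
    refine ⟨s, hs, fun hcon => ?_⟩
    rw [hG, map_sub, map_mul, eval_C, map_pow, cf_pt, hlam, map_one, one_pow, mul_one] at hsG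
    have h1 := hcon.sub hsG
    rw [sub_sub_cancel] at h1
    exact not_ge_zpow ht0 ht (by omega) h1
  · -- two points
    by_cases hne : P = Q
    · subst hne
      obtain ⟨lam, hlam0, hlam⟩ := exists_sep hξ (hPQ rfl)
      obtain ⟨t, ht0, ht⟩ := P.surj
      let G : AddSubgroup (MvPolynomial (Fin r) K) :=
        { carrier := {s | Ge P (1 - N P) (eval (pt E P ξ) s) ∧ Ge P (1 - N P) (eval (pt E P η) s)}
          zero_mem' := by
            change Ge P (1 - N P) (eval (pt E P ξ) 0) ∧ Ge P (1 - N P) (eval (pt E P η) 0)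
            rw [map_zero, map_zero]
            exact ⟨ge_zero, ge_zero⟩
          add_mem' := by
            intro s s' hs hs'
            change Ge P (1 - N P) (eval (pt E P ξ) (s + s')) ∧
              Ge P (1 - N P) (eval (pt E P η) (s + s'))
            rw [map_add, map_add]
            exact ⟨hs.1.add hs'.1, hs.2.add hs'.2⟩
          neg_mem' := by
            intro s hs
            change Ge P (1 - N P) (eval (pt E P ξ) (-s)) ∧ Ge P (1 - N P) (eval (pt E P η) (-s))
            rw [map_neg, map_neg]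
            exact ⟨hs.1.neg, hs.2.neg⟩ }
      have hG : ∀ s, s ∈ G ↔ Ge P (1 - N P) (eval (pt E P ξ) s) ∧
        Ge P (1 - N P) (eval (pt E P η) s) := fun _ => Iff.rfl
      obtain ⟨s, hs, hsG⟩ := hfib P G (fun c s hc hs => by
        rw [hG] at hs ⊢
        rw [map_mul, map_mul, eval_C, eval_C]
        have hc' : Ge P 0 c := hc
        have h1 := hc'.mul hs.1
        have h2 := hc'.mul hs.2
        rw [zero_add] at h1 h2
        exact ⟨h1, h2⟩) (fun s hs => ⟨ge_of_eval_pt hs ξ, ge_of_eval_pt hs η⟩)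
        (C (t ^ (-N P)) * cf E P lam ^ (k' + 1)) (C_mul_hom _ (by
          have := (cf_hom E P lam).pow (k' + 1)
          rwa [one_mul] at this)) (by
          rw [loc_mul, loc_C, loc_pow]
          have h1 := (cge_C (r := r) (ge_zpow ht (-N P))).mul ((cf_loc E P lam).pow (k' + 1))
          rwa [mul_zero, add_zero] at h1)
      rw [hG, map_sub, map_sub, map_mul, map_mul, eval_C, eval_C, map_pow, map_pow, cf_pt, cf_pt,
        hlam0, hlam, map_zero, zero_pow (Nat.succ_ne_zero _), mul_zero, sub_zero, map_one, one_pow,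
        mul_one] at hsG
      refine ⟨s, hs, hsG.1, fun hcon => ?_⟩
      have h1 := hcon.sub hsG.2
      rw [sub_sub_cancel] at h1
      exact not_ge_zpow ht0 ht (by omega) h1
    · obtain ⟨lam, hlam⟩ := exists_one hη
      obtain ⟨t, ht0, ht⟩ := Q.surj
      obtain ⟨e, he⟩ : ∃ e : Place ℂ K →₀ ℤ, e = Finsupp.single P 1 + Finsupp.single Q 1 :=
        ⟨_, rfl⟩
      have heP : e P = 1 := by
        rw [he, Finsupp.add_apply, Finsupp.single_eq_same, Finsupp.single_eq_of_ne hne, add_zero]
      have heQ : e Q = 1 := by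
        rw [he, Finsupp.add_apply, Finsupp.single_eq_same, Finsupp.single_eq_of_ne (Ne.symm hne),
          zero_add]
      have he' : ∀ R, R ≠ P → R ≠ Q → e R = 0 := by
        intro R h1 h2
        rw [he, Finsupp.add_apply, Finsupp.single_eq_of_ne h1, Finsupp.single_eq_of_ne h2,
          add_zero]
      obtain ⟨y, hyP, hyQ, hyR⟩ : ∃ y : Place ℂ K → Fin r → K, y P = pt E P ξ ∧ y Q = pt E Q η ∧
          ∀ R, R ≠ P → R ≠ Q → y R = 0 := by
        refine ⟨fun R => if R = P then pt E P ξ else if R = Q then pt E Q η else 0, ?_, ?_, ?_⟩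
        · beta_reduce
          rw [if_pos rfl]
        · beta_reduce
          rw [if_neg (Ne.symm hne), if_pos rfl]
        · intro R h1 h2
          beta_reduce
          rw [if_neg h1, if_neg h2]
      obtain ⟨s, hs, hsP, hsQ⟩ := harc e (fun R => by
          by_cases h1 : R = P
          · rw [h1, heP]; norm_num
          · by_cases h2 : R = Q
            · rw [h2, heQ]; norm_num
            · rw [he' R h1 h2]) (by
          rw [he, ddeg_add, ddeg_single, ddeg_single, Pool.Agent.Helper90.FJ.deg_one,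
            Pool.Agent.Helper90.FJ.deg_one]
          norm_num) y (fun R j => by
          by_cases h1 : R = P
          · rw [h1, hyP, mulVec_pt]
            exact ge_const _
          · by_cases h2 : R = Q
            · rw [h2, hyQ, mulVec_pt]
              exact ge_const _
            · rw [hyR R h1 h2, Matrix.mulVec_zero]
              exact ge_zero) (fun R hR => by
          have hR' : R = P ∨ R = Q := by
            by_contra hcon
            push Not at hcon
            rw [he' R hcon.1 hcon.2] at hR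
            exact lt_irrefl _ hR
          have hcase : ∀ (R : Place ℂ K) (ζ : Fin r → ℂ), ζ ≠ 0 → y R = pt E R ζ →
              ∃ j, Matrix.mulVec (E.B R) (y R) j ≠ 0 ∧
                R.ord (Matrix.mulVec (E.B R) (y R) j) = 0 := by
            intro R ζ hζ hyζ
            obtain ⟨j, hj⟩ := Function.ne_iff.1 hζ
            have hj' : ζ j ≠ 0 := hj
            refine ⟨j, ?_, ?_⟩
            · rw [hyζ, mulVec_pt]
              exact (map_ne_zero _).2 hj'
            · rw [hyζ, mulVec_pt]
              exact R.ord_const hj'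
          rcases hR' with rfl | rfl
          · exact hcase _ ξ hξ hyP
          · exact hcase _ η hη hyQ) Q
        (C (t ^ (-N Q)) * cf E Q lam ^ (k' + 1)) (C_mul_hom _ (by
          have := (cf_hom E Q lam).pow (k' + 1)
          rwa [one_mul] at this)) (by
          rw [loc_mul, loc_C, loc_pow]
          have h1 := (cge_C (r := r) (ge_zpow ht (-N Q))).mul ((cf_loc E Q lam).pow (k' + 1))
          rwa [mul_zero, add_zero] at h1)
      have h1 := hsP P hne
      rw [heP, hyP] at h1
      rw [heQ, hyQ, map_sub, map_mul, eval_C, map_pow, cf_pt, hlam, map_one, one_pow,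
        mul_one] at hsQ
      refine ⟨s, hs, h1, fun hcon => ?_⟩
      have h2 := hcon.sub hsQ
      rw [sub_sub_cancel] at h2
      exact not_ge_zpow ht0 ht (by omega) h2
  · -- transversal tangent vectors
    obtain ⟨lam, hlam⟩ := exists_one hξ
    have ht0 : t ≠ 0 := by
      intro h0
      rw [h0, P.ord_zero] at ht
      exact zero_ne_one ht
    have hBz0 : ∀ j, Ge P 0 (Matrix.mulVec (E.B P) z j) := by
      intro j
      have h1 := ((hz j).mono (by norm_num : (0 : ℤ) ≤ 1)).add (ge_const (P := P) (ξ j))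
      rwa [sub_add_cancel] at h1
    obtain ⟨u, hu⟩ : ∃ u, u = eval z (cf E P lam) := ⟨_, rfl⟩
    have hu0 : u ≠ 0 ∧ P.ord u = 0 := by
      refine unit_of_sub (c := 1) one_ne_zero ?_
      have h1 : u - algebraMap ℂ K 1 = ∑ i, algebraMap ℂ K (lam i) *
          (Matrix.mulVec (E.B P) z i - algebraMap ℂ K (ξ i)) := by
        rw [hu, cf_eval, ← hlam, map_sum, ← Finset.sum_sub_distrib]
        refine Finset.sum_congr rfl fun i _ => ?_
        rw [map_mul]
        ring
      rw [h1]
      refine Ge.sum _ fun i _ => ?_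
      have := (ge_const (P := P) (lam i)).mul (hz i)
      rwa [zero_add] at this
    obtain ⟨e, he⟩ : ∃ e : Place ℂ K →₀ ℤ, e = Finsupp.single P 2 := ⟨_, rfl⟩
    have heP : e P = 2 := by rw [he, Finsupp.single_eq_same]
    have he' : ∀ R, R ≠ P → e R = 0 := fun R h1 => by rw [he, Finsupp.single_eq_of_ne h1]
    obtain ⟨y, hyP, hyR⟩ : ∃ y : Place ℂ K → Fin r → K, y P = z ∧ ∀ R, R ≠ P → y R = 0 := by
      refine ⟨fun R => if R = P then z else 0, if_pos rfl, fun R h1 => if_neg h1⟩
    have hs0ev : eval z (C (t ^ (1 - N P)) * cf E P lam ^ (k' + 1)) =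
        t ^ (1 - N P) * u ^ (k' + 1) := by
      rw [map_mul, eval_C, map_pow, hu]
    obtain ⟨s, hs, -, hsP⟩ := harc e (fun R => by
        by_cases h1 : R = P
        · rw [h1, heP]; norm_num
        · rw [he' R h1]) (by
        rw [he, ddeg_single, Pool.Agent.Helper90.FJ.deg_one]
        norm_num) y (fun R j => by
        by_cases h1 : R = P
        · rw [h1, hyP]
          exact hBz0 j
        · rw [hyR R h1, Matrix.mulVec_zero]
          exact ge_zero) (fun R hR => by
        have hR' : R = P := by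
          by_contra hcon
          rw [he' R hcon] at hR
          exact lt_irrefl _ hR
        obtain ⟨j, hj⟩ := Function.ne_iff.1 hξ
        refine ⟨j, ?_⟩
        rw [hR', hyP]
        exact unit_of_sub hj (hz j)) P
      (C (t ^ (1 - N P)) * cf E P lam ^ (k' + 1)) (C_mul_hom _ (by
        have := (cf_hom E P lam).pow (k' + 1)
        rwa [one_mul] at this)) (by
        rw [loc_mul, loc_C, loc_pow]
        have h1 := (cge_C (r := r) (ge_zpow ht (1 - N P))).mul ((cf_loc E P lam).pow (k' + 1))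
        rw [mul_zero, add_zero] at h1
        exact h1.mono (by omega))
    rw [heP, hyP, map_sub, hs0ev] at hsP
    have hord : P.ord (t ^ (1 - N P) * u ^ (k' + 1)) = 1 - N P := by
      rw [P.ord_mul (zpow_ne_zero _ ht0) (pow_ne_zero _ hu0.1), P.ord_zpow, ht, P.ord_pow, hu0.2]
      ring
    refine ⟨s, hs, ?_, fun hcon => ?_⟩
    · have h1 : Ge P (1 - N P) (eval z s) := by
        have h2 := (hsP.mono (by omega : 1 - N P ≤ 2 - N P)).add
          (Or.inr hord.ge : Ge P (1 - N P) (t ^ (1 - N P) * u ^ (k' + 1)))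
        rwa [sub_add_cancel] at h2
      have h0 : CGe P (-N P) (loc E P s) := hs.2 P
      have h3 := h0.eval_sub (z := fun i => algebraMap ℂ K (ξ i))
        (z' := Matrix.mulVec (E.B P) z) (fun j => ge_const _) hBz0 (fun j => by
          have h4 := (hz j).neg
          rwa [neg_sub] at h4)
      rw [← eval_pt, ← eval_eq_loc E P z] at h3
      have h4 := (h3.mono (by omega : 1 - N P ≤ -N P + 1)).add h1
      rwa [sub_add_cancel] at h4
    · have h1 := hcon.sub hsP
      rw [sub_sub_cancel, ge_iff (mul_ne_zero (zpow_ne_zero _ ht0) (pow_ne_zero _ hu0.1)),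
        hord] at h1
      omega
  · -- vertical tangent vectors
    obtain ⟨lam, hlam0, hlam⟩ := exists_sep hξ hη
    obtain ⟨lam', hlam'⟩ := exists_one hξ
    obtain ⟨t, ht0, ht⟩ := P.surj
    have hdv : ∀ s, ∑ j, pt E P η j * eval (pt E P ξ) (pderiv j s) =
      dv (pt E P η) (pt E P ξ) s := fun _ => rfl
    simp only [hdv]
    let G : AddSubgroup (MvPolynomial (Fin r) K) :=
      { carrier := {s | Ge P (1 - N P) (eval (pt E P ξ) s) ∧
          Ge P (1 - N P) (dv (pt E P η) (pt E P ξ) s)}
        zero_mem' := by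
          change Ge P (1 - N P) (eval (pt E P ξ) 0) ∧ Ge P (1 - N P) (dv (pt E P η) (pt E P ξ) 0)
          rw [map_zero, ← C_0, dv_C]
          exact ⟨ge_zero, ge_zero⟩
        add_mem' := by
          intro s s' hs hs'
          change Ge P (1 - N P) (eval (pt E P ξ) (s + s')) ∧
            Ge P (1 - N P) (dv (pt E P η) (pt E P ξ) (s + s'))
          rw [map_add, dv_add]
          exact ⟨hs.1.add hs'.1, hs.2.add hs'.2⟩
        neg_mem' := by
          intro s hs
          change Ge P (1 - N P) (eval (pt E P ξ) (-s)) ∧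
            Ge P (1 - N P) (dv (pt E P η) (pt E P ξ) (-s))
          have h1 : -s = C (-1) * s := by rw [C_neg, C_1, neg_one_mul]
          rw [map_neg, h1, dv_mul, dv_C, eval_C, zero_mul, zero_add, neg_one_mul]
          exact ⟨hs.1.neg, hs.2.neg⟩ }
    have hG : ∀ s, s ∈ G ↔ Ge P (1 - N P) (eval (pt E P ξ) s) ∧
      Ge P (1 - N P) (dv (pt E P η) (pt E P ξ) s) := fun _ => Iff.rfl
    obtain ⟨s, hs, hsG⟩ := hfib P G (fun c s hc hs => by
      rw [hG] at hs ⊢
      rw [map_mul, eval_C, dv_mul, dv_C, eval_C, zero_mul, zero_add]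
      have hc' : Ge P 0 c := hc
      have h1 := hc'.mul hs.1
      have h2 := hc'.mul hs.2
      rw [zero_add] at h1 h2
      exact ⟨h1, h2⟩) (fun s hs => ⟨ge_of_eval_pt hs ξ, dv_loc hs ξ η⟩)
      (C (t ^ (-N P)) * (cf E P lam' ^ k' * cf E P lam)) (C_mul_hom _ (by
        have := ((cf_hom E P lam').pow k').mul (cf_hom E P lam)
        rwa [one_mul] at this)) (by
        rw [loc_mul, loc_C, loc_mul, loc_pow]
        have h1 := (cge_C (r := r) (ge_zpow ht (-N P))).mul
          (((cf_loc E P lam').pow k').mul (cf_loc E P lam))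
        rwa [mul_zero, add_zero, add_zero] at h1)
    have hdvlam : dv (pt E P η) (pt E P ξ) (cf E P lam) = 1 := by
      rw [cf, dv_lf]
      have h1 := cf_pt E P lam η
      rw [hlam, map_one] at h1
      exact h1
    rw [hG, map_sub, map_mul, eval_C, map_mul, map_pow, cf_pt, cf_pt, hlam0, map_zero, mul_zero,
      mul_zero, sub_zero] at hsG
    refine ⟨s, hs, hsG.1, fun hcon => ?_⟩
    have h0 : dv (pt E P η) (pt E P ξ) (C (t ^ (-N P)) * (cf E P lam' ^ k' * cf E P lam)) =
        t ^ (-N P) := by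
      rw [dv_mul, dv_C, eval_C, zero_mul, zero_add, dv_mul, hdvlam, cf_pt, hlam0, map_zero,
        mul_zero, zero_add, map_pow, cf_pt, hlam', map_one, one_pow, mul_one, mul_one]
    have h1 : s - C (t ^ (-N P)) * (cf E P lam' ^ k' * cf E P lam) =
        s + C (-1) * (C (t ^ (-N P)) * (cf E P lam' ^ k' * cf E P lam)) := by
      rw [C_neg, C_1, neg_one_mul, sub_eq_add_neg]
    have h2 := hsG.2
    rw [h1, dv_add, dv_mul, dv_C, eval_C, zero_mul, zero_add, h0, neg_one_mul,
      ← sub_eq_add_neg] at h2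
    have h3 := hcon.sub h2
    rw [sub_sub_cancel] at h3
    exact not_ge_zpow ht0 ht (by omega) h3

end Pool.Agent.Helper9.GR
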