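import Pool.Agent.Helper9.GR.Defs
import Pool.Agent.Helper9.GR.Crit
import Pool.Agent.Helper90.FJ.Ample

/-!
The embedding of Plücker separates points and tangent vectors.
-/

set_option autoImplicit false
set_option linter.unusedSectionVars false

namespace Pool.Agent.Helper9.GR

open FF Module Pool.Agent.Helper9.FJ

section linear

variable {k r : ℕ}

theorem exists_minor_ne {F : Type} [Field F] {Ξ : Matrix (Fin r) (Fin k) F} (h : plu Ξ ≠ 0) :
    ∃ i, (Ξ.submatrix (sub k r i) id).det ≠ 0 := by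
  obtain ⟨i, hi⟩ := Function.ne_iff.1 h
  exact ⟨i, hi⟩

/-- Cramer -/
theorem updateRow_det {F : Type} [Field F] (g : Matrix (Fin k) (Fin k) F) (b : Fin k → F)
    (l : Fin k) : (g.updateRow l b).det = ∑ j, b j * g.adjugate j l := by
  rw [← Matrix.cramer_transpose_apply, Matrix.cramer_eq_adjugate_mulVec, ← Matrix.adjugate_transpose]
  simp only [Matrix.mulVec, dotProduct, Matrix.transpose_apply]
  exact Finset.sum_congr rfl fun j _ => mul_comm _ _

/-- the minors with one row replaced determine the matrix -/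
theorem eq_zero_of_minors {F : Type} [Field F] {U : Matrix (Fin k) (Fin k) F} (hU : U.det ≠ 0)
    {b : Fin k → F} (h : ∀ l, (U.updateRow l b).det = 0) : b = 0 := by
  have h1 : Matrix.vecMul b U.adjugate = 0 := by
    funext l
    rw [Pi.zero_apply, ← h l, updateRow_det]
    rfl
  have h2 := congrArg (fun v => Matrix.vecMul v U) h1
  beta_reduce at h2
  rw [Matrix.vecMul_vecMul, Matrix.adjugate_mul, Matrix.zero_vecMul, Matrix.vecMul_smul,
    Matrix.vecMul_one] at h2
  exact (smul_eq_zero.1 h2).resolve_left hU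

theorem submatrix_update {F : Type} (Ξ : Matrix (Fin r) (Fin k) F) (f : Fin k → Fin r) (l : Fin k)
    (i : Fin r) : Ξ.submatrix (Function.update f l i) id = (Ξ.submatrix f id).updateRow l (Ξ i) := by
  ext a b
  rw [Matrix.submatrix_apply, Matrix.updateRow_apply]
  by_cases h : a = l
  · rw [if_pos h, h, Function.update_self]
    rfl
  · rw [if_neg h, Function.update_of_ne h]
    rfl

/-- proportional vectors of minors -/
theorem exists_mul_of_plu {F : Type} [Field F] {Ξ Θ : Matrix (Fin r) (Fin k) F} (hΞ : plu Ξ ≠ 0)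
    (hΘ : plu Θ ≠ 0) {c : F} (h : plu Θ = c • plu Ξ) : ∃ g : Matrix (Fin k) (Fin k) F, Θ = Ξ * g := by
  have hc : c ≠ 0 := by
    rintro rfl
    rw [zero_smul] at h
    exact hΘ h
  have hall : ∀ f : Fin k → Fin r, (Θ.submatrix f id).det = c * (Ξ.submatrix f id).det := by
    intro f
    rcases minor_eq (R := F) f with h1 | ⟨i, ε, h1⟩
    · rw [h1, h1, mul_zero]
    · rw [h1, h1, h, Pi.smul_apply, smul_eq_mul]
      ring
  obtain ⟨i, hi⟩ := exists_minor_ne hΞ
  obtain ⟨f, hf⟩ : ∃ f, f = sub k r i := ⟨_, rfl⟩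
  rw [← hf] at hi
  have hi' : (Θ.submatrix f id).det ≠ 0 := by
    rw [hall]
    exact mul_ne_zero hc hi
  obtain ⟨U, hU⟩ : ∃ U, U = Ξ.submatrix f id := ⟨_, rfl⟩
  obtain ⟨V, hV⟩ : ∃ V, V = Θ.submatrix f id := ⟨_, rfl⟩
  rw [← hU] at hi
  rw [← hV] at hi'
  refine ⟨U⁻¹ * V, ?_⟩
  ext j x
  have h1 : (Θ j - Matrix.vecMul (Ξ j) (U⁻¹ * V)) = 0 := by
    refine eq_zero_of_minors hi' fun l => ?_
    have h2 : (V.updateRow l (Θ j - Matrix.vecMul (Ξ j) (U⁻¹ * V))).det =
        (V.updateRow l (Θ j)).det - (V.updateRow l (Matrix.vecMul (Ξ j) (U⁻¹ * V))).det := by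
      have h3 := Matrix.det_updateRow_add V l (Θ j - Matrix.vecMul (Ξ j) (U⁻¹ * V))
        (Matrix.vecMul (Ξ j) (U⁻¹ * V))
      rw [sub_add_cancel] at h3
      rw [h3]
      ring
    have h4 : V.updateRow l (Matrix.vecMul (Ξ j) (U⁻¹ * V)) =
        (U.updateRow l (Ξ j)) * (U⁻¹ * V) := by
      have h5 : U * (U⁻¹ * V) = V := by
        rw [← Matrix.mul_assoc, Matrix.mul_nonsing_inv _ (isUnit_iff_ne_zero.2 hi), Matrix.one_mul]
      ext a b
      rw [Matrix.updateRow_apply, Matrix.mul_apply]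
      by_cases ha : a = l
      · rw [if_pos ha, ha]
        simp only [Matrix.updateRow_self]
        rfl
      · rw [if_neg ha]
        simp only [Matrix.updateRow_ne ha]
        conv_lhs => rw [← h5, Matrix.mul_apply]
    rw [h2, h4, Matrix.det_mul, Matrix.det_mul, hU, hV, ← submatrix_update, ← submatrix_update,
      hall, hall f, Matrix.det_nonsing_inv, Ring.inverse_eq_inv']
    rw [hU] at hi
    field_simp
    ring
  have h6 := congrFun h1 x
  rw [Pi.sub_apply, Pi.zero_apply, sub_eq_zero] at h6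
  rw [h6, Matrix.mul_apply]
  rfl

open Polynomial in
/-- the coefficient of `ε` in the determinant of `U + ε V` -/
theorem coeff_det {U V : Matrix (Fin k) (Fin k) ℂ} :
    (U.map C + (X : ℂ[X]) • V.map C).det.coeff 1 = ∑ σ : Equiv.Perm (Fin k),
      ((Equiv.Perm.sign σ : ℤ) : ℂ) * ∑ a, (∏ b ∈ Finset.univ.erase a, U (σ b) b) * V (σ a) a := by
  rw [Matrix.det_apply', finsetSum_coeff]
  refine Finset.sum_congr rfl fun σ _ => ?_
  rw [← Polynomial.C_eq_intCast, Polynomial.coeff_C_mul]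
  congr 1
  have h1 : ∀ p : ℂ[X], p.coeff 1 = (derivative p).eval 0 := by
    intro p
    rw [← coeff_zero_eq_eval_zero, coeff_derivative]
    simp
  rw [h1, Polynomial.derivative_prod_finset, eval_finsetSum]
  refine Finset.sum_congr rfl fun a _ => ?_
  rw [eval_mul, eval_prod]
  congr 1
  · refine Finset.prod_congr rfl fun b _ => ?_
    simp [Matrix.add_apply, Matrix.smul_apply]
  · simp [Matrix.add_apply, Matrix.smul_apply]

open Polynomial in
theorem coeff_det_sub {U V V' : Matrix (Fin k) (Fin k) ℂ} :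
    (U.map C + (X : ℂ[X]) • (V - V').map C).det.coeff 1 =
      (U.map C + (X : ℂ[X]) • V.map C).det.coeff 1 -
        (U.map C + (X : ℂ[X]) • V'.map C).det.coeff 1 := by
  rw [coeff_det, coeff_det, coeff_det, ← Finset.sum_sub_distrib]
  refine Finset.sum_congr rfl fun σ _ => ?_
  rw [← mul_sub, ← Finset.sum_sub_distrib]
  congr 1
  refine Finset.sum_congr rfl fun a _ => ?_
  rw [Matrix.sub_apply, mul_sub]

open Polynomial in
theorem coeff_det_mul {U g : Matrix (Fin k) (Fin k) ℂ} :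
    (U.map C + (X : ℂ[X]) • (U * g).map C).det.coeff 1 = U.det * g.trace := by
  have h1 : U.map C + (X : ℂ[X]) • (U * g).map C = U.map C * (1 + (X : ℂ[X]) • g.map C) := by
    rw [Matrix.mul_add, Matrix.mul_one, Matrix.mul_smul, Matrix.map_mul]
  have h2 : (U.map C).det = (C U.det : ℂ[X]) := by
    rw [RingHom.map_det]
    rfl
  rw [h1, Matrix.det_mul, h2, coeff_C_mul, Matrix.coeff_det_one_add_X_smul_one]

open Polynomial in
theorem coeff_det_row {U : Matrix (Fin k) (Fin k) ℂ} (l : Fin k) (u v : Fin k → ℂ) :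
    ((U.map C).updateRow l (fun j => C (u j) + (X : ℂ[X]) * C (v j))).det.coeff 1 =
      (U.updateRow l v).det := by
  have h1 : (fun j => C (u j) + (X : ℂ[X]) * C (v j)) =
      (fun j => C (u j)) + (X : ℂ[X]) • (fun j => (C (v j) : ℂ[X])) := by
    funext j
    simp
  have h2 : ∀ w : Fin k → ℂ, ((U.map C).updateRow l (fun j => C (w j))).det =
      (C (U.updateRow l w).det : ℂ[X]) := by
    intro w
    rw [RingHom.map_det]
    congr 1
    ext a b
    rw [RingHom.mapMatrix_apply, Matrix.map_apply, Matrix.updateRow_apply, Matrix.updateRow_apply]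
    split_ifs <;> rfl
  rw [h1, Matrix.det_updateRow_add, Matrix.det_updateRow_smul, h2, h2, coeff_add, coeff_C,
    if_neg one_ne_zero, zero_add, coeff_X_mul, coeff_C_zero]

open Polynomial in
theorem dplu_eq (Ξ H : Matrix (Fin r) (Fin k) ℂ) (i : Fin (Rk k r)) : dplu Ξ H i =
    ((Ξ.submatrix (sub k r i) id).map C + (X : ℂ[X]) • (H.submatrix (sub k r i) id).map C).det.coeff 1 :=
  rfl

open Polynomial in
/-- tangent vectors -/
theorem exists_mul_of_dplu {Ξ H : Matrix (Fin r) (Fin k) ℂ} (hΞ : plu Ξ ≠ 0) {c : ℂ}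
    (h : dplu Ξ H = c • plu Ξ) : ∃ g : Matrix (Fin k) (Fin k) ℂ, H = Ξ * g := by
  have hall : ∀ f : Fin k → Fin r,
      ((Ξ.submatrix f id).map C + (X : ℂ[X]) • (H.submatrix f id).map C).det.coeff 1 =
        c * (Ξ.submatrix f id).det := by
    intro f
    have h0 : (Ξ.submatrix f id).map C + (X : ℂ[X]) • (H.submatrix f id).map C =
      (Ξ.map C + (X : ℂ[X]) • H.map C).submatrix f id := rfl
    rw [h0]
    rcases minor_eq (R := ℂ[X]) (k := k) f with h1 | ⟨i, ε, h1⟩
    · rw [h1]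
      have h2 : (C (Ξ.submatrix f id).det : ℂ[X]) = 0 := by
        rw [RingHom.map_det, ← h1 (Ξ.map C)]
        rfl
      rw [C_eq_zero.1 h2, mul_zero, coeff_zero]
    · rw [h1, ← C_eq_intCast, coeff_C_mul]
      have h2 : (C (Ξ.submatrix f id).det : ℂ[X]) = C (((ε : ℤ) : ℂ) * plu Ξ i) := by
        have h3 := h1 (Ξ.map C)
        have h4 : plu (Ξ.map C) i = (C (plu Ξ i) : ℂ[X]) := congrFun (plu_map C Ξ) i
        rw [h4] at h3
        rw [RingHom.map_det, map_mul, C_eq_intCast, ← h3]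
        rfl
      rw [C_injective h2]
      have h3 : (plu (Ξ.map C + (X : ℂ[X]) • H.map C) i).coeff 1 = c * plu Ξ i := congrFun h i
      rw [h3]
      ring
  obtain ⟨i, hi⟩ := exists_minor_ne hΞ
  obtain ⟨f, hf⟩ : ∃ f, f = sub k r i := ⟨_, rfl⟩
  rw [← hf] at hi
  obtain ⟨U, hU⟩ : ∃ U, U = Ξ.submatrix f id := ⟨_, rfl⟩
  obtain ⟨g, hg⟩ : ∃ g, g = U⁻¹ * H.submatrix f id := ⟨_, rfl⟩
  obtain ⟨H0, hH0⟩ : ∃ H0, H0 = H - Ξ * g := ⟨_, rfl⟩
  rw [← hU] at hi
  have hH0f : H0.submatrix f id = 0 := by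
    have h1 : (Ξ * g).submatrix f id = U * g := by
      rw [hU]
      ext a b
      rw [Matrix.submatrix_apply, Matrix.mul_apply, Matrix.mul_apply]
      rfl
    have h2 : H0.submatrix f id = H.submatrix f id - (Ξ * g).submatrix f id := by
      rw [hH0]
      rfl
    rw [h2, h1, hg, ← Matrix.mul_assoc, Matrix.mul_nonsing_inv _ (isUnit_iff_ne_zero.2 hi),
      Matrix.one_mul, sub_self]
  have hall0 : ∀ f : Fin k → Fin r,
      ((Ξ.submatrix f id).map C + (X : ℂ[X]) • (H0.submatrix f id).map C).det.coeff 1 =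
        (c - g.trace) * (Ξ.submatrix f id).det := by
    intro f
    have h1 : H0.submatrix f id = H.submatrix f id - Ξ.submatrix f id * g := by
      rw [hH0]
      ext a b
      rw [Matrix.submatrix_apply, Matrix.sub_apply, Matrix.sub_apply, Matrix.mul_apply,
        Matrix.mul_apply]
      rfl
    rw [h1, coeff_det_sub, hall, coeff_det_mul]
    ring
  have hc : c - g.trace = 0 := by
    have h1 := hall0 f
    rw [hH0f, ← hU] at h1
    have h2 : U.map C + (X : ℂ[X]) • (0 : Matrix (Fin k) (Fin k) ℂ).map C = U.map C := by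
      ext a b
      simp
    have h3 : (U.map C).det = (C U.det : ℂ[X]) := by
      rw [RingHom.map_det]
      rfl
    rw [h2, h3, coeff_C, if_neg one_ne_zero] at h1
    exact (mul_eq_zero.1 h1.symm).resolve_right hi
  refine ⟨g, ?_⟩
  have h1 : H0 = 0 := by
    ext j x
    have h2 : H0 j = 0 := by
      refine eq_zero_of_minors hi fun l => ?_
      have h3 := hall0 (Function.update f l j)
      rw [hc, zero_mul] at h3
      rw [← h3, ← coeff_det_row l (Ξ j) (H0 j)]
      congr 2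
      ext a b : 1
      rw [Matrix.updateRow_apply]
      have h5 : ((Ξ.submatrix (Function.update f l j) id).map C +
          (X : ℂ[X]) • (H0.submatrix (Function.update f l j) id).map C) a b =
          C (Ξ (Function.update f l j a) b) + (X : ℂ[X]) * C (H0 (Function.update f l j a) b) := rfl
      rw [h5]
      by_cases ha : a = l
      · rw [if_pos ha, ha, Function.update_self]
      · have h4 : H0 (f a) b = 0 := congrFun (congrFun hH0f a) b
        rw [if_neg ha, Function.update_of_ne ha, h4, C_0, mul_zero, add_zero, hU]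
        rfl
    rw [h2]
    rfl
  rw [hH0, sub_eq_zero] at h1
  exact h1

end linear

section points

variable {K : Type} [Field K] [Algebra ℂ K] {k r : ℕ} {P : Place ℂ K}

theorem plu_cm (Ξ : Matrix (Fin r) (Fin k) ℂ) :
    plu (cm Ξ : Matrix (Fin r) (Fin k) K) = fun i => algebraMap ℂ K (plu Ξ i) :=
  plu_map (algebraMap ℂ K) Ξ

theorem plp_cm (E : Bundle K r) (P : Place ℂ K) (Ξ : Matrix (Fin r) (Fin k) ℂ) :
    plp E P (cm Ξ) = pt (wedge k E) P (plu Ξ) := by
  rw [plp, plu_cm]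
  rfl

theorem mulVec_plp (E : Bundle K r) (P : Place ℂ K) (Ξ : Matrix (Fin r) (Fin k) K) :
    Matrix.mulVec ((wedge k E).B P) (plp E P Ξ) = plu Ξ := by
  rw [plp, Matrix.mulVec_mulVec, Matrix.mul_nonsing_inv _
    (isUnit_iff_ne_zero.2 ((wedge k E).det_ne P)), Matrix.one_mulVec]

theorem ge_det_sub {n : Type*} [Fintype n] [DecidableEq n] {M M' : Matrix n n K}
    (h : ∀ i j, Ge P 0 (M i j)) (h' : ∀ i j, Ge P 0 (M' i j))
    (hs : ∀ i j, Ge P 1 (M i j - M' i j)) : Ge P 1 (M.det - M'.det) := by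
  rw [Matrix.det_apply', Matrix.det_apply', ← Finset.sum_sub_distrib]
  refine Ge.sum _ fun σ _ => ?_
  rw [← mul_sub]
  have := (ge_int (P := P) ((Equiv.Perm.sign σ : ℤˣ) : ℤ)).mul
    (ge_prod_sub Finset.univ (x := fun i => M (σ i) i) (y := fun i => M' (σ i) i)
      (fun i => h _ _) (fun i => h' _ _) fun i => hs _ _)
  rwa [zero_add] at this

/-- **Very ampleness on the Grassmann bundle.** -/
theorem veryAmpleG_of [IsFF ℂ K] (E : Bundle K r) {k' : ℕ} {N : Place ℂ K →₀ ℤ}
    (h : BaseFree (wedge k E) (k' + 1) N ∧ SepPoints (wedge k E) (k' + 1) N ∧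
      (∀ (P : Place ℂ K) (t : K) (ξ : Fin (Rk k r) → ℂ) (z : Fin (Rk k r) → K), P.ord t = 1 →
        ξ ≠ 0 → (∀ j, Ge P 1 (Matrix.mulVec ((wedge k E).B P) z j - algebraMap ℂ K (ξ j))) →
        ∃ s, IsSec (wedge k E) (k' + 1) N s ∧ Ge P (1 - N P) (MvPolynomial.eval (pt (wedge k E) P ξ) s) ∧
          ¬ Ge P (2 - N P) (MvPolynomial.eval z s)) ∧
      SepVertical (wedge k E) (k' + 1) N) : VeryAmpleG k E (k' + 1) N := by
  obtain ⟨h1, h2, h3, h4⟩ := h
  refine ⟨fun P Ξ hΞ => ?_, fun P Q Ξ Θ hΞ hΘ hPQ => ?_, fun P t Ξ H ht hΞ => ?_,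
    fun P Ξ H hΞ hH => ?_⟩
  · obtain ⟨s, hs, hs1⟩ := h1 P (plu Ξ) hΞ
    exact ⟨s, hs, by rwa [plp_cm]⟩
  · obtain ⟨s, hs, hs1, hs2⟩ := h2 P Q (plu Ξ) (plu Θ) hΞ hΘ (by
      rintro hP ⟨c, hc⟩
      exact hPQ hP (exists_mul_of_plu hΞ hΘ hc))
    exact ⟨s, hs, by rwa [plp_cm], by rwa [plp_cm]⟩
  · obtain ⟨s, hs, hs1, hs2⟩ := h3 P t (plu Ξ) (plp E P (cm Ξ + t • cm H)) ht hΞ (by
      intro j
      rw [mulVec_plp]
      have h5 : algebraMap ℂ K (plu Ξ j) = plu (cm Ξ : Matrix (Fin r) (Fin k) K) j :=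
        (congrFun (plu_cm Ξ) j).symm
      have ht0 : Ge P 1 t := Or.inr ht.ge
      have h6 : ∀ a b, Ge P 1 ((t • (cm H : Matrix (Fin r) (Fin k) K)) a b) := by
        intro a b
        rw [Matrix.smul_apply, smul_eq_mul]
        have := ht0.mul (ge_const (P := P) (H a b))
        rwa [add_zero] at this
      rw [h5]
      refine ge_det_sub (fun a b => ?_) (fun a b => ?_) fun a b => ?_
      · exact (ge_const (P := P) (Ξ _ _)).add ((h6 _ _).mono (by norm_num))
      · exact ge_const (P := P) (Ξ _ _)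
      · rw [Matrix.submatrix_apply, Matrix.submatrix_apply, Matrix.add_apply, add_sub_cancel_left]
        exact h6 _ _)
    exact ⟨s, hs, by rwa [plp_cm], hs2⟩
  · obtain ⟨s, hs, hs1, hs2⟩ := h4 P (plu Ξ) (dplu Ξ H) hΞ (by
      rintro ⟨c, hc⟩
      exact hH (exists_mul_of_dplu hΞ hc))
    exact ⟨s, hs, by rwa [plp_cm], by rwa [plp_cm]⟩

end points

end Pool.Agent.Helper9.GR
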