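import Pool.Agent.Helper9.GR.CB

/-!
Grassmann bundles over curves, line bundles on them, and very ampleness.
-/

set_option autoImplicit false

namespace Pool.Agent.Helper9.GR

open FF Module MvPolynomial Pool.Agent.Helper9.FJ

variable {K : Type} [Field K] [Algebra ℂ K] {r : ℕ}

/-- The exterior power `Λ^k E` of a vector bundle. -/
noncomputable def wedge (k : ℕ) (E : Bundle K r) : Bundle K (Rk k r) where
  B P := cpd k (E.B P)
  det_ne P := cpd_det_ne k (E.det_ne P)
  fin := E.fin.subset fun P hP h => hP (by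
    change cpd k (E.B P) = 1
    rw [h, cpd_one])

/-- Let `X = Gr(k, E)` be the bundle of the `k`-dimensional quotients of the fibres of `E`, embedded
in the projective bundle `P(Λ^k E)` by the embedding of Plücker. A point of `X` above `P` is given by
an `r × k` matrix `Ξ` of rank `k` with entries in `ℂ`, up to multiplication with invertible matrices
from the right: the linear map of the fibre of `E` at `P` to `ℂ^k` with the values `Ξ i` on the
rows of `E.B P`. It is the reduction of the point `plp E P Ξ` of `K^(Rk k r)`. This is the same for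
matrices `Ξ` with entries in the ring of the regular functions at `P`. -/
noncomputable def plp {k : ℕ} (E : Bundle K r) (P : Place ℂ K) (Ξ : Matrix (Fin r) (Fin k) K) :
    Fin (Rk k r) → K :=
  ((wedge k E).B P)⁻¹.mulVec (plu Ξ)

/-- A matrix of constants as a matrix of functions. -/
noncomputable def cm {k : ℕ} (Ξ : Matrix (Fin r) (Fin k) ℂ) : Matrix (Fin r) (Fin k) K :=
  Ξ.map (algebraMap ℂ K)

/-- The sections of the line bundle `O(a) ⊗ π^* O(N)` on `X` have no common zero. (They are the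
restrictions of the sections of this line bundle on `P(Λ^k E)`.) -/
def BaseFreeG (k : ℕ) (E : Bundle K r) (a : ℕ) (N : Place ℂ K →₀ ℤ) : Prop :=
  ∀ (P : Place ℂ K) (Ξ : Matrix (Fin r) (Fin k) ℂ), plu Ξ ≠ 0 →
    ∃ s, IsSec (wedge k E) a N s ∧ ¬ Ge P (1 - N P) (eval (plp E P (cm Ξ)) s)

/-- The sections separate points. -/
def SepPointsG (k : ℕ) (E : Bundle K r) (a : ℕ) (N : Place ℂ K →₀ ℤ) : Prop :=
  ∀ (P Q : Place ℂ K) (Ξ Θ : Matrix (Fin r) (Fin k) ℂ), plu Ξ ≠ 0 → plu Θ ≠ 0 →
    (P = Q → ¬ ∃ g : Matrix (Fin k) (Fin k) ℂ, Θ = Ξ * g) →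
    ∃ s, IsSec (wedge k E) a N s ∧ Ge P (1 - N P) (eval (plp E P (cm Ξ)) s) ∧
      ¬ Ge Q (1 - N Q) (eval (plp E Q (cm Θ)) s)

/-- The sections separate the tangent vectors which are not vertical: for a section `s` which
vanishes at `(P, Ξ)`, the derivative in the direction of the tangent vector `(1, H)` at `(P, Ξ)` is
the coefficient of `t` in the value of `t ^ N(P) s` at `Ξ + t H`. -/
def SepTransversalG (k : ℕ) (E : Bundle K r) (a : ℕ) (N : Place ℂ K →₀ ℤ) : Prop :=
  ∀ (P : Place ℂ K) (t : K) (Ξ H : Matrix (Fin r) (Fin k) ℂ), P.ord t = 1 → plu Ξ ≠ 0 →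
    ∃ s, IsSec (wedge k E) a N s ∧ Ge P (1 - N P) (eval (plp E P (cm Ξ)) s) ∧
      ¬ Ge P (2 - N P) (eval (plp E P (cm Ξ + t • cm H)) s)

/-- The coefficients of `ε` in the maximal minors of `Ξ + ε H`. -/
noncomputable def dplu {k : ℕ} (Ξ H : Matrix (Fin r) (Fin k) ℂ) : Fin (Rk k r) → ℂ :=
  fun i => (plu (Ξ.map Polynomial.C + (Polynomial.X : Polynomial ℂ) • H.map Polynomial.C) i).coeff 1

/-- The sections separate the vertical tangent vectors: for a section `s` which vanishes at
`(P, Ξ)`, the derivative in the direction of the vertical tangent vector `(0, H)`, `H` not of the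
form `Ξ g`, is the value at `P` of the derivative of `t ^ N(P) s` at `plp E P Ξ` in the direction
given by the coefficients of `ε` in the minors of `Ξ + ε H`. -/
def SepVerticalG (k : ℕ) (E : Bundle K r) (a : ℕ) (N : Place ℂ K →₀ ℤ) : Prop :=
  ∀ (P : Place ℂ K) (Ξ H : Matrix (Fin r) (Fin k) ℂ), plu Ξ ≠ 0 →
    (¬ ∃ g : Matrix (Fin k) (Fin k) ℂ, H = Ξ * g) →
    ∃ s, IsSec (wedge k E) a N s ∧ Ge P (1 - N P) (eval (plp E P (cm Ξ)) s) ∧
      ¬ Ge P (1 - N P) (∑ j, pt (wedge k E) P (dplu Ξ H) j *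
        eval (plp E P (cm Ξ)) (pderiv j s))

/-- The line bundle `O(a) ⊗ π^* O(N)` on `X = Gr(k, E)` is very ample: its sections have no common
zero, and they separate points and tangent vectors. -/
def VeryAmpleG (k : ℕ) (E : Bundle K r) (a : ℕ) (N : Place ℂ K →₀ ℤ) : Prop :=
  BaseFreeG k E a N ∧ SepPointsG k E a N ∧ SepTransversalG k E a N ∧ SepVerticalG k E a N

/-- The line bundle `O(a) ⊗ π^* O(b)` on `X = Gr(k, E)` is ample. -/
def IsAmpleG (k : ℕ) (E : Bundle K r) (a : ℕ) (b : Place ℂ K →₀ ℤ) : Prop :=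
  ∃ M : ℕ, 0 < M ∧ VeryAmpleG k E (M * a) (M • b)

end Pool.Agent.Helper9.GR
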