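import Pool.Agent.Helper9.FJ.Lat

/-!
Maximal minors and compound matrices.
-/

set_option autoImplicit false

namespace Pool.Agent.Helper9.GR

open Matrix

/-- The number of the subsets of `{1, …, r}` with `k` elements. -/
noncomputable abbrev Rk (k r : ℕ) : ℕ := Fintype.card (Fin k ↪o Fin r)

/-- The subsets of `{1, …, r}` with `k` elements, as increasing maps. -/
noncomputable def sub (k r : ℕ) (i : Fin (Rk k r)) : Fin k → Fin r :=
  (Fintype.equivFin (Fin k ↪o Fin r)).symm i

/-- The maximal minors of a matrix with `k` columns. -/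
noncomputable def plu {R : Type} [CommRing R] {k r : ℕ} (M : Matrix (Fin r) (Fin k) R) :
    Fin (Rk k r) → R :=
  fun i => (M.submatrix (sub k r i) id).det

/-- The compound matrix, the matrix of the minors of order `k`. -/
noncomputable def cpd {R : Type} [CommRing R] (k : ℕ) {r : ℕ} (M : Matrix (Fin r) (Fin r) R) :
    Matrix (Fin (Rk k r)) (Fin (Rk k r)) R :=
  Matrix.of fun i j => (M.submatrix (sub k r i) (sub k r j)).det

theorem exists_sort {k r : ℕ} {f : Fin k → Fin r} (hf : Function.Injective f) :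
    ∃ (T : Fin k ↪o Fin r) (σ : Equiv.Perm (Fin k)), f = T ∘ σ := by
  have h1 : StrictMono (f ∘ Tuple.sort f) :=
    (Tuple.monotone_sort f).strictMono_of_injective (hf.comp (Tuple.sort f).injective)
  refine ⟨OrderEmbedding.ofStrictMono _ h1, (Tuple.sort f).symm, ?_⟩
  funext i
  simp

theorem exists_sub {k r : ℕ} {f : Fin k → Fin r} (hf : Function.Injective f) :
    ∃ (i : Fin (Rk k r)) (σ : Equiv.Perm (Fin k)), f = sub k r i ∘ σ := by
  obtain ⟨T, σ, h⟩ := exists_sort hf
  refine ⟨Fintype.equivFin (Fin k ↪o Fin r) T, σ, ?_⟩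
  rw [h, sub, Equiv.symm_apply_apply]

theorem sub_inj {k r : ℕ} (i : Fin (Rk k r)) : Function.Injective (sub k r i) :=
  ((Fintype.equivFin (Fin k ↪o Fin r)).symm i).injective

theorem sub_comp_inj {k r : ℕ} {i j : Fin (Rk k r)} {σ τ : Equiv.Perm (Fin k)}
    (h : sub k r i ∘ σ = sub k r j ∘ τ) : i = j ∧ σ = τ := by
  have h1 : Set.range (sub k r i) = Set.range (sub k r j) := by
    rw [← σ.surjective.range_comp, h, τ.surjective.range_comp]
  have h2 : sub k r i = sub k r j :=
    (StrictMono.range_inj ((Fintype.equivFin (Fin k ↪o Fin r)).symm i).strictMono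
      ((Fintype.equivFin (Fin k ↪o Fin r)).symm j).strictMono).1 h1
  have h3 : i = j := by
    apply (Fintype.equivFin (Fin k ↪o Fin r)).symm.injective
    exact DFunLike.coe_injective h2
  subst h3
  refine ⟨rfl, ?_⟩
  ext x
  have := congrFun h x
  exact congrArg Fin.val (sub_inj i this)

/-- **The formula of Cauchy and Binet.** -/
theorem cauchyBinet {R : Type} [CommRing R] {k r : ℕ} (A : Matrix (Fin k) (Fin r) R)
    (B : Matrix (Fin r) (Fin k) R) :
    (A * B).det = ∑ i, (A.submatrix id (sub k r i)).det * plu B i := by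
  classical
  rw [Pool.Agent.Helper9.FJ.det_mul_expand]
  have h1 : ∀ i : Fin (Rk k r), (A.submatrix id (sub k r i)).det * plu B i =
      ∑ σ : Equiv.Perm (Fin k), (∏ a, A a (sub k r i (σ a))) *
        (B.submatrix (sub k r i ∘ σ) id).det := by
    intro i
    rw [← Matrix.det_transpose, Matrix.det_apply', Finset.sum_mul]
    refine Finset.sum_congr rfl fun σ _ => ?_
    have h2 : B.submatrix (sub k r i ∘ σ) id = (B.submatrix (sub k r i) id).submatrix σ id := rfl
    rw [h2, Matrix.det_permute, plu]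
    simp only [Matrix.transpose_apply, Matrix.submatrix_apply, id]
    ring
  rw [Finset.sum_congr rfl fun i _ => h1 i]
  have h4 := Fintype.sum_prod_type' (fun (i : Fin (Rk k r)) (σ : Equiv.Perm (Fin k)) =>
    (∏ a, A a (sub k r i (σ a))) * (B.submatrix (sub k r i ∘ σ) id).det)
  rw [← h4]
  symm
  refine Fintype.sum_of_injective (fun p : Fin (Rk k r) × Equiv.Perm (Fin k) => sub k r p.1 ∘ p.2)
    ?_ _ _ ?_ ?_
  · rintro ⟨i, σ⟩ ⟨j, τ⟩ h
    obtain ⟨h1, h2⟩ := sub_comp_inj h
    exact Prod.ext h1 h2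
  · intro S hS
    have h3 : ¬ Function.Injective S := by
      intro h
      obtain ⟨i, σ, rfl⟩ := exists_sub h
      exact hS ⟨(i, σ), rfl⟩
    rw [Function.Injective] at h3
    push Not at h3
    obtain ⟨a, b, hab, hne⟩ := h3
    rw [Matrix.det_zero_of_row_eq hne (by
      funext l
      rw [Matrix.submatrix_apply, Matrix.submatrix_apply, hab]), mul_zero]
  · rintro ⟨i, σ⟩
    rfl

theorem plu_mul {R : Type} [CommRing R] {k r : ℕ} (A : Matrix (Fin r) (Fin r) R)
    (B : Matrix (Fin r) (Fin k) R) : plu (A * B) = (cpd k A).mulVec (plu B) := by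
  funext i
  have h1 : (A * B).submatrix (sub k r i) id = A.submatrix (sub k r i) id * B := by
    ext a b
    rw [Matrix.submatrix_apply, Matrix.mul_apply, Matrix.mul_apply]
    rfl
  rw [plu, h1, cauchyBinet, Matrix.mulVec, dotProduct]
  rfl

theorem cpd_mul {R : Type} [CommRing R] (k : ℕ) {r : ℕ} (A B : Matrix (Fin r) (Fin r) R) :
    cpd k (A * B) = cpd k A * cpd k B := by
  ext i j
  have h1 : (A * B).submatrix (sub k r i) (sub k r j) =
      A.submatrix (sub k r i) id * B.submatrix id (sub k r j) := by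
    ext a b
    rw [Matrix.submatrix_apply, Matrix.mul_apply, Matrix.mul_apply]
    rfl
  rw [cpd, Matrix.of_apply, h1, cauchyBinet, Matrix.mul_apply]
  rfl

theorem cpd_one {R : Type} [CommRing R] (k : ℕ) {r : ℕ} :
    cpd k (1 : Matrix (Fin r) (Fin r) R) = 1 := by
  ext i j
  rw [cpd, Matrix.of_apply, Matrix.one_apply]
  split_ifs with h
  · rw [h, Matrix.submatrix_one _ (sub_inj j), Matrix.det_one]
  · obtain ⟨a, ha⟩ : ∃ a, ∀ b, sub k r i a ≠ sub k r j b := by
      by_contra hcon
      push Not at hcon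
      choose f hf using hcon
      apply h
      have h1 : Function.Injective f := by
        intro a b hab
        apply sub_inj i
        rw [hf, hf, hab]
      have h2 : sub k r i ∘ (1 : Equiv.Perm (Fin k)) =
          sub k r j ∘ (Equiv.ofBijective f (Finite.injective_iff_bijective.1 h1)) := by
        funext a
        exact hf a
      exact (sub_comp_inj h2).1
    exact Matrix.det_eq_zero_of_row_eq_zero a fun b => by
      rw [Matrix.submatrix_apply, Matrix.one_apply_ne (ha b)]

theorem cpd_det_ne {F : Type} [Field F] (k : ℕ) {r : ℕ} {A : Matrix (Fin r) (Fin r) F}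
    (hA : A.det ≠ 0) : (cpd k A).det ≠ 0 := by
  intro h0
  have h1 := congrArg Matrix.det (cpd_mul k A A⁻¹)
  rw [Matrix.mul_nonsing_inv _ (isUnit_iff_ne_zero.2 hA), cpd_one, Matrix.det_one,
    Matrix.det_mul, h0, zero_mul] at h1
  exact one_ne_zero h1

theorem cpd_inv {F : Type} [Field F] (k : ℕ) {r : ℕ} {A : Matrix (Fin r) (Fin r) F}
    (hA : A.det ≠ 0) : (cpd k A)⁻¹ = cpd k A⁻¹ := by
  apply Matrix.inv_eq_right_inv
  rw [← cpd_mul, Matrix.mul_nonsing_inv _ (isUnit_iff_ne_zero.2 hA), cpd_one]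

theorem cpd_map {R S : Type} [CommRing R] [CommRing S] (θ : R →+* S) (k : ℕ) {r : ℕ}
    (A : Matrix (Fin r) (Fin r) R) : cpd k (A.map θ) = (cpd k A).map θ := by
  ext i j
  rw [cpd, Matrix.of_apply, Matrix.map_apply, cpd, Matrix.of_apply, RingHom.map_det]
  rfl

theorem plu_map {R S : Type} [CommRing R] [CommRing S] (θ : R →+* S) {k r : ℕ}
    (M : Matrix (Fin r) (Fin k) R) : plu (M.map θ) = fun i => θ (plu M i) := by
  funext i
  rw [plu, plu, RingHom.map_det]
  rfl

theorem plu_mul_right {R : Type} [CommRing R] {k r : ℕ} (M : Matrix (Fin r) (Fin k) R)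
    (g : Matrix (Fin k) (Fin k) R) : plu (M * g) = g.det • plu M := by
  funext i
  have h1 : (M * g).submatrix (sub k r i) id = M.submatrix (sub k r i) id * g := by
    ext a b
    rw [Matrix.submatrix_apply, Matrix.mul_apply, Matrix.mul_apply]
    rfl
  rw [plu, h1, Matrix.det_mul, Pi.smul_apply, smul_eq_mul, mul_comm]
  rfl

/-- the minors with arbitrary rows -/
theorem minor_eq {R : Type} [CommRing R] {k r : ℕ} (f : Fin k → Fin r) :
    (∀ M : Matrix (Fin r) (Fin k) R, (M.submatrix f id).det = 0) ∨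
      ∃ (i : Fin (Rk k r)) (ε : ℤˣ), ∀ M : Matrix (Fin r) (Fin k) R,
        (M.submatrix f id).det = ((ε : ℤ) : R) * plu M i := by
  by_cases hf : Function.Injective f
  · right
    obtain ⟨i, σ, rfl⟩ := exists_sub hf
    refine ⟨i, Equiv.Perm.sign σ, fun M => ?_⟩
    have h2 : M.submatrix (sub k r i ∘ σ) id = (M.submatrix (sub k r i) id).submatrix σ id := rfl
    rw [h2, Matrix.det_permute, plu]
  · left
    intro M
    rw [Function.Injective] at hf
    push Not at hf
    obtain ⟨a, b, hab, hne⟩ := hf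
    exact Matrix.det_zero_of_row_eq hne (by
      funext l
      rw [Matrix.submatrix_apply, Matrix.submatrix_apply, hab])

end Pool.Agent.Helper9.GR
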