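import Pool.Agent.Helper9.GR.Chord
import Pool.Agent.Helper9.FJ.Key

/-!
Slopes of the quotient bundles of exterior powers.
-/

set_option autoImplicit false
set_option linter.unusedSectionVars false

namespace Pool.Agent.Helper9.GR

open FF Module Pool.Agent.Helper9.FJ

variable {K : Type} [Field K] [Algebra ℂ K] {r : ℕ}

/-- the multilinear map to the exterior power -/
noncomputable def pluM (k r : ℕ) :
    MultilinearMap K (fun _ : Fin k => Fin r → K) (Fin (Rk k r) → K) :=
  MultilinearMap.pi fun T => (Matrix.detRowAlternating (n := Fin k) (R := K)).toMultilinearMap.compLinearMap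
    (fun _ => LinearMap.funLeft K K (sub k r T))

theorem pluM_apply {k : ℕ} (u : Fin k → Fin r → K) (T : Fin (Rk k r)) :
    pluM k r u T = (Matrix.of fun a b => u a (sub k r T b)).det := rfl

/-- the rows of a matrix -/
theorem pluM_rows {k : ℕ} (g : Matrix (Fin r) (Fin r) K) (f : Fin k → Fin r) :
    pluM k r (fun l => g (f l)) = 0 ∨ ∃ (i : Fin (Rk k r)) (ε : ℤˣ),
      pluM k r (fun l => g (f l)) = ((ε : ℤ) : K) • cpd k g i := by
  have h0 : ∀ T, pluM k r (fun l => g (f l)) T =
      ((g.submatrix id (sub k r T)).submatrix f id).det := fun T => rfl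
  rcases minor_eq (R := K) f with h | ⟨i, ε, h⟩
  · left
    funext T
    rw [h0, h]
    rfl
  · right
    refine ⟨i, ε, ?_⟩
    funext T
    rw [h0, h, Pi.smul_apply, smul_eq_mul]
    rfl

theorem pluM_ne {k : ℕ} {u : Fin k → Fin r → K} (h : pluM k r u ≠ 0) : Function.Injective u := by
  intro a b hab
  by_contra hne
  apply h
  funext T
  rw [pluM_apply]
  exact Matrix.det_zero_of_row_eq hne (by
    funext l
    rw [Matrix.of_apply, Matrix.of_apply, hab])

variable [IsFF ℂ K]

/-- **Quotients of exterior powers.** -/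
theorem wedge_slope {k : ℕ} (hk : 0 < k) (hkr : k < r) (E : Bundle K r) {ν : ℝ}
    (hν : Chord k E ν) {ρ : ℕ} (Λ : Matrix (Fin (Rk k r)) (Fin ρ) K) (d : Place ℂ K →₀ ℤ)
    (hd : IsQuot (wedge k E) Λ d) : ν * ρ ≤ ddeg d := by
  classical
  obtain ⟨c, hc⟩ : ∃ c : MultilinearMap K (fun _ : Fin k => Fin r → K) (Fin ρ → K),
      ∀ u, c u = Matrix.vecMul (pluM k r u) Λ :=
    ⟨(Matrix.vecMulLinear Λ).compMultilinearMap (pluM k r), fun _ => rfl⟩
  have hval : ∀ v : Fin ρ × Fin k → Fin r → K, detForm c v =
      (Matrix.of fun i => c (fun l => v (i, l))).det := fun _ => rfl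
  have hTv : ∀ J : Fin (ρ * k) → Fin r → K, ((detForm c).domDomCongr finProdFinEquiv) J =
      (Matrix.of fun i => c (fun l => J (finProdFinEquiv (i, l)))).det := fun _ => rfl
  refine slope_alt (ρ := ρ) hk hkr E hν rfl ((detForm c).domDomCongr finProdFinEquiv) ?_ ?_ d ?_
  · obtain ⟨P, -⟩ := exists_place (k := ℂ) (K := K)
    obtain ⟨S, hS, -⟩ := (hd P).2
    intro h0
    apply hS
    have h1 := congrArg (fun D => D (fun x => E.B P (sub k r (S (finProdFinEquiv.symm x).1)
      (finProdFinEquiv.symm x).2))) h0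
    beta_reduce at h1
    rw [hTv] at h1
    simp only [Equiv.symm_apply_apply] at h1
    rw [MultilinearMap.zero_apply] at h1
    rw [← h1]
    congr 1
    ext i j
    rw [Matrix.submatrix_apply, Matrix.of_apply, hc]
    rfl
  · intro g J hne j
    rw [hTv] at hne
    have hinj : ∀ i, Function.Injective fun l : Fin k => J (finProdFinEquiv (i, l)) := by
      intro i l l' hll
      beta_reduce at hll
      by_contra hne'
      apply hne
      refine Matrix.det_eq_zero_of_row_eq_zero i fun x => ?_
      rw [Matrix.of_apply, hc]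
      have h1 : pluM k r (fun l => g (J (finProdFinEquiv (i, l)))) = 0 := by
        by_contra h2
        exact hne' (pluM_ne h2 (congrArg g hll))
      rw [h1, Matrix.zero_vecMul]
      rfl
    have h1 : (Finset.univ.filter fun l : Fin (ρ * k) => J l = j).card =
        ∑ x : Fin ρ × Fin k, if J (finProdFinEquiv x) = j then 1 else 0 := by
      rw [Finset.card_filter]
      exact (Equiv.sum_comp finProdFinEquiv fun l => if J l = j then 1 else 0).symm
    rw [h1, Fintype.sum_prod_type]
    calc ∑ i : Fin ρ, ∑ l : Fin k, (if J (finProdFinEquiv (i, l)) = j then 1 else 0)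
        ≤ ∑ _i : Fin ρ, 1 := by
          refine Finset.sum_le_sum fun i _ => ?_
          rw [← Finset.card_filter]
          refine Finset.card_le_one.2 fun a ha b hb => ?_
          exact hinj i ((Finset.mem_filter.1 ha).2.trans (Finset.mem_filter.1 hb).2.symm)
      _ = ρ := by simp
  · intro P J
    rw [hTv]
    by_cases hz : ∃ i : Fin ρ, pluM k r (fun l => E.B P (J (finProdFinEquiv (i, l)))) = 0
    · obtain ⟨i, hi⟩ := hz
      left
      refine Matrix.det_eq_zero_of_row_eq_zero i fun x => ?_
      rw [Matrix.of_apply, hc, hi, Matrix.zero_vecMul]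
      rfl
    · push Not at hz
      have h1 : ∀ i : Fin ρ, ∃ (x : Fin (Rk k r)) (ε : ℤˣ),
          pluM k r (fun l => E.B P (J (finProdFinEquiv (i, l)))) = ((ε : ℤ) : K) • cpd k (E.B P) x :=
        fun i => (pluM_rows (E.B P) fun l => J (finProdFinEquiv (i, l))).resolve_left (hz i)
      choose S ε hSε using h1
      have h2 : (Matrix.of fun i => c (fun l => E.B P (J (finProdFinEquiv (i, l))))) =
          Matrix.of fun i j => ((ε i : ℤ) : K) *
            (((wedge k E).B P * Λ).submatrix S id) i j := by
        ext i j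
        rw [Matrix.of_apply, Matrix.of_apply, hc, hSε, Matrix.smul_vecMul]
        rfl
      rw [h2, Matrix.det_mul_column]
      have h3 := (Ge.prod0 (P := P) Finset.univ fun i (_ : i ∈ Finset.univ) =>
        ge_int (P := P) (ε i : ℤ)).mul ((hd P).1 S)
      rwa [zero_add] at h3

end Pool.Agent.Helper9.GR
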