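import Pool.Agent.Helper9.GR.Chord

/-!
Local frames of a bundle which are adapted to a chain of quotients.
-/

set_option autoImplicit false
set_option linter.unusedSectionVars false

namespace Pool.Agent.Helper9.GR

open FF Module Pool.Agent.Helper9.FJ

variable {K : Type} [Field K] [Algebra ℂ K] {r : ℕ}

theorem ge_minor {E : Bundle K r} {G : Matrix (Fin r) (Fin r) K} {P : Place ℂ K}
    {C U : Matrix (Fin r) (Fin r) K} (hU : ∀ i j, Ge P 0 (U i j))
    (hCU : C = U * (E.B P * G⁻¹)) {ρ : ℕ} (f : Fin ρ → Fin r) {d : Place ℂ K →₀ ℤ}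
    (hd : IsQuot E (G⁻¹.submatrix id f) d) : Ge P (-d P) (C.submatrix f f).det := by
  have h1 : C.submatrix f f = U.submatrix f id * (E.B P * G⁻¹.submatrix id f) := by
    rw [hCU]
    ext i j
    rw [Matrix.submatrix_apply, Matrix.mul_apply, Matrix.mul_apply]
    refine Finset.sum_congr rfl fun l _ => ?_
    rw [Matrix.mul_apply, Matrix.mul_apply]
    rfl
  rw [h1, det_mul_expand]
  refine Ge.sum _ fun S _ => ?_
  have := (Ge.prod0 (P := P) Finset.univ fun i (_ : i ∈ Finset.univ) => hU (f i) (S i)).mul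
    ((hd P).1 S)
  rwa [zero_add] at this

/-- **Adapted frames.** -/
theorem exists_frame (E : Bundle K r) {G : Matrix (Fin r) (Fin r) K} (hG : G.det ≠ 0) {ρ1 ρ2 s : ℕ}
    {f1 : Fin ρ1 → Fin r} {f2 : Fin ρ2 → Fin r} {f3 : Fin s → Fin r} (hf1 : Function.Injective f1)
    (hf2 : Function.Injective f2) (hf3 : Function.Injective f3) (h13 : ∀ a l, f1 a ≠ f3 l)
    (h2 : Set.range f2 = Set.range f1 ∪ Set.range f3) {d1 d2 : Place ℂ K →₀ ℤ}
    (hd1 : IsQuot E (G⁻¹.submatrix id f1) d1) (hd2 : IsQuot E (G⁻¹.submatrix id f2) d2)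
    (P : Place ℂ K) :
    ∃ C U X : Matrix (Fin r) (Fin r) K, (∀ i j, Ge P 0 (U i j)) ∧ (∀ i j, Ge P 0 (X i j)) ∧
      U * X = 1 ∧ E.B P * G⁻¹ = X * C ∧ C.det ≠ 0 ∧ (∀ l a, C (f3 l) (f1 a) = 0) ∧
      (∀ i, (∀ a, f1 a ≠ i) → (∀ l, f3 l ≠ i) → (∀ a, C i (f1 a) = 0) ∧ ∀ l, C i (f3 l) = 0) ∧
      (C.submatrix f1 f1).det ≠ 0 ∧ P.ord (C.submatrix f1 f1).det = -d1 P ∧
      (C.submatrix f3 f3).det ≠ 0 ∧ P.ord (C.submatrix f3 f3).det = -(d2 - d1) P ∧
      C.submatrix f3 f3 * C⁻¹.submatrix f3 f3 = 1 := by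
  classical
  obtain ⟨lab, hlab⟩ : ∃ lab : Fin r → ℕ, ∀ j, lab j = (if j ∈ Set.range f1 then 2 * r else
    if j ∈ Set.range f3 then r else 0) + j := ⟨_, fun _ => rfl⟩
  have hl1 : ∀ j, j ∈ Set.range f1 → 2 * r ≤ lab j := by
    intro j hj
    rw [hlab, if_pos hj]
    omega
  have hl1' : ∀ j, 2 * r ≤ lab j → j ∈ Set.range f1 := by
    intro j hj
    by_contra h
    rw [hlab, if_neg h] at hj
    have := j.2
    split_ifs at hj <;> omega
  have hl3 : ∀ j, j ∈ Set.range f3 → r ≤ lab j ∧ lab j < 2 * r := by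
    intro j hj
    have h0 : j ∉ Set.range f1 := by
      rintro ⟨a, ha⟩
      obtain ⟨l, hl⟩ := hj
      exact h13 a l (by rw [ha, hl])
    rw [hlab, if_neg h0, if_pos hj]
    have := j.2
    omega
  have hl3' : ∀ j, r ≤ lab j → j ∈ Set.range f1 ∨ j ∈ Set.range f3 := by
    intro j hj
    by_contra h
    push Not at h
    rw [hlab, if_neg h.1, if_neg h.2] at hj
    have := j.2
    omega
  have hlabi : Function.Injective lab := by
    intro i j h
    have hi := i.2
    have hj := j.2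
    rw [hlab, hlab] at h
    apply Fin.ext
    split_ifs at h <;> omega
  have hBG : (E.B P * G⁻¹).det ≠ 0 := by
    rw [Matrix.det_mul, Matrix.det_nonsing_inv, Ring.inverse_eq_inv']
    exact mul_ne_zero (E.det_ne P) (inv_ne_zero hG)
  obtain ⟨C, U, X, hU, hX, hCU, hXC, hC⟩ := hermite P hBG hlabi
  have hdet : C.det ≠ 0 := by
    intro h0
    rw [hXC, Matrix.det_mul, h0, mul_zero] at hBG
    exact hBG rfl
  have hdetC : C.det = ∏ j, C j j := det_tri hlabi hC
  have hC0 : ∀ j, C j j ≠ 0 := by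
    rw [hdetC] at hdet
    exact fun j => Finset.prod_ne_zero_iff.1 hdet j (Finset.mem_univ j)
  have hUX : U * X = 1 := by
    have h1 : U * X * C = C := by
      conv_rhs => rw [hCU, hXC]
      rw [Matrix.mul_assoc]
    calc U * X = U * X * (C * C⁻¹) := by
          rw [Matrix.mul_nonsing_inv _ (isUnit_iff_ne_zero.2 hdet), Matrix.mul_one]
      _ = 1 := by
          rw [← Matrix.mul_assoc, h1, Matrix.mul_nonsing_inv _ (isUnit_iff_ne_zero.2 hdet)]
  have htri : ∀ {ρ : ℕ} (f : Fin ρ → Fin r), Function.Injective f →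
      (C.submatrix f f).det = ∏ i, C (f i) (f i) := by
    intro ρ f hf
    exact det_tri (lab := fun i => lab (f i)) (hlabi.comp hf) fun i j h => hC _ _ h
  have hne : ∀ {ρ : ℕ} (f : Fin ρ → Fin r), Function.Injective f →
      (C.submatrix f f).det ≠ 0 := by
    intro ρ f hf
    rw [htri f hf]
    exact Finset.prod_ne_zero_iff.2 fun i _ => hC0 _
  have hord : ∀ {ρ : ℕ} (f : Fin ρ → Fin r), Function.Injective f →
      P.ord (C.submatrix f f).det = ∑ i, P.ord (C (f i) (f i)) := by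
    intro ρ f hf
    rw [htri f hf, ord_prod _ fun i _ => hC0 _]
  have hup : ∀ {ρ : ℕ} (f : Fin ρ → Fin r), Function.Injective f →
      (∀ l i, lab (f i) ≤ lab l → ∃ i', f i' = l) → ∀ d : Place ℂ K →₀ ℤ,
      IsQuot E (G⁻¹.submatrix id f) d → P.ord (C.submatrix f f).det = -d P := by
    intro ρ f hf hf' d hd
    refine le_antisymm ?_ ((ge_iff (hne f hf)).1 (ge_minor hU hCU f hd))
    rw [hord f hf]
    exact minor_le hX hXC hlabi hC hC0 f hf hf' hd
  have h1 := hup f1 hf1 (fun l i h => hl1' l ((hl1 _ ⟨i, rfl⟩).trans h)) d1 hd1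
  have h2' := hup f2 hf2 (fun l i h => by
    have h3 : f2 i ∈ Set.range f1 ∪ Set.range f3 := h2 ▸ ⟨i, rfl⟩
    have h4 : r ≤ lab (f2 i) := by
      rcases h3 with h3 | h3
      · have := hl1 _ h3
        omega
      · exact (hl3 _ h3).1
    have h5 : l ∈ Set.range f2 := by
      rw [h2]
      exact hl3' l (h4.trans h)
    exact h5) d2 hd2
  have h3 : P.ord (C.submatrix f3 f3).det = -(d2 - d1) P := by
    have h4 : ∑ i, P.ord (C (f2 i) (f2 i)) = ∑ i, P.ord (C (f1 i) (f1 i)) +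
        ∑ i, P.ord (C (f3 i) (f3 i)) := by
      have h5 : ∀ {ρ : ℕ} (f : Fin ρ → Fin r) (hf : Function.Injective f),
          ∑ i, P.ord (C (f i) (f i)) = ∑ j ∈ Finset.univ.map ⟨f, hf⟩, P.ord (C j j) := by
        intro ρ f hf
        rw [Finset.sum_map]
        rfl
      rw [h5 f1 hf1, h5 f2 hf2, h5 f3 hf3, ← Finset.sum_union]
      · refine Finset.sum_congr ?_ fun _ _ => rfl
        apply Finset.coe_injective
        rw [Finset.coe_union, Finset.coe_map, Finset.coe_map, Finset.coe_map, Finset.coe_univ,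
          Finset.coe_univ, Finset.coe_univ, Set.image_univ, Set.image_univ, Set.image_univ]
        exact h2
      · rw [Finset.disjoint_left]
        intro j hj hj'
        obtain ⟨a, -, ha⟩ := Finset.mem_map.1 hj
        obtain ⟨l, -, hl⟩ := Finset.mem_map.1 hj'
        exact h13 a l (ha.trans hl.symm)
    rw [← hord f1 hf1, ← hord f2 hf2, ← hord f3 hf3] at h4
    rw [Finsupp.sub_apply]
    omega
  refine ⟨C, U, X, hU, hX, hUX, hXC, hdet, fun l a => ?_, fun i hi1 hi3 => ⟨fun a => ?_, fun l => ?_⟩,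
    hne f1 hf1, h1, hne f3 hf3, h3, ?_⟩
  · by_contra h
    have h4 := hC _ _ h
    have h5 := hl1 _ ⟨a, rfl⟩
    have h6 := hl3 _ ⟨l, rfl⟩
    omega
  · by_contra h
    have h4 := hC _ _ h
    have h5 := hl1 _ ⟨a, rfl⟩
    have h6 : i ∈ Set.range f1 := hl1' i (h5.trans h4)
    obtain ⟨a, ha⟩ := h6
    exact hi1 a ha
  · by_contra h
    have h4 := hC _ _ h
    have h5 := hl3 _ ⟨l, rfl⟩
    rcases hl3' i (h5.1.trans h4) with ⟨a, ha⟩ | ⟨l, hl⟩
    · exact hi1 a ha
    · exact hi3 l hl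
  · have hinv : ∀ i j, C⁻¹ i j ≠ 0 → lab j ≤ lab i := by
      intro i j hij
      by_contra hlt
      push Not at hlt
      apply hij
      let _ : Invertible C := Matrix.invertibleOfIsUnitDet C (isUnit_iff_ne_zero.2 hdet)
      have hb : C.BlockTriangular (fun j => OrderDual.toDual (lab j)) := by
        intro i j h
        by_contra hne
        exact absurd (hC _ _ hne) (not_le.2 (OrderDual.toDual_lt_toDual.1 h))
      exact Matrix.blockTriangular_inv_of_blockTriangular hb (OrderDual.toDual_lt_toDual.2 hlt)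
    ext i j
    have h4 : (C * C⁻¹) (f3 i) (f3 j) = (1 : Matrix (Fin s) (Fin s) K) i j := by
      rw [Matrix.mul_nonsing_inv _ (isUnit_iff_ne_zero.2 hdet), Matrix.one_apply, Matrix.one_apply]
      exact if_congr hf3.eq_iff rfl rfl
    rw [← h4, Matrix.mul_apply, Matrix.mul_apply]
    have h5 : ∑ l, C.submatrix f3 f3 i l * C⁻¹.submatrix f3 f3 l j =
        ∑ l ∈ Finset.univ.map ⟨f3, hf3⟩, C (f3 i) l * C⁻¹ l (f3 j) := by
      rw [Finset.sum_map]
      rfl
    rw [h5]
    refine Finset.sum_subset (Finset.subset_univ _) fun l _ hl => ?_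
    by_contra hne'
    have h6 := hC _ _ (left_ne_zero_of_mul hne')
    have h7 := hinv _ _ (right_ne_zero_of_mul hne')
    have h8 := hl3 _ ⟨i, rfl⟩
    have h9 := hl3 _ ⟨j, rfl⟩
    rcases hl3' l (h9.1.trans h7) with h | ⟨x, hx⟩
    · have := hl1 l h
      omega
    · exact hl (Finset.mem_map.2 ⟨x, Finset.mem_univ _, hx⟩)

end Pool.Agent.Helper9.GR
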