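import Pool.Agent.Helper9.GR.Wedge
import Pool.Agent.Helper9.FJ.Num

/-!
The numerical part.
-/

set_option autoImplicit false
set_option linter.unusedSectionVars false

namespace Pool.Agent.Helper9.GR

open FF Module Pool.Agent.Helper9.FJ

variable {K : Type} [Field K] [Algebra ℂ K] [IsFF ℂ K] {r : ℕ}

/-- The line bundle `O(a) ⊗ π^* O(b)` on `Gr(k, E)` is positive on all chains of quotients. -/
def PosG (k : ℕ) (E : Bundle K r) (a : ℕ) (b : Place ℂ K →₀ ℤ) : Prop :=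
  0 < a ∧ ∀ (G : Matrix (Fin r) (Fin r) K), G.det ≠ 0 → ∀ (ρ1 ρ2 : ℕ) (f1 : Fin ρ1 → Fin r)
    (f2 : Fin ρ2 → Fin r) (d1 d2 : Place ℂ K →₀ ℤ), Function.Injective f1 → Function.Injective f2 →
    Set.range f1 ⊆ Set.range f2 → ρ1 ≤ k → k ≤ ρ2 → ρ1 < ρ2 →
    IsQuot E (G⁻¹.submatrix id f1) d1 → IsQuot E (G⁻¹.submatrix id f2) d2 →
    0 < a * (((ρ2 : ℤ) - k) * ddeg d1 + ((k : ℤ) - ρ1) * ddeg d2) + ((ρ2 : ℤ) - ρ1) * ddeg b

/-- the minimal chord -/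
theorem exists_chord {k : ℕ} (hk : 0 < k) (hkr : k < r) (E : Bundle K r) {a : ℕ}
    {b : Place ℂ K →₀ ℤ} (h : PosG k E a b) :
    ∃ (ν : ℝ) (s : ℕ) (y : ℤ), 0 < s ∧ s ≤ r ∧ ν * s = y ∧ Chord k E ν ∧
      ∀ (a : ℕ) (b : Place ℂ K →₀ ℤ), PosG k E a b → 0 < a * y + s * ddeg b := by
  have hr : 0 < r := by omega
  have hdvd : ∀ {ρ1 ρ2 : ℕ}, ρ1 < ρ2 → ρ2 ≤ r → ((ρ2 : ℤ) - ρ1) ∣ (r.factorial : ℤ) := by
    intro ρ1 ρ2 h1 h2
    have h3 : (((ρ2 - ρ1 : ℕ) : ℤ)) ∣ (r.factorial : ℤ) := by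
      exact_mod_cast Nat.dvd_factorial (by omega) (by omega)
    rwa [Nat.cast_sub h1.le] at h3
  obtain ⟨z, ⟨G, ρ1, ρ2, f1, f2, d1, d2, hG, hf1, hf2, hf, hρ1, hρ2, hρ, hd1, hd2, hz⟩, hmin⟩ :=
    Int.exists_least_of_bdd
    (P := fun z => ∃ (G : Matrix (Fin r) (Fin r) K) (ρ1 ρ2 : ℕ) (f1 : Fin ρ1 → Fin r)
      (f2 : Fin ρ2 → Fin r) (d1 d2 : Place ℂ K →₀ ℤ), G.det ≠ 0 ∧ Function.Injective f1 ∧
      Function.Injective f2 ∧ Set.range f1 ⊆ Set.range f2 ∧ ρ1 ≤ k ∧ k ≤ ρ2 ∧ ρ1 < ρ2 ∧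
      IsQuot E (G⁻¹.submatrix id f1) d1 ∧ IsQuot E (G⁻¹.submatrix id f2) d2 ∧
      z * ((ρ2 : ℤ) - ρ1) = r.factorial * (((ρ2 : ℤ) - k) * ddeg d1 + ((k : ℤ) - ρ1) * ddeg d2)) (by
      refine ⟨-(r.factorial * |ddeg b|), ?_⟩
      rintro z ⟨G, ρ1, ρ2, f1, f2, d1, d2, hG, hf1, hf2, hf, hρ1, hρ2, hρ, hd1, hd2, hz⟩
      have h1 := h.2 G hG ρ1 ρ2 f1 f2 d1 d2 hf1 hf2 hf hρ1 hρ2 hρ hd1 hd2
      have hρ' : (0 : ℤ) < (ρ2 : ℤ) - ρ1 := by omega
      have ha' : (1 : ℤ) ≤ a := by exact_mod_cast h.1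
      have hf : (0 : ℤ) < r.factorial := by exact_mod_cast r.factorial_pos
      by_contra hcon
      push Not at hcon
      have h2 := mul_pos hf h1
      have h3 : (r.factorial : ℤ) * (a * (((ρ2 : ℤ) - k) * ddeg d1 + ((k : ℤ) - ρ1) * ddeg d2) +
          ((ρ2 : ℤ) - ρ1) * ddeg b) = ((ρ2 : ℤ) - ρ1) * (a * z + r.factorial * ddeg b) := by
        rw [mul_add, mul_left_comm, ← hz]
        ring
      rw [h3] at h2
      have h4 : 0 < a * z + r.factorial * ddeg b := by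
        by_contra h5
        push Not at h5
        have := mul_nonpos_of_nonneg_of_nonpos hρ'.le h5
        omega
      have h5 : ddeg b ≤ |ddeg b| := le_abs_self _
      have h6 : (0 : ℤ) ≤ |ddeg b| := abs_nonneg _
      have h7 : (r.factorial : ℤ) * ddeg b ≤ r.factorial * |ddeg b| :=
        mul_le_mul_of_nonneg_left h5 hf.le
      have h8 : z < 0 := by
        have : (0 : ℤ) ≤ r.factorial * |ddeg b| := mul_nonneg hf.le h6
        omega
      have h9 : (a : ℤ) * z ≤ 1 * z := by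
        rw [mul_comm (a : ℤ), mul_comm (1 : ℤ)]
        exact mul_le_mul_of_nonpos_left ha' h8.le
      omega) (by
      obtain ⟨q, hq⟩ := hdvd hr le_rfl (ρ1 := 0)
      refine ⟨q * (((r : ℤ) - k) * ddeg (0 : Place ℂ K →₀ ℤ) + ((k : ℤ) - (0 : ℕ)) * ddeg E.detDiv),
        1, 0, r, Fin.elim0, id, 0, E.detDiv, by rw [Matrix.det_one]; exact one_ne_zero,
        fun i => i.elim0, Function.injective_id, by rw [Set.range_id]; exact Set.subset_univ _,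
        Nat.zero_le _, hkr.le, hr, quot_empty E _, quot_one' E, ?_⟩
      rw [hq]
      ring)
  have hF : (0 : ℝ) < r.factorial := by exact_mod_cast r.factorial_pos
  have hρ2r := rank_le hd2
  refine ⟨z / r.factorial, ρ2 - ρ1, ((ρ2 : ℤ) - k) * ddeg d1 + ((k : ℤ) - ρ1) * ddeg d2,
    by omega, by omega, ?_, ?_, ?_⟩
  · rw [div_mul_eq_mul_div, div_eq_iff hF.ne', Nat.cast_sub hρ.le]
    have h1 : (z : ℝ) * (ρ2 - ρ1) = r.factorial *
        ((((ρ2 : ℤ) - k) * ddeg d1 + ((k : ℤ) - ρ1) * ddeg d2 : ℤ) : ℝ) := by exact_mod_cast hz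
    rw [h1]
    ring
  · intro G' hG' ρ1' ρ2' f1' f2' d1' d2' hf1' hf2' hf' hρ1' hρ2' hρ' hd1' hd2'
    obtain ⟨q, hq⟩ := hdvd hρ' (rank_le hd2')
    have h1 := hmin (q * (((ρ2' : ℤ) - k) * ddeg d1' + ((k : ℤ) - ρ1') * ddeg d2'))
      ⟨G', ρ1', ρ2', f1', f2', d1', d2', hG', hf1', hf2', hf', hρ1', hρ2', hρ', hd1', hd2',
        by rw [hq]; ring⟩
    have hpos : (0 : ℤ) < (ρ2' : ℤ) - ρ1' := by omega
    have h3 : z * ((ρ2' : ℤ) - ρ1') ≤ r.factorial *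
        (((ρ2' : ℤ) - k) * ddeg d1' + ((k : ℤ) - ρ1') * ddeg d2') := by
      calc z * ((ρ2' : ℤ) - ρ1') ≤ q * (((ρ2' : ℤ) - k) * ddeg d1' + ((k : ℤ) - ρ1') * ddeg d2') *
            ((ρ2' : ℤ) - ρ1') := mul_le_mul_of_nonneg_right h1 hpos.le
        _ = _ := by rw [hq]; ring
    rw [div_mul_eq_mul_div, div_le_iff₀ hF, mul_comm _ (r.factorial : ℝ)]
    exact_mod_cast h3
  · intro a' b' h'
    have h1 := h'.2 G hG ρ1 ρ2 f1 f2 d1 d2 hf1 hf2 hf hρ1 hρ2 hρ hd1 hd2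
    rw [Nat.cast_sub hρ.le]
    exact h1

/-- the numerical inequalities -/
theorem numericG {k : ℕ} (hk : 0 < k) (hkr : k < r) (E : Bundle K r) {m : ℕ} (hm : r + 2 ≤ m)
    (a : Fin m → ℕ) (b : Fin m → (Place ℂ K →₀ ℤ)) (hA : ∀ i, PosG k E (a i) (b i)) (c : ℕ)
    (hc : c + r = ∑ i, a i) :
    0 < c ∧ ∃ ν : ℝ, Chord k E ν ∧ 1 < ν * c + (ddeg (k • E.detDiv + ∑ i, b i) : ℝ) ∧
      ∀ x : ℤ, ν ≤ x → 2 < c * x + ddeg (k • E.detDiv + ∑ i, b i) := by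
  have hm0 : 0 < m := by omega
  obtain ⟨ν, s, y, hs, hsr, hy, hν, hpos⟩ := exists_chord hk hkr E (hA ⟨0, hm0⟩)
  have hc0 : 0 < c := by
    have h1 : ∑ i : Fin m, 1 ≤ ∑ i, a i := Finset.sum_le_sum fun i _ => (hA i).1
    rw [Finset.sum_const, Finset.card_univ, Fintype.card_fin, smul_eq_mul, mul_one] at h1
    omega
  have hsR : (s : ℝ) ≤ r := by exact_mod_cast hsr
  have hs0 : (0 : ℝ) < s := by exact_mod_cast hs
  have hr0 : (0 : ℝ) < r := by exact_mod_cast (by omega : 0 < r)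
  have hcr : (c : ℝ) + r = ∑ i, (a i : ℝ) := by exact_mod_cast hc
  have hdet : ν * r ≤ k * ddeg E.detDiv := by
    have h3 := hν 1 (by rw [Matrix.det_one]; exact one_ne_zero) 0 r Fin.elim0 id 0 E.detDiv
      (fun i => i.elim0) Function.injective_id (by rw [Set.range_id]; exact Set.subset_univ _)
      (Nat.zero_le _) hkr.le (by omega) (quot_empty E _) (quot_one' E)
    rw [ddeg_zero] at h3
    push_cast at h3
    rwa [mul_zero, zero_add, sub_zero, sub_zero] at h3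
  have hB : (ddeg (k • E.detDiv + ∑ i, b i) : ℝ) = k * ddeg E.detDiv + ∑ i, (ddeg (b i) : ℝ) := by
    rw [ddeg_add, ddeg_sum, ddeg_nsmul]
    push_cast
    rfl
  have hmr : (r : ℝ) + 2 ≤ m := by exact_mod_cast hm
  have hpos' : ∀ i, 0 < (a i : ℝ) * ν + ddeg (b i) ∧ 1 / r ≤ a i * ν + ddeg (b i) := by
    intro i
    have h1 := hpos (a i) (b i) (hA i)
    have h2 : (1 : ℝ) ≤ a i * y + s * ddeg (b i) := by exact_mod_cast h1
    rw [← hy] at h2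
    have h3 : (1 : ℝ) ≤ s * (a i * ν + ddeg (b i)) := by linarith
    have h4 : 0 < (a i : ℝ) * ν + ddeg (b i) := by
      by_contra hcon
      push Not at hcon
      have := mul_nonpos_of_nonneg_of_nonpos hs0.le hcon
      linarith
    refine ⟨h4, ?_⟩
    rw [div_le_iff₀ hr0]
    have h5 := mul_le_mul_of_nonneg_right hsR h4.le
    linarith
  refine ⟨hc0, ν, hν, ?_, fun x hx => ?_⟩
  · have h1 : ∑ i : Fin m, (1 / r : ℝ) ≤ ∑ i, (a i * ν + ddeg (b i)) :=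
      Finset.sum_le_sum fun i _ => (hpos' i).2
    rw [Finset.sum_const, Finset.card_univ, Fintype.card_fin, nsmul_eq_mul,
      Finset.sum_add_distrib, ← Finset.sum_mul, ← hcr] at h1
    have h2 : 1 < (m : ℝ) * (1 / r) := by
      rw [mul_one_div, lt_div_iff₀ hr0]
      linarith
    rw [hB]
    linarith
  · obtain ⟨M, hM⟩ : ∃ M : ℝ, M = max 1 (1 / r + (x - ν)) := ⟨_, rfl⟩
    have h1 : ∀ i, M ≤ a i * x + ddeg (b i) := by
      intro i
      have h3 : (1 : ℝ) ≤ a i := by exact_mod_cast (hA i).1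
      have h4 : 1 * ((x : ℝ) - ν) ≤ a i * (x - ν) :=
        mul_le_mul_of_nonneg_right h3 (by linarith)
      rw [hM]
      refine max_le ?_ ?_
      · have h2 : (0 : ℝ) < a i * x + ddeg (b i) := by
          have := (hpos' i).1
          linarith
        have h5 : 0 < (a i : ℤ) * x + ddeg (b i) := by exact_mod_cast h2
        have h6 : 1 ≤ (a i : ℤ) * x + ddeg (b i) := h5
        exact_mod_cast h6
      · have h2 := (hpos' i).2
        linarith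
    have h2 : ∑ i : Fin m, M ≤ ∑ i, (a i * (x : ℝ) + ddeg (b i)) :=
      Finset.sum_le_sum fun i _ => h1 i
    rw [Finset.sum_const, Finset.card_univ, Fintype.card_fin, nsmul_eq_mul,
      Finset.sum_add_distrib, ← Finset.sum_mul, ← hcr] at h2
    have hM1 : 1 ≤ M := hM ▸ le_max_left _ _
    have hM2 : 1 / r + (x - ν) ≤ M := hM ▸ le_max_right _ _
    have h3 : ((r : ℝ) + 2) * M ≤ m * M := mul_le_mul_of_nonneg_right hmr (by linarith)
    have h4 : (r : ℝ) * (1 / r + (x - ν)) ≤ r * M := mul_le_mul_of_nonneg_left hM2 hr0.le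
    have h5 : (r : ℝ) * (1 / r) = 1 := by field_simp
    have h6 : (2 : ℝ) < c * x + ddeg (k • E.detDiv + ∑ i, b i) := by
      rw [hB]
      nlinarith
    exact_mod_cast h6

end Pool.Agent.Helper9.GR
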