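import Pool.Agent.Helper9.GR.Rest
import Pool.Agent.Helper9.GR.Frame
import Pool.Agent.Helper9.GR.Num
import Pool.Agent.Helper9.GR.Plu
import Pool.Agent.Helper90.FJ.Ample

/-!
Ample line bundles on Grassmann bundles are positive on chains of quotients.
-/

set_option autoImplicit false
set_option linter.unusedSectionVars false

namespace Pool.Agent.Helper9.GR

open FF Module MvPolynomial Pool.Agent.Helper9.FJ Pool.Agent.Helper90.FJ

section coeff

variable {K : Type} [Field K] [Algebra ℂ K] {P : Place ℂ K} {ι : Type}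

/-- all coefficients have order at least `c` -/
def CG (P : Place ℂ K) (c : ℤ) (f : MvPolynomial ι K) : Prop := ∀ α, Ge P c (coeff α f)

theorem CG.add {c : ℤ} {f g : MvPolynomial ι K} (hf : CG P c f) (hg : CG P c g) :
    CG P c (f + g) := fun α => by
  rw [coeff_add]
  exact (hf α).add (hg α)

theorem CG.sum {κ : Type*} {c : ℤ} (S : Finset κ) {f : κ → MvPolynomial ι K}
    (h : ∀ i ∈ S, CG P c (f i)) : CG P c (∑ i ∈ S, f i) := fun α => by
  rw [coeff_sum]
  exact Ge.sum _ fun i hi => h i hi α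

theorem CG.mul {c c' : ℤ} {f g : MvPolynomial ι K} (hf : CG P c f) (hg : CG P c' g) :
    CG P (c + c') (f * g) := fun α => by
  classical
  rw [coeff_mul]
  exact Ge.sum _ fun x _ => (hf x.1).mul (hg x.2)

theorem cg_C {c : ℤ} {a : K} (h : Ge P c a) : CG P c (C a : MvPolynomial ι K) := fun α => by
  classical
  rw [coeff_C]
  split_ifs
  · exact h
  · exact Pool.Agent.Helper9.FJ.ge_zero

theorem cg_X (j : ι) : CG P 0 (X j : MvPolynomial ι K) := fun α => by
  classical
  rw [coeff_X]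
  split_ifs
  · exact Pool.Agent.Helper9.FJ.ge_one
  · exact Pool.Agent.Helper9.FJ.ge_zero

theorem cg_one : CG P 0 (1 : MvPolynomial ι K) := by
  rw [← C_1]
  exact cg_C Pool.Agent.Helper9.FJ.ge_one

theorem CG.prod {κ : Type*} (S : Finset κ) {f : κ → MvPolynomial ι K} {n : κ → ℤ}
    (h : ∀ i ∈ S, CG P (n i) (f i)) : CG P (∑ i ∈ S, n i) (∏ i ∈ S, f i) := by
  classical
  induction S using Finset.induction_on with
  | empty => rw [Finset.prod_empty, Finset.sum_empty]; exact cg_one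
  | insert a S ha ih =>
    rw [Finset.prod_insert ha, Finset.sum_insert ha]
    exact (h a (Finset.mem_insert_self _ _)).mul
      (ih fun i hi => h i (Finset.mem_insert_of_mem hi))

theorem CG.prod0 {κ : Type*} (S : Finset κ) {f : κ → MvPolynomial ι K}
    (h : ∀ i ∈ S, CG P 0 (f i)) : CG P 0 (∏ i ∈ S, f i) := by
  have := CG.prod S (n := fun _ => 0) h
  rwa [Finset.sum_const_zero] at this

theorem CG.pow0 {f : MvPolynomial ι K} (h : CG P 0 f) (n : ℕ) : CG P 0 (f ^ n) := by
  have := CG.prod0 (Finset.range n) (f := fun _ => f) fun _ _ => h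
  rwa [Finset.prod_const, Finset.card_range] at this

theorem CG.det0 {n : Type*} [Fintype n] [DecidableEq n] {M : Matrix n n (MvPolynomial ι K)}
    (h : ∀ i j, CG P 0 (M i j)) : CG P 0 M.det := by
  rw [Matrix.det_apply']
  refine CG.sum _ fun σ _ => ?_
  have h1 : CG P 0 (((Equiv.Perm.sign σ : ℤ) : MvPolynomial ι K)) := by
    have := cg_C (ι := ι) (ge_int (P := P) ((Equiv.Perm.sign σ : ℤˣ) : ℤ))
    rwa [map_intCast] at this
  have := h1.mul (CG.prod0 Finset.univ fun i (_ : i ∈ Finset.univ) => h (σ i) i)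
  rwa [add_zero] at this

theorem CG.aeval {n : ℕ} {c : ℤ} {f : MvPolynomial (Fin n) K} (hf : CGe P c f)
    {w : Fin n → MvPolynomial ι K} (hw : ∀ i, CG P 0 (w i)) : CG P c (aeval w f) := by
  rw [aeval_def, eval₂_eq']
  refine CG.sum _ fun α _ => ?_
  have h1 := (cg_C (ι := ι) (hf α)).mul (CG.prod0 Finset.univ (f := fun i => w i ^ α i)
    fun i _ => (hw i).pow0 _)
  rwa [add_zero] at h1

end coeff

section Phi

variable {K : Type} [Field K] {r ρ s q : ℕ}

/-- the restriction to the sub-Grassmann bundle -/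
noncomputable def Phi (G : Matrix (Fin r) (Fin r) K) (f1 : Fin ρ → Fin r) (f3 : Fin s → Fin r)
    (q : ℕ) : MvPolynomial (Fin (Rk (ρ + q) r)) K →ₐ[K] MvPolynomial (Fin s × Fin q) K :=
  aeval (plu (mC s q G⁻¹ * Th f1 f3 (gen K s q)))

variable {G : Matrix (Fin r) (Fin r) K} {f1 : Fin ρ → Fin r} {f3 : Fin s → Fin r}

theorem Phi_mem [CharZero K] {c : ℕ} {f : MvPolynomial (Fin (Rk (ρ + q) r)) K}
    (hf : f.IsHomogeneous c) : Phi G f1 f3 q f ∈ W K s q c := by
  refine aeval_mem_W hf fun i => ?_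
  rw [plu, ← Matrix.det_submatrix_equiv_self finSumFinEquiv]
  refine det_mem_W _ (fun i' a => G⁻¹ (sub _ r i (finSumFinEquiv i')) (f1 a))
    (fun i' l => G⁻¹ (sub _ r i (finSumFinEquiv i')) (f3 l)) (fun i' a => ?_) fun i' c => ?_
  · rw [Matrix.submatrix_apply, Matrix.submatrix_apply, finSumFinEquiv_apply_left, id, mul_Th_left]
    rfl
  · rw [Matrix.submatrix_apply, Matrix.submatrix_apply, finSumFinEquiv_apply_right, id,
      mul_Th_right]
    rfl

theorem mC_mul {m n l : ℕ} (A : Matrix (Fin m) (Fin n) K) (B : Matrix (Fin n) (Fin l) K) :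
    mC s q (A * B) = mC s q A * mC s q B := Matrix.map_mul

theorem mC_one {m : ℕ} : mC s q (1 : Matrix (Fin m) (Fin m) K) = 1 :=
  Matrix.map_one _ C_0 C_1

theorem gen_sb (g : Matrix (Fin s) (Fin s) K) :
    (gen K s q).map (sb g) = mC s q g * gen K s q := by
  ext l c : 1
  rw [Matrix.map_apply, ← sb_gen]
  rfl

theorem mC_sb (g : Matrix (Fin s) (Fin s) K) {m n : ℕ} (A : Matrix (Fin m) (Fin n) K) :
    (mC s q A).map (sb g) = mC s q A := by
  ext l c : 1
  exact (sb g).commutes _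

theorem sb_sb (g g' : Matrix (Fin s) (Fin s) K) (f : MvPolynomial (Fin s × Fin q) K) :
    sb g' (sb g f) = sb (g * g') f := by
  have h1 : (sb g').comp (sb g) = sb (q := q) (g * g') := by
    apply MvPolynomial.algHom_ext
    rintro ⟨l, c⟩
    rw [AlgHom.comp_apply, sb_gen, sb_gen]
    have h2 : sb g' ((mC s q g * gen K s q) l c) = ((mC s q g * gen K s q).map (sb g')) l c := rfl
    have h3 : (mC s q g * gen K s q).map (sb g') =
        (mC s q g).map (sb g') * (gen K s q).map (sb g') :=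
      Matrix.map_mul (f := (sb g').toRingHom)
    rw [h2, h3, mC_sb, gen_sb, ← Matrix.mul_assoc, mC_mul]
  exact AlgHom.congr_fun h1 f

end Phi

section loc

variable {K : Type} [Field K] [Algebra ℂ K] {r ρ s q : ℕ}

theorem aeval_loc {n : ℕ} (F : Bundle K n) (P : Place ℂ K) {w : Fin n → MvPolynomial (Fin s × Fin q) K}
    (f : MvPolynomial (Fin n) K) :
    aeval (Matrix.mulVec (mC s q (F.B P)⁻¹) w) f = aeval w (loc F P f) := by
  have h1 : (aeval w : MvPolynomial (Fin n) K →ₐ[K] _).comp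
      (aeval (fun j => ∑ i, C ((F.B P)⁻¹ j i) * X i)) =
      aeval (Matrix.mulVec (mC s q (F.B P)⁻¹) w) := by
    apply MvPolynomial.algHom_ext
    intro j
    rw [AlgHom.comp_apply, aeval_X, aeval_X, map_sum, Matrix.mulVec, dotProduct]
    refine Finset.sum_congr rfl fun i _ => ?_
    rw [map_mul, aeval_X, aeval_C]
    rfl
  rw [← h1]
  rfl

/-- **The restriction in local frames.** -/
theorem Phi_loc (E : Bundle K r) {G : Matrix (Fin r) (Fin r) K} {f1 : Fin ρ → Fin r}
    {f3 : Fin s → Fin r} (hf1 : Function.Injective f1) (hf3 : Function.Injective f3)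
    (h13 : ∀ a l, f1 a ≠ f3 l) {P : Place ℂ K} {A Y : Matrix (Fin r) (Fin r) K}
    (hXC : E.B P * G⁻¹ = Y * A) (hA1 : ∀ l a, A (f3 l) (f1 a) = 0)
    (hA2 : ∀ i, (∀ a, f1 a ≠ i) → (∀ l, f3 l ≠ i) → (∀ a, A i (f1 a) = 0) ∧ ∀ l, A i (f3 l) = 0)
    {D : Matrix (Fin s) (Fin s) K} (hD : A.submatrix f3 f3 * D = 1) {c : ℕ}
    {f : MvPolynomial (Fin (Rk (ρ + q) r)) K} (hf : f.IsHomogeneous c) :
    sb D (Phi G f1 f3 q f) = C ((A.submatrix f1 f1).det) ^ c *
      aeval (plu (mC s q Y * Th f1 f3 (gen K s q))) (loc (wedge (ρ + q) E) P f) := by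
  have h1 : sb D (Phi G f1 f3 q f) =
      aeval (fun i => sb D (plu (mC s q G⁻¹ * Th f1 f3 (gen K s q)) i)) f := by
    have h2 : (sb D).comp (Phi G f1 f3 q) =
        aeval (fun i => sb D (plu (mC s q G⁻¹ * Th f1 f3 (gen K s q)) i)) := by
      apply MvPolynomial.algHom_ext
      intro i
      rw [AlgHom.comp_apply, Phi, aeval_X, aeval_X]
    exact AlgHom.congr_fun h2 f
  have h2 : (fun i => sb D (plu (mC s q G⁻¹ * Th f1 f3 (gen K s q)) i)) =
      plu ((mC s q G⁻¹ * Th f1 f3 (gen K s q)).map (sb D)) :=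
    (plu_map (sb D).toRingHom _).symm
  have h3 : (mC s q G⁻¹ * Th f1 f3 (gen K s q)).map (sb D) =
      mC s q G⁻¹ * Th f1 f3 (mC s q D * gen K s q) := by
    have h4 : (mC s q G⁻¹ * Th f1 f3 (gen K s q)).map (sb D) =
        (mC s q G⁻¹).map (sb D) * (Th f1 f3 (gen K s q)).map (sb D) :=
      Matrix.map_mul (f := (sb D).toRingHom)
    have h5 : (Th f1 f3 (gen K s q)).map (sb D) = Th f1 f3 ((gen K s q).map (sb D)) :=
      Th_map (sb D).toRingHom _
    rw [h4, mC_sb, h5, gen_sb]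
  have h4 : G⁻¹ = (E.B P)⁻¹ * (Y * A) := by
    rw [← hXC, ← Matrix.mul_assoc, Matrix.nonsing_inv_mul _ (isUnit_iff_ne_zero.2 (E.det_ne P)),
      Matrix.one_mul]
  have h5 : mC s q A * Th f1 f3 (mC s q D * gen K s q) =
      Th f1 f3 (gen K s q) * hh f1 f3 (mC s q A) (mC s q D * gen K s q) := by
    rw [Th_eq hf1 hf3 h13 (fun l a => by
      change C (A (f3 l) (f1 a)) = _
      rw [hA1, C_0]) (fun i hi1 hi3 => ⟨fun a => by
      change C (A i (f1 a)) = _
      rw [(hA2 i hi1 hi3).1, C_0], fun l => by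
      change C (A i (f3 l)) = _
      rw [(hA2 i hi1 hi3).2, C_0]⟩)]
    have h6 : (mC s q A).submatrix f3 f3 * (mC s q D * gen K s q) = gen K s q := by
      have h7 : (mC s q A).submatrix f3 f3 = mC s q (A.submatrix f3 f3) := rfl
      rw [h7, ← Matrix.mul_assoc, ← mC_mul, hD, mC_one, Matrix.one_mul]
    rw [h6]
  have h6 : mC s q G⁻¹ * Th f1 f3 (mC s q D * gen K s q) =
      (mC s q (E.B P)⁻¹ * (mC s q Y * Th f1 f3 (gen K s q))) *
        hh f1 f3 (mC s q A) (mC s q D * gen K s q) := by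
    rw [h4, mC_mul, mC_mul, Matrix.mul_assoc, Matrix.mul_assoc (mC s q Y), h5]
    simp only [Matrix.mul_assoc]
  have h7 : ((mC s q A).submatrix f1 f1).det = C ((A.submatrix f1 f1).det) := by
    rw [RingHom.map_det]
    rfl
  have h8 : cpd (ρ + q) (mC s q (E.B P)⁻¹) = mC s q ((wedge (ρ + q) E).B P)⁻¹ := by
    have h9 : ((wedge (ρ + q) E).B P)⁻¹ = cpd (ρ + q) (E.B P)⁻¹ := cpd_inv _ (E.det_ne P)
    rw [h9]
    exact cpd_map C _ _
  rw [h1, h2, h3, h6, plu_mul_right, det_hh, h7, plu_mul, h8]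
  have h10 := aeval_scale hf (C ((A.submatrix f1 f1).det) : MvPolynomial (Fin s × Fin q) K)
    (Matrix.mulVec (mC s q ((wedge (ρ + q) E).B P)⁻¹) (plu (mC s q Y * Th f1 f3 (gen K s q))))
  rw [aeval_loc] at h10
  exact h10

theorem gen_eval (ζ : Fin s × Fin q → K) :
    (gen K s q).map (eval ζ) = Matrix.of fun l c => ζ (l, c) := by
  ext l c : 1
  rw [Matrix.map_apply, gen, Matrix.of_apply, eval_X]
  rfl

/-- values -/
theorem eval_loc' (E : Bundle K r) {f1 : Fin ρ → Fin r} {f3 : Fin s → Fin r} (P : Place ℂ K)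
    (Y : Matrix (Fin r) (Fin r) K) (f : MvPolynomial (Fin (Rk (ρ + q) r)) K)
    (ζ : Fin s × Fin q → K) :
    eval ζ (aeval (plu (mC s q Y * Th f1 f3 (gen K s q))) (loc (wedge (ρ + q) E) P f)) =
      eval (plp E P (Y * Th f1 f3 (Matrix.of fun l c => ζ (l, c)))) f := by
  have h1 : ∀ f' : MvPolynomial (Fin (Rk (ρ + q) r)) K,
      eval ζ (aeval (plu (mC s q Y * Th f1 f3 (gen K s q))) f') =
        eval (plu (Y * Th f1 f3 (Matrix.of fun l c => ζ (l, c)))) f' := by
    intro f'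
    have h2 : (eval ζ).comp (aeval (plu (mC s q Y * Th f1 f3 (gen K s q))) :
        MvPolynomial (Fin (Rk (ρ + q) r)) K →ₐ[K] _).toRingHom =
        eval (plu (Y * Th f1 f3 (Matrix.of fun l c => ζ (l, c)))) := by
      apply MvPolynomial.ringHom_ext
      · intro a
        change eval ζ (aeval _ (C a)) = _
        rw [aeval_C, eval_C]
        exact eval_C a
      · intro i
        change eval ζ (aeval _ (X i)) = _
        rw [aeval_X, eval_X]
        have h3 := congrFun (plu_map (eval ζ) (mC s q Y * Th f1 f3 (gen K s q))) i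
        beta_reduce at h3
        rw [← h3]
        have h4 : (mC s q Y * Th f1 f3 (gen K s q)).map (eval ζ) =
            (mC s q Y).map (eval ζ) * (Th f1 f3 (gen K s q)).map (eval ζ) := Matrix.map_mul
        have h5 : (mC s q Y).map (eval ζ) = Y := by
          ext i j : 1
          exact eval_C _
        rw [h4, h5, Th_map, gen_eval]
    exact RingHom.congr_fun h2 f'
  rw [h1, Pool.Agent.Helper9.FJ.eval_eq_loc (wedge (ρ + q) E) P (plp E P _) f, mulVec_plp]

end loc

end Pool.Agent.Helper9.GR
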