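import Pool.Agent.Helper9.GR.Red

/-!
Ample line bundles on Grassmann bundles are positive on chains of quotients.
-/

set_option autoImplicit false
set_option linter.unusedSectionVars false

namespace Pool.Agent.Helper9.GR

open FF Module MvPolynomial Pool.Agent.Helper9.FJ

variable {K : Type} [Field K] [Algebra ℂ K] [IsFF ℂ K] {r : ℕ}

/-- forms of degree zero do not separate points -/
theorem pos_degreeG {k : ℕ} (hk : 0 < k) (hkr : k < r) {E : Bundle K r} {a : ℕ}
    {N : Place ℂ K →₀ ℤ} (h : VeryAmpleG k E a N) : 0 < a := by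
  classical
  by_contra ha
  have ha0 : a = 0 := by omega
  subst ha0
  obtain ⟨P, -⟩ := exists_place (k := ℂ) (K := K)
  let f : Fin k → Fin r := fun i => ⟨i, by omega⟩
  let f' : Fin k → Fin r := fun i => ⟨i + 1, by omega⟩
  have hne : ∀ f : Fin k → Fin r, Function.Injective f →
      plu (Matrix.of fun (i : Fin r) (j : Fin k) => if i = f j then (1 : ℂ) else 0) ≠ 0 := by
    intro f hf h0
    have h1 : ((Matrix.of fun (i : Fin r) (j : Fin k) =>
        if i = f j then (1 : ℂ) else 0).submatrix f id).det = 1 := by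
      have h2 : (Matrix.of fun (i : Fin r) (j : Fin k) =>
          if i = f j then (1 : ℂ) else 0).submatrix f id = 1 := by
        ext i j
        rw [Matrix.submatrix_apply, Matrix.of_apply, Matrix.one_apply]
        exact if_congr hf.eq_iff rfl rfl
      rw [h2, Matrix.det_one]
    rcases minor_eq (R := ℂ) f with h3 | ⟨i, ε, h3⟩
    · rw [h3] at h1
      exact zero_ne_one h1
    · rw [h3, h0, Pi.zero_apply, mul_zero] at h1
      exact zero_ne_one h1
  obtain ⟨s, hs, h1, h2⟩ := h.2.1 P P _ _ (hne f fun i j hij => by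
      have := congrArg Fin.val hij
      exact Fin.ext this) (hne f' fun i j hij => by
      have h3 : (i : ℕ) + 1 = j + 1 := congrArg Fin.val hij
      exact Fin.ext (by omega)) (by
    rintro - ⟨g, hg⟩
    have h3 := congrFun (congrFun hg ⟨k, hkr⟩) ⟨k - 1, by omega⟩
    rw [Matrix.mul_apply, Matrix.of_apply, if_pos (Fin.ext (by
      change k = k - 1 + 1
      omega)), Finset.sum_eq_zero fun l _ => by
        rw [Matrix.of_apply, if_neg (by
          intro h4
          have h5 : k = (l : ℕ) := congrArg Fin.val h4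
          have := l.2
          omega), zero_mul]] at h3
    exact one_ne_zero h3)
  have h3 : s = C (coeff 0 s) := by
    rw [← totalDegree_eq_zero_iff_eq_C]
    exact (totalDegree_zero_iff_isHomogeneous (p := s)).2 hs.1
  apply h2
  rw [h3, eval_C]
  rw [h3, eval_C] at h1
  exact h1

/-- the base point -/
theorem base_eq {s q : ℕ} :
    (fun z : Fin s × Fin q => algebraMap ℂ K
      ((Matrix.of fun (l : Fin s) (c : Fin q) => if (l : ℕ) = c then (1 : ℂ) else 0) z.1 z.2)) =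
      base K s q := by
  funext z
  rw [Matrix.of_apply, base]
  split_ifs
  · exact map_one _
  · exact map_zero _

/-- **Ample line bundles are positive on all chains of quotients.** -/
theorem key (a1 : S_A1) {E : Bundle K r} {ρ1 s q c : ℕ} {N : Place ℂ K →₀ ℤ}
    (hV : VeryAmpleG (ρ1 + q) E c N) (hc : 0 < c) (hs : 0 < s) (hq : q ≤ s)
    {G : Matrix (Fin r) (Fin r) K} (hG : G.det ≠ 0) {f1 : Fin ρ1 → Fin r} {f3 : Fin s → Fin r}
    {ρ2 : ℕ} {f2 : Fin ρ2 → Fin r} (hf1 : Function.Injective f1) (hf2 : Function.Injective f2)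
    (hf3 : Function.Injective f3) (h13 : ∀ a l, f1 a ≠ f3 l)
    (h2 : Set.range f2 = Set.range f1 ∪ Set.range f3) {d1 d2 : Place ℂ K →₀ ℤ}
    (hd1 : IsQuot E (G⁻¹.submatrix id f1) d1) (hd2 : IsQuot E (G⁻¹.submatrix id f2) d2) :
    0 < c * q * (ddeg d2 - ddeg d1) + s * (ddeg N + c * ddeg d1) := by
  classical
  have : CharZero K := charZero_of_injective_algebraMap (algebraMap ℂ K).injective
  choose A U X hU hX hUX hXC hA hA1 hA2 hdet1 hord1 hdet3 hord3 hA3 using
    exists_frame E hG hf1 hf2 hf3 h13 h2 hd1 hd2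
  choose Ub hUb using fun P => exists_red P (hU P)
  choose Xb hXb using fun P => exists_red P (hX P)
  obtain ⟨P0, P1, hP01⟩ := Pool.Agent.Helper90.FJ.exists_two (K := K)
  obtain ⟨D, hD⟩ : ∃ D : Place ℂ K → Matrix (Fin s) (Fin s) K,
      ∀ P, D P = (A P)⁻¹.submatrix f3 f3 := ⟨_, fun _ => rfl⟩
  have hAD : ∀ P, (A P).submatrix f3 f3 * D P = 1 := fun P => by rw [hD]; exact hA3 P
  have hDA : ∀ P, D P * (A P).submatrix f3 f3 = 1 := fun P => mul_eq_one_comm.1 (hAD P)
  have hdetD : ∀ P, (D P).det ≠ 0 := by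
    intro P h
    have h1 := congrArg Matrix.det (hAD P)
    rw [Matrix.det_mul, h, mul_zero, Matrix.det_one] at h1
    exact zero_ne_one h1
  obtain ⟨g, hg⟩ : ∃ g : Place ℂ K → Matrix (Fin s) (Fin s) K,
      ∀ P, g P = (A P).submatrix f3 f3 * D P1 := ⟨_, fun _ => rfl⟩
  have hginv : ∀ P, (g P)⁻¹ = (A P1).submatrix f3 f3 * D P := by
    intro P
    apply Matrix.inv_eq_right_inv
    rw [hg, Matrix.mul_assoc, ← Matrix.mul_assoc (D P1), hDA, Matrix.one_mul, hAD]
  have hDg : ∀ P, D P1 * (g P)⁻¹ = D P := by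
    intro P
    rw [hginv, ← Matrix.mul_assoc, hDA, Matrix.one_mul]
  have hgdet : ∀ P, (g P).det ≠ 0 := by
    intro P
    rw [hg, Matrix.det_mul]
    exact mul_ne_zero (hdet3 P) (hdetD P1)
  -- the bound of the inverse matrices
  obtain ⟨e, he⟩ : ∃ e : Place ℂ K →₀ ℤ, ∀ P i j, Ge P (-e P) ((g P)⁻¹ i j) := by
    obtain ⟨L, hL⟩ : ∃ L : Matrix (Fin s) (Fin r) K,
        L = (A P1).submatrix f3 f3 * G.submatrix f3 id := ⟨_, rfl⟩
    have h1 : ∀ P, (g P)⁻¹ = L * (E.B P)⁻¹ * (X P).submatrix id f3 := by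
      intro P
      have h3 : (A P)⁻¹ = G * (E.B P)⁻¹ * X P := by
        apply Matrix.inv_eq_left_inv
        rw [Matrix.mul_assoc, ← hXC, Matrix.mul_assoc, ← Matrix.mul_assoc (E.B P)⁻¹,
          Matrix.nonsing_inv_mul _ (isUnit_iff_ne_zero.2 (E.det_ne P)), Matrix.one_mul,
          Matrix.mul_nonsing_inv _ (isUnit_iff_ne_zero.2 hG)]
      have h4 : (G * (E.B P)⁻¹ * X P).submatrix f3 f3 =
          G.submatrix f3 id * (E.B P)⁻¹ * (X P).submatrix id f3 := by
        ext i j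
        rw [Matrix.submatrix_apply, Matrix.mul_apply, Matrix.mul_apply]
        refine Finset.sum_congr rfl fun l _ => ?_
        rw [Matrix.mul_apply, Matrix.mul_apply]
        rfl
      rw [hginv, hD, h3, h4, hL]
      simp only [Matrix.mul_assoc]
    obtain ⟨e, he⟩ := Pool.Agent.Helper90.FJ.exists_div (B := Fin s × Fin r)
      (fun P x => (L * (E.B P)⁻¹) x.1 x.2)
      ⟨fun x => L x.1 x.2, E.fin.subset (by
        intro P hP hB
        apply hP
        rw [hB, inv_one, Matrix.mul_one])⟩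
    refine ⟨e, fun P i j => ?_⟩
    rw [h1, Matrix.mul_apply]
    refine Ge.sum _ fun l _ => ?_
    have := (he P (i, l)).mul (hX P l (f3 j))
    rw [add_zero] at this
    exact this
  -- the restriction in the local frames
  have hloc : ∀ P, ∀ f : MvPolynomial (Fin (Rk (ρ1 + q) r)) K, f.IsHomogeneous c →
      sb (g P)⁻¹ (sb (D P1) (Phi G f1 f3 q f)) = C (((A P).submatrix f1 f1).det) ^ c *
        aeval (plu (mC s q (X P) * Th f1 f3 (gen K s q))) (loc (wedge (ρ1 + q) E) P f) := by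
    intro P f hf
    rw [sb_sb, hDg]
    exact Phi_loc E hf1 hf3 h13 (hXC P) (hA1 P) (hA2 P) (hAD P) hf
  have hval : ∀ P, ∀ f : MvPolynomial (Fin (Rk (ρ1 + q) r)) K, f.IsHomogeneous c →
      ∀ ζ : Matrix (Fin s) (Fin q) ℂ,
      eval (fun z => algebraMap ℂ K (ζ z.1 z.2)) (sb (g P)⁻¹ (sb (D P1) (Phi G f1 f3 q f))) =
        ((A P).submatrix f1 f1).det ^ c *
          eval (plp E P (X P * Th f1 f3 (ζ.map (algebraMap ℂ K)))) f := by
    intro P f hf ζ
    rw [hloc P f hf, map_mul, map_pow, eval_C, eval_loc' E P (X P) f]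
    rfl
  have hordc : ∀ P, P.ord (((A P).submatrix f1 f1).det ^ c) = -(c * d1 P) := by
    intro P
    rw [P.ord_pow, hord1]
    ring
  obtain ⟨ζ0, hζ0⟩ : ∃ ζ0 : Matrix (Fin s) (Fin q) ℂ,
      ζ0 = Matrix.of fun (l : Fin s) (c : Fin q) => if (l : ℕ) = c then (1 : ℂ) else 0 := ⟨_, rfl⟩
  have hζ0' : ∃ σ : Fin q → Fin s, (ζ0.submatrix σ id).det ≠ 0 := by
    refine ⟨Fin.castLE hq, ?_⟩
    have h1 : ζ0.submatrix (Fin.castLE hq) id = 1 := by
      ext i j
      rw [Matrix.submatrix_apply, hζ0, Matrix.of_apply, Matrix.one_apply]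
      exact if_congr (by rw [Fin.val_castLE, Fin.ext_iff]; rfl) rfl rfl
    rw [h1, Matrix.det_one]
    exact one_ne_zero
  obtain ⟨σ0, hσ0⟩ := hζ0'
  obtain ⟨N', hN'⟩ : ∃ N' : Place ℂ K →₀ ℤ, N' = N + c • d1 := ⟨_, rfl⟩
  have hN'P : ∀ P, N' P = N P + c * d1 P := by
    intro P
    rw [hN', Finsupp.add_apply, Finsupp.smul_apply, nsmul_eq_mul]
  have hint : ∀ P, ∀ f, IsSec (wedge (ρ1 + q) E) c N f → ∀ α,
      Ge P (-N' P) (coeff α (sb (g P)⁻¹ (sb (D P1) (Phi G f1 f3 q f)))) := by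
    intro P f hf
    rw [hloc P f hf.1, ← C_pow]
    have h1 : CG P (-(c * d1 P)) (C ((((A P).submatrix f1 f1).det) ^ c) :
        MvPolynomial (Fin s × Fin q) K) := cg_C (Or.inr (hordc P).ge)
    have h3 : CG P (-N P) (aeval (plu (mC s q (X P) * Th f1 f3 (gen K s q)))
        (loc (wedge (ρ1 + q) E) P f)) := by
      refine CG.aeval (hf.2 P) fun i => CG.det0 fun i' b => ?_
      rw [Matrix.submatrix_apply, id]
      refine Fin.addCases (fun a => ?_) (fun c => ?_) b
      · rw [mul_Th_left]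
        exact cg_C (hX P _ _)
      · rw [mul_Th_right]
        refine CG.sum _ fun l _ => ?_
        have := (cg_C (ι := Fin s × Fin q) (hX P (sub (ρ1 + q) r i i') (f3 l))).mul
          (cg_X (P := P) (l, c))
        rw [add_zero] at this
        exact this
    have h4 := h1.mul h3
    have h5 : -(c * d1 P) + -N P = -N' P := by
      rw [hN'P]
      ring
    rw [h5] at h4
    exact h4
  obtain ⟨V, hVdef⟩ : ∃ V : Set (MvPolynomial (Fin s × Fin q) K), V = {v | ∃ f,
      IsSec (wedge (ρ1 + q) E) c N f ∧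
      Ge P0 (1 - N P0) (eval (plp E P0 (cm (Xb P0 * Th f1 f3 ζ0))) f) ∧
      v = sb (D P1) (Phi G f1 f3 q f)} := ⟨_, rfl⟩
  have main := a1 hs hq hc V (by
      intro v hv
      rw [hVdef] at hv
      obtain ⟨f, hf, -, rfl⟩ := hv
      exact sb_mem_W _ (Phi_mem hf.1)) g hgdet (d2 - d1 - divisor ℂ (D P1).det) N' e (by
      intro P
      rw [hg, Matrix.det_mul, P.ord_mul (hdet3 P) (hdetD P1), hord3, Finsupp.sub_apply _ (divisor _ _),
        divisor_apply]
      ring) he (by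
      intro P v hv
      rw [hVdef] at hv
      obtain ⟨f, hf, -, rfl⟩ := hv
      exact hint P f hf) P0 (by
      intro v hv
      rw [hVdef] at hv
      obtain ⟨f, hf, hf0, rfl⟩ := hv
      rw [← base_eq, ← hζ0, hval P0 f hf.1]
      have h1 := congr_pts (f1 := f1) (f3 := f3) (hX P0) (hXb P0) ζ0 E hf
      have h3 := h1.add hf0
      rw [sub_add_cancel] at h3
      have h4 : Ge P0 (-(c * d1 P0)) (((A P0).submatrix f1 f1).det ^ c) := Or.inr (hordc P0).ge
      have h5 := h4.mul h3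
      refine h5.mono ?_
      rw [hN'P]
      omega) P1 (by rw [hg]; exact hAD P1) (by
      rintro ζ ⟨σ, hσ⟩
      obtain ⟨f, hf, hf0, hf1'⟩ := hV.2.1 P0 P1 (Xb P0 * Th f1 f3 ζ0) (Xb P1 * Th f1 f3 ζ)
        (plu_ne hf1 hf3 h13 (red_inv (hU P0) (hUX P0) (hUb P0) (hXb P0)) hσ0)
        (plu_ne hf1 hf3 h13 (red_inv (hU P1) (hUX P1) (hUb P1) (hXb P1)) hσ)
        (fun h => absurd h hP01)
      refine ⟨sb (D P1) (Phi G f1 f3 q f), by rw [hVdef]; exact ⟨f, hf, hf0, rfl⟩, ?_⟩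
      intro hcon
      apply hf1'
      have h1 : sb (D P1) (Phi G f1 f3 q f) = sb (g P1)⁻¹ (sb (D P1) (Phi G f1 f3 q f)) := by
        rw [sb_sb, hDg]
      rw [h1, hval P1 f hf.1] at hcon
      have h3 : Ge P1 (1 - N P1) (eval (plp E P1 (X P1 * Th f1 f3 (ζ.map (algebraMap ℂ K)))) f) := by
        refine Ge.of_mul (pow_ne_zero c (hdet1 P1)) ?_
        refine hcon.mono ?_
        rw [hordc, hN'P]
        omega
      have h4 := h3.sub (congr_pts (f1 := f1) (f3 := f3) (hX P1) (hXb P1) ζ E hf)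
      rw [sub_sub_cancel] at h4
      exact h4)
  rw [ddeg_sub, ddeg_sub, ddeg_divisor, sub_zero, hN', ddeg_add, ddeg_nsmul] at main
  exact main

/-- **Ample line bundles are positive on all chains of quotients.** -/
theorem posG_of_ample (a1 : S_A1) {k : ℕ} (hk : 0 < k) (hkr : k < r) {E : Bundle K r} {a : ℕ}
    {b : Place ℂ K →₀ ℤ} (h : IsAmpleG k E a b) : PosG k E a b := by
  classical
  obtain ⟨M, hM, hV⟩ := h
  have hMa := pos_degreeG hk hkr hV
  refine ⟨Nat.pos_of_mul_pos_left hMa, ?_⟩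
  intro G hG ρ1 ρ2 f1 f2 d1 d2 hf1 hf2 hf hρ1 hρ2 hρ hd1 hd2
  obtain ⟨q, rfl⟩ := Nat.exists_eq_add_of_le hρ1
  obtain ⟨s, rfl⟩ := Nat.exists_eq_add_of_le hρ.le
  obtain ⟨S, hS⟩ : ∃ S : Finset (Fin r), S = Finset.univ.map ⟨f2, hf2⟩ \ Finset.univ.map ⟨f1, hf1⟩ :=
    ⟨_, rfl⟩
  have hsub : Finset.univ.map ⟨f1, hf1⟩ ⊆ Finset.univ.map ⟨f2, hf2⟩ := by
    intro x hx
    obtain ⟨y, -, rfl⟩ := Finset.mem_map.1 hx
    obtain ⟨z, hz⟩ := hf ⟨y, rfl⟩
    exact Finset.mem_map.2 ⟨z, Finset.mem_univ _, hz⟩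
  have hScard : S.card = s := by
    rw [hS, Finset.card_sdiff_of_subset hsub, Finset.card_map, Finset.card_map, Finset.card_univ,
      Finset.card_univ, Fintype.card_fin, Fintype.card_fin, add_tsub_cancel_left]
  have hmem : ∀ x, x ∈ S ↔ x ∈ Set.range f2 ∧ x ∉ Set.range f1 := by
    intro x
    rw [hS, Finset.mem_sdiff, Finset.mem_map, Finset.mem_map]
    constructor
    · rintro ⟨⟨y, -, hy⟩, h3⟩
      refine ⟨⟨y, hy⟩, ?_⟩
      rintro ⟨z, hz⟩
      exact h3 ⟨z, Finset.mem_univ _, hz⟩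
    · rintro ⟨⟨y, hy⟩, h3⟩
      refine ⟨⟨y, Finset.mem_univ _, hy⟩, ?_⟩
      rintro ⟨z, -, hz⟩
      exact h3 ⟨z, hz⟩
  have hrange : Set.range (S.orderEmbOfFin hScard) = (S : Set (Fin r)) :=
    Finset.range_orderEmbOfFin S hScard
  have h13 : ∀ a l, f1 a ≠ S.orderEmbOfFin hScard l := by
    intro a l h3
    have h4 := (hmem _).1 (Finset.orderEmbOfFin_mem S hScard l)
    exact h4.2 ⟨a, h3⟩
  have h2 : Set.range f2 = Set.range f1 ∪ Set.range (S.orderEmbOfFin hScard) := by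
    rw [hrange]
    ext x
    constructor
    · intro hx
      by_cases h3 : x ∈ Set.range f1
      · exact Or.inl h3
      · exact Or.inr ((hmem x).2 ⟨hx, h3⟩)
    · rintro (hx | hx)
      · exact hf hx
      · exact ((hmem x).1 hx).1
  have main := key a1 hV hMa (by omega) (by omega) hG hf1 hf2
    (S.orderEmbOfFin hScard).injective h13 h2 hd1 hd2
  rw [ddeg_nsmul] at main
  have hMz : (0 : ℤ) < M := by exact_mod_cast hM
  have h5 : ((M * a : ℕ) : ℤ) * q * (ddeg d2 - ddeg d1) +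
      s * (M * ddeg b + ((M * a : ℕ) : ℤ) * ddeg d1) =
      M * (a * ((((ρ1 + s : ℕ) : ℤ) - ((ρ1 + q : ℕ) : ℤ)) * ddeg d1 +
        (((ρ1 + q : ℕ) : ℤ) - ρ1) * ddeg d2) + (((ρ1 + s : ℕ) : ℤ) - ρ1) * ddeg b) := by
    push_cast
    ring
  rw [h5] at main
  exact (mul_pos_iff_of_pos_left hMz).1 main

end Pool.Agent.Helper9.GR
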