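import Pool.Agent.Helper9.GR.Slope
import Pool.Agent.Helper9.GR.Defs

/-!
Slopes of the quotient bundles of exterior powers.
-/

set_option autoImplicit false
set_option linter.unusedSectionVars false

namespace Pool.Agent.Helper9.GR

open FF Module Pool.Agent.Helper9.FJ

variable {K : Type} [Field K] [Algebra ℂ K] {r : ℕ}

/-- The convex polygon of the degrees of the quotients of `E` is at least `ν` at `k`: for all chains
of quotients `E → Q2 → Q1` with `rk Q1 ≤ k ≤ rk Q2` the chord between the points `(rk Q1, deg Q1)` and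
`(rk Q2, deg Q2)` has at `k` at least the height `ν`. -/
def Chord (k : ℕ) (E : Bundle K r) (ν : ℝ) : Prop :=
  ∀ (G : Matrix (Fin r) (Fin r) K), G.det ≠ 0 → ∀ (ρ1 ρ2 : ℕ) (f1 : Fin ρ1 → Fin r)
    (f2 : Fin ρ2 → Fin r) (d1 d2 : Place ℂ K →₀ ℤ), Function.Injective f1 → Function.Injective f2 →
    Set.range f1 ⊆ Set.range f2 → ρ1 ≤ k → k ≤ ρ2 → ρ1 < ρ2 →
    IsQuot E (G⁻¹.submatrix id f1) d1 → IsQuot E (G⁻¹.submatrix id f2) d2 →
    ν * (ρ2 - ρ1) ≤ (ρ2 - k) * ddeg d1 + (k - ρ1) * ddeg d2

theorem convex {ι : Type*} (S : Finset ι) (x y : ι → ℝ) (hx : ∑ i ∈ S, x i = 0)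
    (h0 : ∀ i ∈ S, x i = 0 → 0 ≤ y i)
    (h : ∀ i ∈ S, ∀ j ∈ S, x i < 0 → 0 < x j → 0 ≤ x j * y i - x i * y j) : 0 ≤ ∑ i ∈ S, y i := by
  classical
  have hsplit : ∀ f : ι → ℝ, ∑ i ∈ S, f i = ∑ i ∈ S.filter (fun i => x i = 0), f i +
      (∑ i ∈ S.filter (fun i => x i < 0), f i + ∑ i ∈ S.filter (fun i => 0 < x i), f i) := by
    intro f
    rw [← Finset.sum_filter_add_sum_filter_not S (fun i => x i = 0)]
    congr 1
    rw [← Finset.sum_filter_add_sum_filter_not (S.filter fun i => ¬ x i = 0) (fun i => x i < 0),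
      Finset.filter_filter, Finset.filter_filter]
    congr 1
    · refine Finset.sum_congr (Finset.filter_congr fun i _ => ?_) fun _ _ => rfl
      constructor
      · exact fun h => h.2
      · exact fun h => ⟨h.ne, h⟩
    · refine Finset.sum_congr (Finset.filter_congr fun i _ => ?_) fun _ _ => rfl
      constructor
      · exact fun h => lt_of_le_of_ne (not_lt.1 h.2) (Ne.symm h.1)
      · exact fun h => ⟨h.ne', not_lt.2 h.le⟩
  have h1 := hsplit x
  rw [hx, Finset.sum_eq_zero (s := S.filter fun i => x i = 0) (fun i hi =>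
    (Finset.mem_filter.1 hi).2), zero_add] at h1
  obtain ⟨X, hX⟩ : ∃ X, X = ∑ i ∈ S.filter (fun i => 0 < x i), x i := ⟨_, rfl⟩
  rw [← hX] at h1
  have hX0 : 0 ≤ X := hX ▸ Finset.sum_nonneg fun i hi => (Finset.mem_filter.1 hi).2.le
  have hz : 0 ≤ ∑ i ∈ S.filter (fun i => x i = 0), y i :=
    Finset.sum_nonneg fun i hi => h0 i (Finset.mem_filter.1 hi).1 (Finset.mem_filter.1 hi).2
  rw [hsplit y]
  rcases hX0.lt_or_eq with hpos | hzero
  · have h2 : 0 ≤ ∑ i ∈ S.filter (fun i => x i < 0), ∑ j ∈ S.filter (fun i => 0 < x i),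
        (x j * y i - x i * y j) := by
      refine Finset.sum_nonneg fun i hi => Finset.sum_nonneg fun j hj => ?_
      exact h i (Finset.mem_filter.1 hi).1 j (Finset.mem_filter.1 hj).1 (Finset.mem_filter.1 hi).2
        (Finset.mem_filter.1 hj).2
    have h3 : ∑ i ∈ S.filter (fun i => x i < 0), ∑ j ∈ S.filter (fun i => 0 < x i),
        (x j * y i - x i * y j) = X * (∑ i ∈ S.filter (fun i => x i < 0), y i +
          ∑ i ∈ S.filter (fun i => 0 < x i), y i) := by
      simp only [Finset.sum_sub_distrib]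
      have h4 : ∑ i ∈ S.filter (fun i => x i < 0), ∑ j ∈ S.filter (fun i => 0 < x i), x j * y i =
          X * ∑ i ∈ S.filter (fun i => x i < 0), y i := by
        rw [Finset.mul_sum]
        refine Finset.sum_congr rfl fun i _ => ?_
        rw [hX, Finset.sum_mul]
      have h5 : ∑ i ∈ S.filter (fun i => x i < 0), ∑ j ∈ S.filter (fun i => 0 < x i), x i * y j =
          (∑ i ∈ S.filter (fun i => x i < 0), x i) * ∑ i ∈ S.filter (fun i => 0 < x i), y i := by
        rw [Finset.sum_mul_sum]
      have h6 : ∑ i ∈ S.filter (fun i => x i < 0), x i = -X := by linarith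
      rw [h4, h5, h6]
      ring
    rw [h3] at h2
    have h4 := nonneg_of_mul_nonneg_right h2 hpos
    linarith
  · have hB : S.filter (fun i => 0 < x i) = ∅ := by
      by_contra hne
      obtain ⟨i, hi⟩ := Finset.nonempty_iff_ne_empty.2 hne
      have h2 : 0 < ∑ i ∈ S.filter (fun i => 0 < x i), x i :=
        Finset.sum_pos (fun i hi => (Finset.mem_filter.1 hi).2) ⟨i, hi⟩
      rw [← hX, ← hzero] at h2
      exact lt_irrefl _ h2
    have hA : S.filter (fun i => x i < 0) = ∅ := by
      by_contra hne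
      obtain ⟨i, hi⟩ := Finset.nonempty_iff_ne_empty.2 hne
      have h2 : ∑ i ∈ S.filter (fun i => x i < 0), x i < 0 :=
        Finset.sum_neg (fun i hi => (Finset.mem_filter.1 hi).2) ⟨i, hi⟩
      linarith
    rw [hA, hB, Finset.sum_empty]
    linarith

variable [IsFF ℂ K]

theorem quot_empty (E : Bundle K r) (Λ : Matrix (Fin r) (Fin 0) K) :
    IsQuot E Λ (0 : Place ℂ K →₀ ℤ) := by
  intro P
  refine ⟨fun S => ?_, Fin.elim0, ?_, ?_⟩
  · rw [Matrix.det_isEmpty, Finsupp.zero_apply, neg_zero]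
    exact ge_one
  · rw [Matrix.det_isEmpty]
    exact one_ne_zero
  · rw [Matrix.det_isEmpty, Finsupp.zero_apply, neg_zero, P.ord_one]

theorem quot_one' (E : Bundle K r) :
    IsQuot E ((1 : Matrix (Fin r) (Fin r) K)⁻¹.submatrix id id) E.detDiv := by
  rw [inv_one, Matrix.submatrix_id_id]
  exact quot_one E

theorem exists_quot' (E : Bundle K r) {G : Matrix (Fin r) (Fin r) K} (hG : G.det ≠ 0) {ρ : ℕ}
    {f : Fin ρ → Fin r} (hf : Function.Injective f) : ∃ d, IsQuot E (G⁻¹.submatrix id f) d := by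
  refine exists_quot E (Y := G.submatrix f id) ?_
  have h1 : G.submatrix f id * G⁻¹.submatrix id f = (G * G⁻¹).submatrix f f := by
    ext i j
    rw [Matrix.mul_apply, Matrix.submatrix_apply, Matrix.mul_apply]
    rfl
  rw [h1, Matrix.mul_nonsing_inv _ (isUnit_iff_ne_zero.2 hG), Matrix.submatrix_one _ hf]

/-- **Slopes of block alternating forms.** -/
theorem slope_alt {k ρ : ℕ} (hk : 0 < k) (hkr : k < r) (E : Bundle K r) {ν : ℝ}
    (hν : Chord k E ν) {N : ℕ} (hN : N = ρ * k)
    (T : MultilinearMap K (fun _ : Fin N => Fin r → K) K) (hT : T ≠ 0)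
    (hs : ∀ (g : Matrix (Fin r) (Fin r) K) (J : Fin N → Fin r), T (fun k => g (J k)) ≠ 0 →
      ∀ j, (Finset.univ.filter fun l => J l = j).card ≤ ρ) (c : Place ℂ K →₀ ℤ)
    (hc : ∀ P, ∀ J : Fin N → Fin r, Ge P (-c P) (T (fun k => E.B P (J k)))) :
    ν * ρ ≤ ddeg c := by
  classical
  have hr : 0 < r := by omega
  have hkR : (0 : ℝ) < k := by exact_mod_cast hk
  have hkrR : (0 : ℝ) < r - k := by
    have : (k : ℝ) < r := by exact_mod_cast hkr
    linarith
  rcases slope2 hr E T hT hs c hc with ⟨m', q, hq, h1, h2⟩ | ⟨w, e, G, d, hw, hG, h1, h2, h3, h4⟩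
  · have h3 := hν 1 (by rw [Matrix.det_one]; exact one_ne_zero) 0 r Fin.elim0 id 0 E.detDiv
      (fun i => i.elim0) Function.injective_id (by rw [Set.range_id]; exact Set.subset_univ _)
      (Nat.zero_le _) hkr.le hr (quot_empty E _) (quot_one' E)
    rw [ddeg_zero] at h3
    push_cast at h3
    rw [mul_zero, zero_add, sub_zero, sub_zero] at h3
    have h4 : (q : ℝ) * (ρ * k) = r * m' := by
      rw [hN] at h1
      exact_mod_cast h1
    have h5 : (m' : ℝ) * ddeg E.detDiv ≤ q * ddeg c := by exact_mod_cast h2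
    have hqR : (0 : ℝ) < q := by exact_mod_cast hq
    have h6 := mul_le_mul_of_nonneg_left h3 (Nat.cast_nonneg (α := ℝ) m')
    refine le_of_mul_le_mul_left ?_ (mul_pos hqR hkR)
    calc (q : ℝ) * k * (ν * ρ) = ν * (q * (ρ * k)) := by ring
      _ = m' * (ν * r) := by rw [h4]; ring
      _ ≤ m' * (k * ddeg E.detDiv) := h6
      _ = k * (m' * ddeg E.detDiv) := by ring
      _ ≤ k * (q * ddeg c) := mul_le_mul_of_nonneg_left h5 hkR.le
      _ = _ := by ring
  · obtain ⟨R, hR⟩ : ∃ R : ℕ → ℕ, ∀ τ, R τ = (Finset.univ.filter fun j => τ < e j).card :=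
      ⟨_, fun _ => rfl⟩
    have hmono : ∀ τ σ, R τ < R σ → σ < τ := by
      intro τ σ h
      by_contra hcon
      push Not at hcon
      rw [hR, hR] at h
      have : (Finset.univ.filter fun j => σ < e j) ⊆ Finset.univ.filter fun j => τ < e j :=
        Finset.monotone_filter_right _ fun j _ (hj : σ < e j) => hcon.trans_lt hj
      exact absurd (Finset.card_le_card this) (not_le.2 h)
    have h5 : ∑ τ ∈ Finset.range (w * ρ), ((R τ : ℝ) - k) = 0 := by
      rw [Finset.sum_sub_distrib, Finset.sum_const, Finset.card_range, nsmul_eq_mul]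
      have h6 := layers e (fun _ => 1) h2
      simp only [mul_one, Finset.sum_const, nsmul_eq_mul] at h6
      have h7 : ((∑ j, e j : ℕ) : ℤ) = ∑ τ ∈ Finset.range (w * ρ), (R τ : ℤ) := by
        push_cast
        rw [h6]
        exact Finset.sum_congr rfl fun τ _ => by rw [hR]
      rw [h1, hN] at h7
      have h8 : ((w * (ρ * k) : ℕ) : ℝ) = ∑ τ ∈ Finset.range (w * ρ), (R τ : ℝ) := by
        exact_mod_cast h7
      rw [← h8]
      push_cast
      ring
    have h6 := convex (Finset.range (w * ρ)) (fun τ => (R τ : ℝ) - k) (fun τ => ddeg (d τ) - ν) h5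
      (fun τ _ hτ => by
        beta_reduce at hτ ⊢
        have hτ' : R τ = k := by
          have : (R τ : ℝ) = k := by linarith
          exact_mod_cast this
        rw [hR] at hτ'
        obtain ⟨d', hd'⟩ := exists_quot' E hG (f := id) Function.injective_id
        have h6 := hν G hG _ r _ id (d τ) d' (Finset.orderEmbOfFin _ rfl).injective
          Function.injective_id (by rw [Set.range_id]; exact Set.subset_univ _) hτ'.le hkr.le
          (hτ' ▸ hkr) (h3 τ) hd'
        have hτ'' : ((Finset.univ.filter fun j => τ < e j).card : ℝ) = k := by exact_mod_cast hτ'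
        rw [hτ'', sub_self, zero_mul, add_zero, mul_comm] at h6
        have := le_of_mul_le_mul_left h6 hkrR
        linarith) (fun τ _ σ _ hτ hσ => by
        beta_reduce at hτ hσ ⊢
        have hτk : R τ < k := by
          have : (R τ : ℝ) < k := by linarith
          exact_mod_cast this
        have hσk : k < R σ := by
          have : (k : ℝ) < R σ := by linarith
          exact_mod_cast this
        have hlt := hmono τ σ (hτk.trans hσk)
        rw [hR] at hτk hσk
        have h6 := hν G hG _ _ _ _ (d τ) (d σ) (Finset.orderEmbOfFin _ rfl).injective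
          (Finset.orderEmbOfFin _ rfl).injective (by
            rw [Finset.range_orderEmbOfFin, Finset.range_orderEmbOfFin]
            intro j hj
            simp only [Finset.coe_filter, Finset.mem_univ, true_and, Set.mem_ofPred_eq] at hj ⊢
            exact hlt.trans hj) hτk.le hσk.le (hτk.trans hσk) (h3 τ) (h3 σ)
        rw [← hR, ← hR] at h6
        have h7 : ((R σ : ℝ) - k) * (ddeg (d τ) - ν) - ((R τ : ℝ) - k) * (ddeg (d σ) - ν) =
          ((R σ - k) * ddeg (d τ) + (k - R τ) * ddeg (d σ)) - ν * (R σ - R τ) := by ring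
        rw [h7]
        linarith)
    rw [Finset.sum_sub_distrib, Finset.sum_const, Finset.card_range, nsmul_eq_mul] at h6
    have h7 : ((∑ τ ∈ Finset.range (w * ρ), ddeg (d τ) : ℤ) : ℝ) ≤ ((w * ddeg c : ℤ) : ℝ) := by
      exact_mod_cast h4
    push_cast at h6 h7
    have hwR : (0 : ℝ) < w := by exact_mod_cast hw
    refine le_of_mul_le_mul_left ?_ hwR
    linarith

end Pool.Agent.Helper9.GR
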