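import Pool.Agent.Helper9.GR.Num
import Pool.Agent.Helper9.GR.Plu

/-!
Very ampleness of adjoint bundles on Grassmann bundles over curves.
-/

set_option autoImplicit false
set_option linter.unusedSectionVars false

namespace Pool.Agent.Helper9.GR

open FF Module Pool.Agent.Helper9.FJ

variable {K : Type} [Field K] [Algebra ℂ K] [IsFF ℂ K] {r : ℕ}

/-- **Very ampleness of adjoint bundles on Grassmann bundles over curves.** -/
theorem mainG {k : ℕ} (hk : 0 < k) (hkr : k < r) (E : Bundle K r) {W : Place ℂ K →₀ ℤ}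
    (hW : IsCanonical W) {m : ℕ} (hm : r + 2 ≤ m) (a : Fin m → ℕ) (b : Fin m → (Place ℂ K →₀ ℤ))
    (hA : ∀ i, PosG k E (a i) (b i)) (c : ℕ) (hc : c + r = ∑ i, a i) :
    VeryAmpleG k E c (W + k • E.detDiv + ∑ i, b i) := by
  obtain ⟨hc0, ν, hν, hn1, hn2⟩ := numericG hk hkr E hm a b hA c hc
  obtain ⟨c', rfl⟩ : ∃ c', c = c' + 1 := ⟨c - 1, by omega⟩
  have hNW : ddeg (W + k • E.detDiv + ∑ i, b i) - ddeg W = ddeg (k • E.detDiv + ∑ i, b i) := by
    rw [add_assoc, ddeg_add]
    ring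
  have hR : 0 < Rk k r := by
    obtain ⟨i, -⟩ := exists_sub (k := k) (r := r) (f := fun j => ⟨j, j.2.trans hkr⟩) (by
      intro i j h
      have := congrArg Fin.val h
      exact Fin.ext this)
    exact i.pos
  refine veryAmpleG_of E (crit hR (wedge k E) hW _ ν
    (fun ρ Λ d _ hd => wedge_slope hk hkr E hν Λ d hd) ?_ fun Λ δ hδ => ?_)
  · rw [← hNW] at hn1
    push_cast at hn1 ⊢
    exact hn1
  · rw [hNW]
    refine hn2 (ddeg δ) ?_
    have := wedge_slope hk hkr E hν Λ δ hδ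
    rwa [Nat.cast_one, mul_one] at this

end Pool.Agent.Helper9.GR
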