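import Pool.Agent.Helper9.FJ.Defs

/-!
The spaces of the forms on Grassmann varieties: polynomials in the maximal minors of an `s × q`
matrix of variables.
-/

set_option autoImplicit false

namespace Pool.Agent.Helper9.GR

open FF Module MvPolynomial Pool.Agent.Helper9.FJ

/-- The minor with the rows `σ` of the generic `s × q` matrix. -/
noncomputable def mn (R : Type) [CommRing R] {s q : ℕ} (σ : Fin q → Fin s) :
    MvPolynomial (Fin s × Fin q) R :=
  (Matrix.of fun a b => (X (σ a, b) : MvPolynomial (Fin s × Fin q) R)).det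

/-- The space of the forms of weight `m`: the span of the products of `m` maximal minors. -/
noncomputable def W (R : Type) [CommRing R] (s q m : ℕ) :
    Submodule R (MvPolynomial (Fin s × Fin q) R) :=
  Submodule.span R (Set.range fun σ : Fin m → Fin q → Fin s => ∏ i, mn R (σ i))

/-- The substitution `x ↦ g x` in the generic `s × q` matrix. -/
noncomputable def sb {R : Type} [CommRing R] {s q : ℕ} (g : Matrix (Fin s) (Fin s) R) :
    MvPolynomial (Fin s × Fin q) R →ₐ[R] MvPolynomial (Fin s × Fin q) R :=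
  aeval fun z => ∑ l, C (g z.1 l) * X (l, z.2)

/-- The base point `(1 | 0)`. -/
def base (R : Type) [CommRing R] (s q : ℕ) : Fin s × Fin q → R :=
  fun z => if (z.1 : ℕ) = z.2 then 1 else 0

/-- Package A1 -/
def S_A1 : Prop := ∀ {K : Type} [Field K] [Algebra ℂ K] [IsFF ℂ K] {s q c : ℕ}, 0 < s → q ≤ s → 0 < c →
    ∀ (V : Set (MvPolynomial (Fin s × Fin q) K)), (∀ v ∈ V, v ∈ W K s q c) →
    ∀ (g : Place ℂ K → Matrix (Fin s) (Fin s) K), (∀ P, (g P).det ≠ 0) →
    ∀ (d N e : Place ℂ K →₀ ℤ), (∀ P, P.ord (g P).det = -d P) →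
    (∀ P i j, Ge P (-e P) ((g P)⁻¹ i j)) →
    (∀ P, ∀ v ∈ V, ∀ α, Ge P (-N P) (coeff α (sb (g P)⁻¹ v))) →
    ∀ P0 : Place ℂ K, (∀ v ∈ V, Ge P0 (1 - N P0) (eval (base K s q) (sb (g P0)⁻¹ v))) →
    ∀ P1 : Place ℂ K, g P1 = 1 →
    (∀ ζ : Matrix (Fin s) (Fin q) ℂ, (∃ σ : Fin q → Fin s, (ζ.submatrix σ id).det ≠ 0) →
      ∃ v ∈ V, ¬ Ge P1 (1 - N P1) (eval (fun z => algebraMap ℂ K (ζ z.1 z.2)) v)) →
    0 < c * q * ddeg d + s * ddeg N

end Pool.Agent.Helper9.GR
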