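import Pool.Agent.Helper9.GR.Ample

/-!
Reductions of local frames.
-/

set_option autoImplicit false
set_option linter.unusedSectionVars false

namespace Pool.Agent.Helper9.GR

open FF Module MvPolynomial Pool.Agent.Helper9.FJ

variable {K : Type} [Field K] [Algebra ℂ K] [IsFF ℂ K]

/-- reduction of integral matrices -/
theorem exists_red (P : Place ℂ K) {m n : ℕ} {X : Matrix (Fin m) (Fin n) K}
    (hX : ∀ i j, Ge P 0 (X i j)) :
    ∃ Xb : Matrix (Fin m) (Fin n) ℂ, ∀ i j, Ge P 1 (X i j - algebraMap ℂ K (Xb i j)) := by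
  refine ⟨Matrix.of fun i j => Pool.Agent.Helper90.FJ.theta P ⟨X i j, hX i j⟩, fun i j => ?_⟩
  have h1 := (Pool.Agent.Helper90.FJ.theta_eq_zero P
    (⟨X i j, hX i j⟩ - Pool.Agent.Helper90.FJ.cst P
      (Pool.Agent.Helper90.FJ.theta P ⟨X i j, hX i j⟩))).1 (by
    rw [map_sub, Pool.Agent.Helper90.FJ.theta_cst, sub_self])
  exact h1

theorem const_eq_zero {P : Place ℂ K} {z : ℂ} (h : Ge P 1 (algebraMap ℂ K z)) : z = 0 := by
  have h1 := (Pool.Agent.Helper90.FJ.theta_eq_zero P (Pool.Agent.Helper90.FJ.cst P z)).2 h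
  rwa [Pool.Agent.Helper90.FJ.theta_cst] at h1

theorem ge_mul_sub {P : Place ℂ K} {x x' y y' : K} (hx : Ge P 0 x) (hy' : Ge P 0 y')
    (h : Ge P 1 (x - x')) (h' : Ge P 1 (y - y')) : Ge P 1 (x * y - x' * y') := by
  have h1 : x * y - x' * y' = x * (y - y') + (x - x') * y' := by ring
  rw [h1]
  have h2 := hx.mul h'
  have h3 := h.mul hy'
  rw [zero_add] at h2
  rw [add_zero] at h3
  exact h2.add h3

/-- the reductions of inverse matrices are inverse -/
theorem red_inv {P : Place ℂ K} {r : ℕ} {U X : Matrix (Fin r) (Fin r) K}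
    (hU : ∀ i j, Ge P 0 (U i j)) (hUX : U * X = 1) {Ub Xb : Matrix (Fin r) (Fin r) ℂ}
    (hUb : ∀ i j, Ge P 1 (U i j - algebraMap ℂ K (Ub i j)))
    (hXb : ∀ i j, Ge P 1 (X i j - algebraMap ℂ K (Xb i j))) : Ub * Xb = 1 := by
  ext i j
  rw [← sub_eq_zero, ← neg_eq_zero]
  apply const_eq_zero (P := P)
  have h1 : algebraMap ℂ K (-((Ub * Xb) i j - (1 : Matrix (Fin r) (Fin r) ℂ) i j)) =
      ∑ l, (U i l * X l j - algebraMap ℂ K (Ub i l) * algebraMap ℂ K (Xb l j)) := by
    have h2 : (U * X) i j = algebraMap ℂ K ((1 : Matrix (Fin r) (Fin r) ℂ) i j) := by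
      rw [hUX, Matrix.one_apply, Matrix.one_apply]
      split_ifs
      · rw [map_one]
      · rw [map_zero]
    rw [neg_sub, map_sub, ← h2, Matrix.mul_apply, Matrix.mul_apply, map_sum,
      ← Finset.sum_sub_distrib]
    simp only [map_mul]
  rw [h1]
  exact Ge.sum _ fun l _ => ge_mul_sub (hU _ _) (ge_const _) (hUb _ _) (hXb _ _)

section Th

variable {r ρ s q : ℕ} {f1 : Fin ρ → Fin r} {f3 : Fin s → Fin r}

/-- the minors of the general point -/
theorem det_Th {R : Type} [CommRing R] (hf1 : Function.Injective f1) (hf3 : Function.Injective f3)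
    (h13 : ∀ a l, f1 a ≠ f3 l) (x : Matrix (Fin s) (Fin q) R) (σ : Fin q → Fin s) :
    ((Th f1 f3 x).submatrix (Fin.addCases f1 (f3 ∘ σ)) id).det = (x.submatrix σ id).det := by
  rw [← Matrix.det_submatrix_equiv_self finSumFinEquiv]
  have h1 : (((Th f1 f3 x).submatrix (Fin.addCases f1 (f3 ∘ σ)) id).submatrix finSumFinEquiv
      finSumFinEquiv) = Matrix.fromBlocks (1 : Matrix (Fin ρ) (Fin ρ) R) 0 0 (x.submatrix σ id) := by
    ext i j
    rcases i with i | i <;> rcases j with j | j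
    · rw [Matrix.submatrix_apply, Matrix.submatrix_apply, finSumFinEquiv_apply_left,
        finSumFinEquiv_apply_left, Fin.addCases_left, id, Th_left, Matrix.fromBlocks_apply₁₁,
        Matrix.one_apply]
      exact if_congr hf1.eq_iff rfl rfl
    · rw [Matrix.submatrix_apply, Matrix.submatrix_apply, finSumFinEquiv_apply_left,
        finSumFinEquiv_apply_right, Fin.addCases_left, id, Th_right, Matrix.fromBlocks_apply₁₂,
        Finset.sum_eq_zero fun l _ => if_neg (h13 i l)]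
      rfl
    · rw [Matrix.submatrix_apply, Matrix.submatrix_apply, finSumFinEquiv_apply_right,
        finSumFinEquiv_apply_left, Fin.addCases_right, id, Th_left, Matrix.fromBlocks_apply₂₁,
        Function.comp_apply, if_neg (h13 j (σ i)).symm]
      rfl
    · rw [Matrix.submatrix_apply, Matrix.submatrix_apply, finSumFinEquiv_apply_right,
        finSumFinEquiv_apply_right, Fin.addCases_right, id, Th_right, Matrix.fromBlocks_apply₂₂,
        Function.comp_apply, Finset.sum_eq_single (σ i), if_pos rfl]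
      · rfl
      · intro l _ hl
        exact if_neg fun h => hl (hf3 h).symm
      · intro h
        exact absurd (Finset.mem_univ _) h
  rw [h1, Matrix.det_fromBlocks_zero₂₁, Matrix.det_one, one_mul]

/-- the points of the sub-Grassmann bundle are points -/
theorem plu_ne (hf1 : Function.Injective f1) (hf3 : Function.Injective f3)
    (h13 : ∀ a l, f1 a ≠ f3 l) {Ub Xb : Matrix (Fin r) (Fin r) ℂ} (h : Ub * Xb = 1)
    {ζ : Matrix (Fin s) (Fin q) ℂ} {σ : Fin q → Fin s} (hσ : (ζ.submatrix σ id).det ≠ 0) :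
    plu (Xb * Th f1 f3 ζ) ≠ 0 := by
  intro h0
  have h1 : plu (Th f1 f3 ζ) = 0 := by
    have h2 := plu_mul Ub (Xb * Th f1 f3 ζ)
    rw [h0, Matrix.mulVec_zero, ← Matrix.mul_assoc, h, Matrix.one_mul] at h2
    exact h2
  have h2 := det_Th hf1 hf3 h13 ζ σ
  rcases minor_eq (R := ℂ) (Fin.addCases f1 (f3 ∘ σ) : Fin (ρ + q) → Fin r) with h3 | ⟨i, ε, h3⟩
  · rw [h3] at h2
    exact hσ h2.symm
  · rw [h3, h1, Pi.zero_apply, mul_zero] at h2
    exact hσ h2.symm

variable {P : Place ℂ K}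

theorem cm_Th (ζ : Matrix (Fin s) (Fin q) ℂ) :
    Th f1 f3 (ζ.map (algebraMap ℂ K)) = (Th f1 f3 ζ).map (algebraMap ℂ K) :=
  (Th_map (algebraMap ℂ K) ζ).symm

theorem ge_Th (ζ : Matrix (Fin s) (Fin q) ℂ) (i : Fin r) (b : Fin (ρ + q)) :
    Ge P 0 (Th f1 f3 (ζ.map (algebraMap ℂ K)) i b) := by
  rw [cm_Th]
  exact ge_const _

/-- **congruent points** -/
theorem congr_pts {X : Matrix (Fin r) (Fin r) K} (hX : ∀ i j, Ge P 0 (X i j))
    {Xb : Matrix (Fin r) (Fin r) ℂ} (hXb : ∀ i j, Ge P 1 (X i j - algebraMap ℂ K (Xb i j)))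
    (ζ : Matrix (Fin s) (Fin q) ℂ) {c : ℕ} {N : Place ℂ K →₀ ℤ} (E : Bundle K r)
    {f : MvPolynomial (Fin (Rk (ρ + q) r)) K} (hf : IsSec (wedge (ρ + q) E) c N f) :
    Ge P (1 - N P) (eval (plp E P (X * Th f1 f3 (ζ.map (algebraMap ℂ K)))) f -
      eval (plp E P (cm (Xb * Th f1 f3 ζ))) f) := by
  rw [Pool.Agent.Helper9.FJ.eval_eq_loc (wedge (ρ + q) E) P (plp E P (X * _)) f,
    Pool.Agent.Helper9.FJ.eval_eq_loc (wedge (ρ + q) E) P (plp E P (cm _)) f, mulVec_plp,
    mulVec_plp]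
  have h1 : CGe P (-N P) (loc (wedge (ρ + q) E) P f) := hf.2 P
  have h2 : (1 - N P) = -N P + 1 := by ring
  rw [h2]
  have h3 : ∀ i b, Ge P 0 ((X * Th f1 f3 (ζ.map (algebraMap ℂ K))) i b) := by
    intro i b
    rw [Matrix.mul_apply]
    refine Ge.sum _ fun l _ => ?_
    have := (hX i l).mul (ge_Th (f1 := f1) (f3 := f3) ζ l b (P := P))
    rwa [zero_add] at this
  have h4 : ∀ i b, Ge P 0 ((cm (Xb * Th f1 f3 ζ) : Matrix (Fin r) (Fin (ρ + q)) K) i b) :=
    fun i b => ge_const _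
  have h5 : ∀ i b, Ge P 1 ((X * Th f1 f3 (ζ.map (algebraMap ℂ K))) i b -
      (cm (Xb * Th f1 f3 ζ) : Matrix (Fin r) (Fin (ρ + q)) K) i b) := by
    intro i b
    have h6 : (cm (Xb * Th f1 f3 ζ) : Matrix (Fin r) (Fin (ρ + q)) K) i b =
        ∑ l, algebraMap ℂ K (Xb i l) * Th f1 f3 (ζ.map (algebraMap ℂ K)) l b := by
      rw [cm, Matrix.map_apply, Matrix.mul_apply, map_sum]
      refine Finset.sum_congr rfl fun l _ => ?_
      rw [map_mul, cm_Th, Matrix.map_apply]
    rw [h6, Matrix.mul_apply, ← Finset.sum_sub_distrib]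
    refine Ge.sum _ fun l _ => ?_
    rw [← sub_mul]
    have := (hXb i l).mul (ge_Th (f1 := f1) (f3 := f3) ζ l b (P := P))
    rwa [add_zero] at this
  refine h1.eval_sub (fun j => ?_) (fun j => ?_) fun j => ?_
  · exact ge_det fun a b => h3 _ _
  · exact ge_det fun a b => h4 _ _
  · exact ge_det_sub (fun a b => h3 _ _) (fun a b => h4 _ _) fun a b => h5 _ _

end Th

end Pool.Agent.Helper9.GR
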