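import Pool.Agent.Helper9.GR.Min
import Pool.Agent.Helper9.GR.CB
import Pool.Agent.Helper9.FJ.Poly

/-!
The spaces of forms on Grassmann varieties, and the restriction to sub-Grassmann bundles.
-/

set_option autoImplicit false
set_option linter.unusedSectionVars false

namespace Pool.Agent.Helper9.GR

open FF Module MvPolynomial Pool.Agent.Helper9.FJ

section W

variable {K : Type} [Field K] {s q : ℕ}

theorem one_mem_W : (1 : MvPolynomial (Fin s × Fin q) K) ∈ W K s q 0 :=
  Submodule.subset_span ⟨Fin.elim0, by simp⟩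

theorem mn_mem_W (σ : Fin q → Fin s) : mn K σ ∈ W K s q 1 :=
  Submodule.subset_span ⟨fun _ => σ, by simp⟩

theorem mul_mem_W {m m' : ℕ} {x y : MvPolynomial (Fin s × Fin q) K} (hx : x ∈ W K s q m)
    (hy : y ∈ W K s q m') : x * y ∈ W K s q (m + m') := by
  have h1 := Submodule.mul_mem_mul hx hy
  rw [W, W, Submodule.span_mul_span] at h1
  refine Submodule.span_mono ?_ h1
  rintro _ ⟨_, ⟨σ, rfl⟩, _, ⟨τ, rfl⟩, rfl⟩
  refine ⟨Fin.append σ τ, ?_⟩
  beta_reduce
  rw [Fin.prod_univ_add]
  simp only [Fin.append_left, Fin.append_right]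

theorem pow_mem_W {x : MvPolynomial (Fin s × Fin q) K} (hx : x ∈ W K s q 1) (n : ℕ) :
    x ^ n ∈ W K s q n := by
  induction n with
  | zero => rw [pow_zero]; exact one_mem_W
  | succ n ih => rw [pow_succ]; exact mul_mem_W ih hx

theorem prod_mem_W {ι : Type} (S : Finset ι) {x : ι → MvPolynomial (Fin s × Fin q) K}
    {n : ι → ℕ} (hx : ∀ i ∈ S, x i ∈ W K s q (n i)) : ∏ i ∈ S, x i ∈ W K s q (∑ i ∈ S, n i) := by
  classical
  induction S using Finset.induction_on with
  | empty => rw [Finset.prod_empty, Finset.sum_empty]; exact one_mem_W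
  | insert a S ha ih =>
    rw [Finset.prod_insert ha, Finset.sum_insert ha]
    exact mul_mem_W (hx a (Finset.mem_insert_self _ _))
      (ih fun i hi => hx i (Finset.mem_insert_of_mem hi))

theorem deg_of_mem {n c : ℕ} {f : MvPolynomial (Fin n) K} (hf : f.IsHomogeneous c) {α : Fin n →₀ ℕ}
    (hα : α ∈ f.support) : ∑ i, α i = c := by
  have h1 := hf (mem_support_iff.1 hα)
  rw [← h1, Finsupp.weight_apply, Finsupp.sum_fintype _ _ (by simp)]
  simp

/-- forms in elements of weight one -/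
theorem aeval_mem_W {n c : ℕ} {f : MvPolynomial (Fin n) K} (hf : f.IsHomogeneous c)
    {w : Fin n → MvPolynomial (Fin s × Fin q) K} (hw : ∀ i, w i ∈ W K s q 1) :
    aeval w f ∈ W K s q c := by
  rw [aeval_def, eval₂_eq']
  refine Submodule.sum_mem _ fun α hα => ?_
  have h1 := prod_mem_W Finset.univ (x := fun i => w i ^ α i) (n := fun i => α i)
    fun i _ => pow_mem_W (hw i) _
  rw [deg_of_mem hf hα] at h1
  rw [← Algebra.smul_def]
  exact Submodule.smul_mem _ _ h1

theorem aeval_scale {n c : ℕ} {f : MvPolynomial (Fin n) K} (hf : f.IsHomogeneous c)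
    {A : Type} [CommRing A] [Algebra K A] (u : A) (w : Fin n → A) :
    aeval (fun i => u * w i) f = u ^ c * aeval w f := by
  rw [aeval_def, aeval_def, eval₂_eq', eval₂_eq', Finset.mul_sum]
  refine Finset.sum_congr rfl fun α hα => ?_
  have h1 : ∏ i, (u * w i) ^ α i = u ^ c * ∏ i, w i ^ α i := by
    simp only [mul_pow]
    rw [Finset.prod_mul_distrib, Finset.prod_pow_eq_pow_sum, deg_of_mem hf hα]
  rw [h1]
  ring

/-- **Determinants with some columns of linear forms.** -/
theorem det_mem_W [CharZero K] {ι : Type} [Fintype ι] [DecidableEq ι]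
    (M : Matrix (ι ⊕ Fin q) (ι ⊕ Fin q) (MvPolynomial (Fin s × Fin q) K))
    (a : (ι ⊕ Fin q) → ι → K) (b : (ι ⊕ Fin q) → Fin s → K)
    (h1 : ∀ i j, M i (Sum.inl j) = C (a i j))
    (h2 : ∀ i c, M i (Sum.inr c) = ∑ l, C (b i l) * X (l, c)) : M.det ∈ W K s q 1 := by
  classical
  obtain ⟨κ, hκ⟩ : ∃ κ : (Fin q → Fin s) → K, ∀ σ, κ σ =
      (Matrix.of fun (i j : ι ⊕ Fin q) => Sum.elim (a i) (fun c => b i (σ c)) j).det :=
    ⟨_, fun _ => rfl⟩
  have h3 : M.det = ∑ σ : Fin q → Fin s, C (κ σ) * ∏ c, X (σ c, c) := by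
    rw [Matrix.det_apply']
    have h4 : ∀ π : Equiv.Perm (ι ⊕ Fin q), ∏ j, M (π j) j =
        ∑ σ : Fin q → Fin s, (∏ j, C (a (π (Sum.inl j)) j)) *
          ((∏ c, C (b (π (Sum.inr c)) (σ c))) * ∏ c, X (σ c, c)) := by
      intro π
      rw [Fintype.prod_sum_type]
      simp only [h1, h2]
      rw [Finset.prod_univ_sum, Fintype.piFinset_univ, Finset.mul_sum]
      refine Finset.sum_congr rfl fun σ _ => ?_
      rw [Finset.prod_mul_distrib]
    simp only [h4, Finset.mul_sum]
    rw [Finset.sum_comm]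
    refine Finset.sum_congr rfl fun σ _ => ?_
    rw [hκ, Matrix.det_apply', map_sum, Finset.sum_mul]
    refine Finset.sum_congr rfl fun π _ => ?_
    rw [Fintype.prod_sum_type]
    simp only [Matrix.of_apply, Sum.elim_inl, Sum.elim_inr, map_mul, map_prod, map_intCast]
    ring
  have h5 : ∀ (σ : Fin q → Fin s) (τ : Equiv.Perm (Fin q)), κ (σ ∘ τ) =
      ((Equiv.Perm.sign τ : ℤ) : K) * κ σ := by
    intro σ τ
    rw [hκ, hκ]
    have h6 : (Matrix.of fun (i j : ι ⊕ Fin q) => Sum.elim (a i) (fun c => b i ((σ ∘ τ) c)) j) =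
        (Matrix.of fun (i j : ι ⊕ Fin q) => Sum.elim (a i) (fun c => b i (σ c)) j).submatrix id
          (Equiv.Perm.sumCongr 1 τ) := by
      ext i j
      rcases j with j | j
      · rfl
      · rfl
    rw [h6, Matrix.det_permute', Equiv.Perm.sign_sumCongr, Equiv.Perm.sign_one, one_mul]
  have h7 : ∑ σ : Fin q → Fin s, C (κ σ) * mn K σ =
      C ((q.factorial : K)) * M.det := by
    have h8 : ∀ σ : Fin q → Fin s, C (κ σ) * mn K σ =
        ∑ π : Equiv.Perm (Fin q), C (κ (σ ∘ π)) * ∏ c, X ((σ ∘ π) c, c) := by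
      intro σ
      rw [mn, Matrix.det_apply', Finset.mul_sum]
      refine Finset.sum_congr rfl fun π _ => ?_
      rw [h5, map_mul, map_intCast]
      simp only [Matrix.of_apply, Function.comp_apply]
      ring
    simp only [h8]
    rw [Finset.sum_comm]
    have h9 : ∀ π : Equiv.Perm (Fin q), ∑ σ : Fin q → Fin s, C (κ (σ ∘ π)) * ∏ c, X ((σ ∘ π) c, c) =
        M.det := by
      intro π
      rw [h3]
      exact Equiv.sum_comp (Equiv.arrowCongr π.symm (Equiv.refl (Fin s)))
        (fun σ : Fin q → Fin s => C (κ σ) * ∏ c, (X (σ c, c) : MvPolynomial (Fin s × Fin q) K))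
    rw [Finset.sum_congr rfl fun π _ => h9 π, Finset.sum_const, Finset.card_univ, Fintype.card_perm,
      Fintype.card_fin, nsmul_eq_mul, map_natCast]
  have h10 : M.det = C ((q.factorial : K))⁻¹ * ∑ σ : Fin q → Fin s, C (κ σ) * mn K σ := by
    rw [h7, ← mul_assoc, ← C_mul, inv_mul_cancel₀ (Nat.cast_ne_zero.2 q.factorial_ne_zero), C_1,
      one_mul]
  rw [h10, Finset.mul_sum]
  refine Submodule.sum_mem _ fun σ _ => ?_
  rw [← mul_assoc, ← C_mul, C_mul']
  exact Submodule.smul_mem _ _ (mn_mem_W σ)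

/-- the generic matrix -/
noncomputable def gen (K : Type) [Field K] (s q : ℕ) :
    Matrix (Fin s) (Fin q) (MvPolynomial (Fin s × Fin q) K) :=
  Matrix.of fun l c => X (l, c)

/-- matrices of constants -/
noncomputable def mC (s q : ℕ) {m n : ℕ} (A : Matrix (Fin m) (Fin n) K) :
    Matrix (Fin m) (Fin n) (MvPolynomial (Fin s × Fin q) K) :=
  A.map C

theorem sb_gen (g : Matrix (Fin s) (Fin s) K) (l : Fin s) (c : Fin q) :
    sb g (X (l, c)) = (mC s q g * gen K s q) l c := by
  rw [sb, aeval_X, Matrix.mul_apply]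
  rfl

theorem sb_mn (g : Matrix (Fin s) (Fin s) K) (σ : Fin q → Fin s) :
    sb g (mn K σ) ∈ W K s q 1 := by
  have h1 : sb g (mn K σ) = (mC s q (g.submatrix σ id) * gen K s q).det := by
    rw [mn, AlgHom.map_det]
    congr 1
    ext a b : 1
    rw [AlgHom.mapMatrix_apply, Matrix.map_apply, Matrix.of_apply, sb_gen, Matrix.mul_apply,
      Matrix.mul_apply]
    rfl
  rw [h1, det_mul_expand]
  refine Submodule.sum_mem _ fun τ _ => ?_
  have h2 : ∏ i, mC s q (g.submatrix σ id) i (τ i) =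
      (C (∏ i, g (σ i) (τ i)) : MvPolynomial (Fin s × Fin q) K) := by
    rw [map_prod]
    rfl
  rw [h2, C_mul']
  exact Submodule.smul_mem _ _ (mn_mem_W τ)

/-- the substitutions preserve the spaces of forms -/
theorem sb_mem_W (g : Matrix (Fin s) (Fin s) K) {m : ℕ} {f : MvPolynomial (Fin s × Fin q) K}
    (hf : f ∈ W K s q m) : sb g f ∈ W K s q m := by
  have h1 : (W K s q m).map (sb g).toLinearMap ≤ W K s q m := by
    rw [W, Submodule.map_span, Submodule.span_le]
    rintro _ ⟨_, ⟨σ, rfl⟩, rfl⟩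
    change sb g (∏ i, mn K (σ i)) ∈ W K s q m
    rw [map_prod]
    have := prod_mem_W Finset.univ (x := fun i => sb g (mn K (σ i))) (n := fun _ => 1)
      fun i _ => sb_mn g (σ i)
    rwa [Finset.sum_const, Finset.card_univ, Fintype.card_fin, smul_eq_mul, mul_one] at this
  exact h1 ⟨f, hf, rfl⟩

end W

section Th

variable {R : Type} [CommRing R] {r ρ s q : ℕ}

/-- the general point of the sub-Grassmann bundle -/
def Th (f1 : Fin ρ → Fin r) (f3 : Fin s → Fin r) (x : Matrix (Fin s) (Fin q) R) :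
    Matrix (Fin r) (Fin (ρ + q)) R :=
  Matrix.of fun j b => Fin.addCases (motive := fun _ => R) (fun a => if j = f1 a then 1 else 0)
    (fun c => ∑ l, if j = f3 l then x l c else 0) b

variable {f1 : Fin ρ → Fin r} {f3 : Fin s → Fin r}

theorem Th_left (x : Matrix (Fin s) (Fin q) R) (j : Fin r) (a : Fin ρ) :
    Th f1 f3 x j (Fin.castAdd q a) = if j = f1 a then 1 else 0 := by
  rw [Th, Matrix.of_apply, Fin.addCases_left]

theorem Th_right (x : Matrix (Fin s) (Fin q) R) (j : Fin r) (c : Fin q) :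
    Th f1 f3 x j (Fin.natAdd ρ c) = ∑ l, if j = f3 l then x l c else 0 := by
  rw [Th, Matrix.of_apply, Fin.addCases_right]

theorem mul_Th_left {m : ℕ} (A : Matrix (Fin m) (Fin r) R) (x : Matrix (Fin s) (Fin q) R)
    (j : Fin m) (a : Fin ρ) : (A * Th f1 f3 x) j (Fin.castAdd q a) = A j (f1 a) := by
  rw [Matrix.mul_apply]
  simp only [Th_left]
  simp

theorem mul_Th_right {m : ℕ} (A : Matrix (Fin m) (Fin r) R) (x : Matrix (Fin s) (Fin q) R)
    (j : Fin m) (c : Fin q) :
    (A * Th f1 f3 x) j (Fin.natAdd ρ c) = ∑ l, A j (f3 l) * x l c := by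
  rw [Matrix.mul_apply]
  simp only [Th_right, Finset.mul_sum]
  rw [Finset.sum_comm]
  refine Finset.sum_congr rfl fun l _ => ?_
  simp

theorem Th_map {S : Type} [CommRing S] (φ : R →+* S) (x : Matrix (Fin s) (Fin q) R) :
    (Th f1 f3 x).map φ = Th f1 f3 (x.map φ) := by
  ext j b : 1
  rw [Matrix.map_apply]
  refine Fin.addCases (fun a => ?_) (fun c => ?_) b
  · rw [Th_left, Th_left]
    split_ifs
    · exact map_one _
    · exact map_zero _
  · rw [Th_right, Th_right, map_sum]
    refine Finset.sum_congr rfl fun l _ => ?_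
    split_ifs
    · rfl
    · exact map_zero _

/-- the column operations -/
def hh (f1 : Fin ρ → Fin r) (f3 : Fin s → Fin r) (A : Matrix (Fin r) (Fin r) R)
    (y : Matrix (Fin s) (Fin q) R) : Matrix (Fin (ρ + q)) (Fin (ρ + q)) R :=
  (Matrix.fromBlocks (A.submatrix f1 f1) (A.submatrix f1 f3 * y) 0 1).submatrix
    finSumFinEquiv.symm finSumFinEquiv.symm

theorem det_hh (A : Matrix (Fin r) (Fin r) R) (y : Matrix (Fin s) (Fin q) R) :
    (hh f1 f3 A y).det = (A.submatrix f1 f1).det := by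
  rw [hh, Matrix.det_submatrix_equiv_self, Matrix.det_fromBlocks_zero₂₁, Matrix.det_one, mul_one]

theorem Th_eq (hf1 : Function.Injective f1) (hf3 : Function.Injective f3)
    (h13 : ∀ a l, f1 a ≠ f3 l) {A : Matrix (Fin r) (Fin r) R}
    (hA1 : ∀ l a, A (f3 l) (f1 a) = 0)
    (hA2 : ∀ i, (∀ a, f1 a ≠ i) → (∀ l, f3 l ≠ i) → (∀ a, A i (f1 a) = 0) ∧ ∀ l, A i (f3 l) = 0)
    (y : Matrix (Fin s) (Fin q) R) :
    A * Th f1 f3 y = Th f1 f3 (A.submatrix f3 f3 * y) * hh f1 f3 A y := by
  classical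
  ext j b : 1
  have hrow : ∀ b, (Th f1 f3 (A.submatrix f3 f3 * y) * hh f1 f3 A y) j b =
      ∑ a, (if j = f1 a then 1 else 0) * hh f1 f3 A y (Fin.castAdd q a) b +
        ∑ c, (∑ l, if j = f3 l then (A.submatrix f3 f3 * y) l c else 0) *
          hh f1 f3 A y (Fin.natAdd ρ c) b := by
    intro b
    rw [Matrix.mul_apply, Fin.sum_univ_add]
    simp only [Th_left, Th_right]
  have hh11 : ∀ a a', hh f1 f3 A y (Fin.castAdd q a) (Fin.castAdd q a') = A (f1 a) (f1 a') := by
    intro a a'
    rw [hh, Matrix.submatrix_apply, finSumFinEquiv_symm_apply_castAdd,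
      finSumFinEquiv_symm_apply_castAdd, Matrix.fromBlocks_apply₁₁]
    rfl
  have hh12 : ∀ a c, hh f1 f3 A y (Fin.castAdd q a) (Fin.natAdd ρ c) =
      ∑ l, A (f1 a) (f3 l) * y l c := by
    intro a c
    rw [hh, Matrix.submatrix_apply, finSumFinEquiv_symm_apply_castAdd,
      finSumFinEquiv_symm_apply_natAdd, Matrix.fromBlocks_apply₁₂, Matrix.mul_apply]
    rfl
  have hh21 : ∀ c a, hh f1 f3 A y (Fin.natAdd ρ c) (Fin.castAdd q a) = 0 := by
    intro c a
    rw [hh, Matrix.submatrix_apply, finSumFinEquiv_symm_apply_castAdd,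
      finSumFinEquiv_symm_apply_natAdd, Matrix.fromBlocks_apply₂₁]
    rfl
  have hh22 : ∀ c c', hh f1 f3 A y (Fin.natAdd ρ c) (Fin.natAdd ρ c') =
      (1 : Matrix (Fin q) (Fin q) R) c c' := by
    intro c c'
    rw [hh, Matrix.submatrix_apply, finSumFinEquiv_symm_apply_natAdd,
      finSumFinEquiv_symm_apply_natAdd, Matrix.fromBlocks_apply₂₂]
  rw [hrow]
  refine Fin.addCases (fun a => ?_) (fun c => ?_) b
  · rw [mul_Th_left]
    simp only [hh11, hh21, mul_zero, Finset.sum_const_zero, add_zero]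
    by_cases hj : ∃ a, f1 a = j
    · obtain ⟨a0, rfl⟩ := hj
      rw [Finset.sum_eq_single a0]
      · rw [if_pos rfl, one_mul]
      · intro a' _ hne
        rw [if_neg fun h => hne (hf1 h).symm, zero_mul]
      · intro h
        exact absurd (Finset.mem_univ _) h
    · push Not at hj
      rw [Finset.sum_eq_zero fun a' _ => by rw [if_neg fun h => hj a' h.symm, zero_mul]]
      by_cases hj3 : ∃ l, f3 l = j
      · obtain ⟨l, rfl⟩ := hj3
        exact hA1 l a
      · push Not at hj3
        exact (hA2 j hj hj3).1 a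
  · rw [mul_Th_right]
    simp only [hh12, hh22]
    have h1 : ∑ c', (∑ l, if j = f3 l then (A.submatrix f3 f3 * y) l c' else 0) *
        (1 : Matrix (Fin q) (Fin q) R) c' c =
        ∑ l, if j = f3 l then (A.submatrix f3 f3 * y) l c else 0 := by
      rw [Finset.sum_eq_single c]
      · rw [Matrix.one_apply_eq, mul_one]
      · intro c' _ hne
        rw [Matrix.one_apply_ne hne, mul_zero]
      · intro h
        exact absurd (Finset.mem_univ _) h
    rw [h1]
    by_cases hj : ∃ a, f1 a = j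
    · obtain ⟨a0, rfl⟩ := hj
      rw [Finset.sum_eq_single a0, Finset.sum_eq_zero (s := Finset.univ) (f := fun l =>
        if f1 a0 = f3 l then (A.submatrix f3 f3 * y) l c else 0) fun l _ => if_neg (h13 a0 l)]
      · rw [if_pos rfl, one_mul, add_zero]
      · intro a' _ hne
        rw [if_neg fun h => hne (hf1 h).symm, zero_mul]
      · intro h
        exact absurd (Finset.mem_univ _) h
    · push Not at hj
      have h2 : ∑ a, (if j = f1 a then (1 : R) else 0) * ∑ l, A (f1 a) (f3 l) * y l c = 0 :=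
        Finset.sum_eq_zero fun a' _ => by rw [if_neg fun h => hj a' h.symm, zero_mul]
      rw [h2, zero_add]
      by_cases hj3 : ∃ l, f3 l = j
      · obtain ⟨l0, rfl⟩ := hj3
        rw [Finset.sum_eq_single l0 (f := fun l => if f3 l0 = f3 l then
          (A.submatrix f3 f3 * y) l c else 0)]
        · rw [if_pos rfl, Matrix.mul_apply]
          rfl
        · intro l _ hne
          rw [if_neg fun h => hne (hf3 h).symm]
        · intro h
          exact absurd (Finset.mem_univ _) h
      · push Not at hj3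
        rw [Finset.sum_eq_zero fun l _ => by rw [(hA2 j hj hj3).2, zero_mul],
          Finset.sum_eq_zero fun l _ => if_neg fun h => hj3 l h.symm]

end Th

end Pool.Agent.Helper9.GR
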