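import Pool.Agent.Helper9.FJ.Slope

/-!
The slope inequality for multilinear forms, for forms with few repetitions.
-/

set_option autoImplicit false
set_option linter.unusedSectionVars false

namespace Pool.Agent.Helper9.GR

open FF Module Pool.Agent.Helper91.HM Pool.Agent.Helper9.FJ

variable {K : Type} [Field K] [Algebra ℂ K] {r : ℕ} [IsFF ℂ K]

/-- **Slopes of multilinear forms**, the flag of Kempf: the form is semistable, or there is a chain
of quotients. -/
theorem slope2 {N s : ℕ} (hr : 0 < r) (E : Bundle K r)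
    (T : MultilinearMap K (fun _ : Fin N => Fin r → K) K) (hT : T ≠ 0)
    (hs : ∀ (g : Matrix (Fin r) (Fin r) K) (J : Fin N → Fin r), T (fun k => g (J k)) ≠ 0 →
      ∀ j, (Finset.univ.filter fun l => J l = j).card ≤ s) (c : Place ℂ K →₀ ℤ)
    (hc : ∀ P, ∀ J : Fin N → Fin r, Ge P (-c P) (T (fun k => E.B P (J k)))) :
    (∃ m' q : ℕ, 0 < q ∧ q * N = r * m' ∧ m' * ddeg E.detDiv ≤ q * ddeg c) ∨
    ∃ (w : ℕ) (e : Fin r → ℕ) (G : Matrix (Fin r) (Fin r) K) (d : ℕ → Place ℂ K →₀ ℤ), 0 < w ∧
      G.det ≠ 0 ∧ ∑ j, e j = w * N ∧ (∀ j, e j ≤ w * s) ∧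
      (∀ τ, IsQuot E (G⁻¹.submatrix id
        ((Finset.univ.filter fun j => τ < e j).orderEmbOfFin rfl)) (d τ)) ∧
      ∑ τ ∈ Finset.range (w * s), ddeg (d τ) ≤ w * ddeg c := by
  classical
  let _ : Algebra ℝ K := Algebra.compHom K (algebraMap ℝ ℂ)
  have _ : IsScalarTower ℝ ℂ K := IsScalarTower.of_algebraMap_eq fun _ => rfl
  obtain ⟨T0, hT0⟩ : ∃ T0 : (Fin N → Fin r) → K, T0 = fun I => T (fun k => Pi.single (I k) 1) :=
    ⟨_, rfl⟩
  have hact : ∀ (g : Matrix (Fin r) (Fin r) K) (J : Fin N → Fin r),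
      act g T0 J = T (fun k => g (J k)) := fun g J => by rw [hT0, coords_eq]
  have hT0' : T0 ≠ 0 := by
    intro h0
    apply hT
    refine MultilinearMap.ext fun x => ?_
    have h1 : x = fun k => ∑ i, x k i • (Pi.single i 1 : Fin r → K) := by
      funext k
      exact pi_eq_sum_univ' _
    rw [h1, MultilinearMap.map_sum, zero_apply]
    refine Finset.sum_eq_zero fun I _ => ?_
    have h2 := T.map_smul_univ (fun k => x k (I k)) (fun k => Pi.single (I k) 1)
    have h3 : T (fun k => Pi.single (I k) 1) = 0 := by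
      rw [hT0] at h0
      exact congrFun h0 I
    rw [h3, smul_zero] at h2
    exact h2
  by_cases hno : NoInv (N := fun _ : Unit => N) (fun _ : Unit => T0)
  · obtain ⟨G, A, m, k, q, κ0, hG, hm, hk, hq, hsupp, hno'⟩ := unstable hr T0 hT0' hno
    obtain ⟨T1, hT1⟩ : ∃ T1 : (C : Matrix (Fin r) (Fin r) K) → (Fin N → Fin r) → K,
      ∀ C, T1 C = lead A (-m) (act C (act G T0)) := ⟨_, fun _ => rfl⟩
    have hT11 : T1 1 = lead A (-m) (act G T0) := by rw [hT1, act_one]
    rw [← hT11, NoInv] at hno'
    push Not at hno'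
    obtain ⟨Q, hQf, hQd, hQn, ν, p, hp, hne⟩ := hno'
    obtain ⟨I0, -, hI0⟩ := Finset.exists_ne_zero_of_sum_ne_zero hne
    have hpI0 : p I0 ≠ 0 := fun h => hI0 (by rw [h, map_zero, zero_mul])
    have hwI0 := right_ne_zero_of_mul hI0
    obtain ⟨m', hcard, hm'⟩ := hp.exists_m hr hpI0
    obtain ⟨q0⟩ : Nonempty Q := hQn
    have hQ0 : 0 < Fintype.card Q := Fintype.card_pos_iff.2 ⟨q0⟩
    have hqA : ∀ i j, A i = A j → q i = q j := by
      intro i j hij
      have h1 := hq i
      have h2 := hq j
      rw [hij, ← h2] at h1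
      exact_mod_cast h1
    -- the exponents
    obtain ⟨e, he⟩ : ∃ e : Fin r → ℕ, ∀ j, e j = ∑ x : Q, ∑ y : Fin k, ∑ l : Fin N,
        if I0 ⟨x, Fintype.equivFin (IR (fun _ : Unit => N) q k (ν x)) (Sum.inl ⟨y, l⟩)⟩ = j
          then 1 else 0 := ⟨_, fun _ => rfl⟩
    have hem : ∀ j, m' = e j + Fintype.card Q * q j := by
      intro j
      rw [← hm' I0 hpI0 j, Finset.card_filter, Fintype.sum_sigma, he]
      have h1 : ∀ x : Q, ∑ z, (if I0 ⟨x, z⟩ = j then 1 else 0) = ∑ y : Fin k, ∑ l : Fin N,
          (if I0 ⟨x, Fintype.equivFin (IR (fun _ : Unit => N) q k (ν x)) (Sum.inl ⟨y, l⟩)⟩ = j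
            then 1 else 0) + q j := by
        intro x
        rw [sum_IR (N := fun _ : Unit => N) q k (ν x) (fun z => if I0 ⟨x, z⟩ = j then 1 else 0)]
        congr 1
        have h2 : D0 K A q (fun z => I0 ⟨x, Fintype.equivFin (IR (fun _ : Unit => N) q k (ν x))
            (Sum.inr z)⟩) ≠ 0 := by
          rw [wordT, Finset.prod_ne_zero_iff] at hwI0
          exact right_ne_zero_of_mul (hwI0 x (Finset.mem_univ x))
        have h3 := sum_D0 h2 (fun i => if i = j then 1 else 0)
        rw [h3]
        simp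
      rw [Finset.sum_congr rfl fun x _ => h1 x, Finset.sum_add_distrib, Finset.sum_const,
        Finset.card_univ, smul_eq_mul]
    have hesum : ∑ j, e j = Fintype.card Q * k * N := by
      simp only [he]
      rw [Finset.sum_comm]
      have h1 : ∀ x : Q, ∑ j : Fin r, ∑ y : Fin k, ∑ l : Fin N,
          (if I0 ⟨x, Fintype.equivFin (IR (fun _ : Unit => N) q k (ν x)) (Sum.inl ⟨y, l⟩)⟩ = j
            then 1 else 0) = k * N := by
        intro x
        rw [Finset.sum_comm]
        have h2 : ∀ y : Fin k, ∑ j : Fin r, ∑ l : Fin N,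
          (if I0 ⟨x, Fintype.equivFin (IR (fun _ : Unit => N) q k (ν x)) (Sum.inl ⟨y, l⟩)⟩ = j
            then 1 else 0) = N := by
          intro y
          rw [Finset.sum_comm]
          simp
        rw [Finset.sum_congr rfl fun y _ => h2 y]
        simp
      rw [Finset.sum_congr rfl fun x _ => h1 x]
      simp [mul_assoc]
    have hes : ∀ j, e j ≤ Fintype.card Q * k * s := by
      intro j
      rw [he]
      have h1 : ∀ (x : Q) (y : Fin k), ∑ l : Fin N,
          (if I0 ⟨x, Fintype.equivFin (IR (fun _ : Unit => N) q k (ν x)) (Sum.inl ⟨y, l⟩)⟩ = j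
            then 1 else 0) ≤ s := by
        intro x y
        rw [← Finset.card_filter]
        refine hs G (fun l => I0 ⟨x, Fintype.equivFin (IR (fun _ : Unit => N) q k (ν x))
          (Sum.inl ⟨y, l⟩)⟩) ?_ j
        have h2 : wordT (N := fun _ : Unit => N) (fun _ : Unit => T1 1) (fun _ : Fin k => ν x)
            (fun z => I0 ⟨x, Fintype.equivFin (IR (fun _ : Unit => N) q k (ν x)) (Sum.inl z)⟩) ≠ 0 := by
          rw [wordT, Finset.prod_ne_zero_iff] at hwI0
          exact left_ne_zero_of_mul (hwI0 x (Finset.mem_univ x))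
        rw [wordT, Finset.prod_ne_zero_iff] at h2
        have h3 := h2 y (Finset.mem_univ y)
        beta_reduce at h3
        rw [hT11, lead] at h3
        split_ifs at h3 with h4
        · rw [hact] at h3
          exact h3
        · exact absurd rfl h3
      calc _ ≤ ∑ _x : Q, ∑ _y : Fin k, s := Finset.sum_le_sum fun x _ => Finset.sum_le_sum fun y _ => h1 x y
        _ = _ := by simp [mul_assoc]
    have heA : ∀ i j, e j ≤ e i → A i ≤ A j := by
      intro i j hij
      have h1 := hem i
      have h2 := hem j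
      have h3 : Fintype.card Q * q i ≤ Fintype.card Q * q j := by omega
      have h4 := Nat.le_of_mul_le_mul_left h3 hQ0
      have h5 : κ0 + m * A i ≤ κ0 + m * A j := by
        rw [← hq, ← hq]
        exact_mod_cast h4
      have h6 : (m : ℤ) * A i ≤ m * A j := by linarith
      exact le_of_mul_le_mul_left h6 (by exact_mod_cast hm)
    obtain ⟨lab, hlabdef⟩ : ∃ lab : Fin r → ℕ, ∀ j, lab j = r * e j + j := ⟨_, fun _ => rfl⟩
    have hlabe : ∀ i j, lab j ≤ lab i → e j ≤ e i := by
      intro i j h
      rw [hlabdef, hlabdef] at h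
      by_contra hcon
      push Not at hcon
      have h1 : r * (e i + 1) ≤ r * e j := Nat.mul_le_mul_left _ hcon
      rw [mul_add, mul_one] at h1
      have := i.2
      omega
    have hlab : Function.Injective lab := by
      intro i j h
      have h1 := hlabe i j h.ge
      have h2 := hlabe j i h.le
      rw [hlabdef, hlabdef, le_antisymm h1 h2] at h
      exact Fin.ext (by omega)
    -- the quotients
    obtain ⟨f, hf⟩ : ∃ f : (τ : ℕ) → Fin (Finset.univ.filter fun j => τ < e j).card ↪o Fin r,
      ∀ τ, f τ = (Finset.univ.filter fun j => τ < e j).orderEmbOfFin rfl := ⟨_, fun _ => rfl⟩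
    have hfr : ∀ τ l, τ < e l → ∃ i, f τ i = l := by
      intro τ l hl
      have h1 := Finset.range_orderEmbOfFin (Finset.univ.filter fun j => τ < e j) rfl
      have h2 : l ∈ Set.range ((Finset.univ.filter fun j => τ < e j).orderEmbOfFin rfl) := by
        rw [h1]
        simpa using hl
      rw [hf]
      exact h2
    have hfe : ∀ τ i, τ < e (f τ i) := by
      intro τ i
      have h1 := Finset.orderEmbOfFin_mem (Finset.univ.filter fun j => τ < e j) rfl i
      rw [hf]
      exact (Finset.mem_filter.1 h1).2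
    have hfsum : ∀ (τ : ℕ) (a : Fin r → ℤ), ∑ i, a (f τ i) =
        ∑ j ∈ Finset.univ.filter (fun j => τ < e j), a j := by
      intro τ a
      have h1 := Finset.map_orderEmbOfFin_univ (Finset.univ.filter fun j => τ < e j) rfl
      conv_rhs => rw [← h1]
      rw [Finset.sum_map, hf]
      rfl
    have hquot : ∀ τ, ∃ d, IsQuot E (G⁻¹.submatrix id (f τ)) d := by
      intro τ
      refine exists_quot E (Y := G.submatrix (f τ) id) ?_
      have h1 : G.submatrix (f τ) id * G⁻¹.submatrix id (f τ) = (G * G⁻¹).submatrix (f τ) (f τ) := by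
        ext i j
        rw [Matrix.mul_apply, Matrix.submatrix_apply, Matrix.mul_apply]
        rfl
      rw [h1, Matrix.mul_nonsing_inv _ (isUnit_iff_ne_zero.2 hG),
        Matrix.submatrix_one _ (f τ).injective]
    choose d hd using hquot
    obtain ⟨ω, hω⟩ : ∃ ω : Matrix (Fin r) (Fin r) K → K, ∀ C, ω C = ∑ I, algebraMap ℝ K (p I) *
      wordT (RR (N := fun _ : Unit => N) A q k (fun _ : Unit => T1 C)) ν I := ⟨_, fun _ => rfl⟩
    rw [← hω] at hne
    obtain ⟨M, hMdef⟩ : ∃ M : ℕ, M = Fintype.card Q * k * s := ⟨_, rfl⟩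
    have hM : ∀ j, e j ≤ M := fun j => hMdef ▸ hes j
    have hmain : ∀ P, -(Fintype.card Q * (k * c P)) ≤
        -∑ τ ∈ Finset.range M, d τ P + P.ord (ω 1) := by
      intro P
      have hBG : (E.B P * G⁻¹).det ≠ 0 := by
        rw [Matrix.det_mul, Matrix.det_nonsing_inv, Ring.inverse_eq_inv']
        exact mul_ne_zero (E.det_ne P) (inv_ne_zero hG)
      obtain ⟨C, U, X, hU, hX, hCU, hXC, hC⟩ := hermite P hBG hlab
      have hdet : C.det ≠ 0 := by
        intro h0
        rw [hXC, Matrix.det_mul, h0, mul_zero] at hBG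
        exact hBG rfl
      have hdetC : C.det = ∏ j, C j j := det_tri hlab hC
      have hC0 : ∀ j, C j j ≠ 0 := by
        rw [hdetC] at hdet
        exact fun j => Finset.prod_ne_zero_iff.1 hdet j (Finset.mem_univ j)
      have hCA : ∀ i j, C i j ≠ 0 → A i ≤ A j := fun i j h => heA _ _ (hlabe _ _ (hC i j h))
      have hchi : chi A q C = ∏ j, C j j ^ q j := chi_tri hlab hC
      have hchi0 : chi A q C ≠ 0 := by
        rw [hchi]
        exact Finset.prod_ne_zero_iff.2 fun j _ => pow_ne_zero _ (hC0 j)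
      -- the value at `C`
      have h1 := transf (N := fun _ : Unit => N) ν hqA k (fun _ : Unit => T1 1) hp hm'
        (g := dg A C) fun i j h => dg_ne h
      have h2 : act (dg A C) (T1 1) = T1 C := by
        rw [hT11, hT1, lead_act hsupp hCA]
      rw [chi_dg, det_dg hCA, h2, ← hω, ← hω] at h1
      -- the order of the values
      have hCG : C * G = U * E.B P := by
        rw [hCU, Matrix.mul_assoc, Matrix.mul_assoc, Matrix.nonsing_inv_mul _
          (isUnit_iff_ne_zero.2 hG), Matrix.mul_one]
      have h3 : ∀ J, Ge P (-c P) (T1 C J) := by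
        intro J
        rw [hT1, lead]
        split_ifs
        · rw [← act_mul, hCG, act_mul, act]
          refine Ge.sum _ fun I _ => ?_
          have h4 := (Ge.prod0 (P := P) Finset.univ (F := fun k => U (J k) (I k)) fun k _ =>
            hU _ _).mul (hc P I)
          rw [zero_add, ← hact] at h4
          exact h4
        · exact ge_zero
      have h4 : Ge P (-(Fintype.card Q * (k * c P))) (ω C) := by
        rw [hω]
        refine Ge.sum _ fun I _ => ?_
        have h5 : ∀ x, Ge P (-(k * c P)) (RR (N := fun _ : Unit => N) A q k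
            (fun _ : Unit => T1 C) (ν x) (fun l => I ⟨x, l⟩)) := by
          intro x
          rw [RR]
          have h6 := (Ge.prod Finset.univ (F := fun y : Fin k => T1 C (fun l =>
            I ⟨x, Fintype.equivFin (IR (fun _ : Unit => N) q k (ν x)) (Sum.inl ⟨y, l⟩)⟩))
            (n := fun _ => -c P) fun y _ => h3 _).mul (ge_D0 (P := P) A q (fun z =>
              I ⟨x, Fintype.equivFin (IR (fun _ : Unit => N) q k (ν x)) (Sum.inr z)⟩))
          rw [Finset.sum_const, Finset.card_univ, Fintype.card_fin, add_zero, nsmul_eq_mul,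
            mul_neg] at h6
          exact h6
        have h7 := (ge_real (P := P) (p I)).mul (Ge.prod Finset.univ fun x _ => h5 x)
        rw [Finset.sum_const, Finset.card_univ, zero_add, nsmul_eq_mul, mul_neg] at h7
        exact h7
      have hωC : ω C ≠ 0 := by
        intro h0
        rw [h0, mul_zero] at h1
        exact mul_ne_zero (pow_ne_zero _ hdet) hne h1.symm
      have h5 := congrArg P.ord h1
      rw [P.ord_mul (pow_ne_zero _ hchi0) hωC, P.ord_mul (pow_ne_zero _ hdet) hne, P.ord_pow,
        P.ord_pow, hchi, hdetC, ord_prod _ fun j _ => pow_ne_zero _ (hC0 j),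
        ord_prod _ fun j _ => hC0 j, Finset.sum_congr rfl fun j _ => P.ord_pow (C j j) (q j)] at h5
      rw [ge_iff hωC] at h4
      have h6 : (m' : ℤ) * ∑ j, P.ord (C j j) - Fintype.card Q * ∑ j, (q j : ℤ) * P.ord (C j j) =
          ∑ j, (e j : ℤ) * P.ord (C j j) := by
        rw [Finset.mul_sum, Finset.mul_sum, ← Finset.sum_sub_distrib]
        refine Finset.sum_congr rfl fun j _ => ?_
        have h7 : (m' : ℤ) = e j + Fintype.card Q * q j := by exact_mod_cast hem j
        rw [h7]
        ring
      have h7 := layers e (fun j => P.ord (C j j)) hM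
      have h8 : ∑ τ ∈ Finset.range M, ∑ j ∈ Finset.univ.filter (fun j => τ < e j),
          P.ord (C j j) ≤ ∑ τ ∈ Finset.range M, -d τ P := by
        refine Finset.sum_le_sum fun τ _ => ?_
        rw [← hfsum τ fun j => P.ord (C j j)]
        refine minor_le hX hXC hlab hC hC0 (f τ) (f τ).injective (fun l i h => ?_) (hd τ)
        exact hfr τ l ((hfe τ i).trans_le (hlabe _ _ h))
      rw [Finset.sum_neg_distrib] at h8
      linarith
    have h2 : -(Fintype.card Q • (k • c)) ≤ -∑ τ ∈ Finset.range M, d τ + divisor ℂ (ω 1) := by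
      intro P
      have := hmain P
      rw [Finsupp.neg_apply, Finsupp.add_apply, Finsupp.neg_apply, divisor_apply,
        Finsupp.smul_apply, Finsupp.smul_apply, nsmul_eq_mul, nsmul_eq_mul,
        Finsupp.finsetSum_apply]
      exact this
    have h3 := ddeg_mono h2
    have h3' : ddeg (∑ τ ∈ Finset.range M, d τ) = ∑ τ ∈ Finset.range M, ddeg (d τ) := by
      generalize Finset.range M = s
      induction s using Finset.induction_on with
      | empty => rw [Finset.sum_empty, Finset.sum_empty, ddeg_zero]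
      | insert a s ha ih => rw [Finset.sum_insert ha, Finset.sum_insert ha, ddeg_add, ih]
    rw [ddeg_neg, ddeg_add, ddeg_neg, ddeg_divisor, ddeg_nsmul, ddeg_nsmul, add_zero, h3'] at h3
    right
    refine ⟨Fintype.card Q * k, e, G, d, Nat.mul_pos hQ0 hk, hG, hesum, hes, fun τ => ?_, ?_⟩
    · have := hd τ
      rw [hf] at this
      exact this
    · rw [← hMdef]
      push_cast
      linarith
  · rw [NoInv] at hno
    push Not at hno
    obtain ⟨Q, hQf, hQd, hQn, ν, p, hp, hne⟩ := hno
    obtain ⟨I0, -, hI0⟩ := Finset.exists_ne_zero_of_sum_ne_zero hne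
    have hpI0 : p I0 ≠ 0 := fun h => hI0 (by rw [h, map_zero, zero_mul])
    obtain ⟨m', hcard, hm'⟩ := hp.exists_m hr hpI0
    obtain ⟨q0⟩ : Nonempty Q := hQn
    have hQ0 : 0 < Fintype.card Q := Fintype.card_pos_iff.2 ⟨q0⟩
    obtain ⟨ω, hω⟩ : ∃ ω, ω = ∑ I, algebraMap ℝ K (p I) *
      wordT (N := fun _ : Unit => N) (fun _ : Unit => T0) ν I := ⟨_, rfl⟩
    rw [← hω] at hne
    have h1 : ∀ P, -(Fintype.card Q * c P) ≤ -(m' * E.detDiv P) + P.ord ω := by
      intro P
      have h2 := inv_act hp hm' (E.B P) (wordT (N := fun _ : Unit => N) (fun _ : Unit => T0) ν)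
      rw [← hω] at h2
      have h3 : Ge P (-(Fintype.card Q * c P)) (∑ I, algebraMap ℝ K (p I) *
          act (E.B P) (wordT (N := fun _ : Unit => N) (fun _ : Unit => T0) ν) I) := by
        refine Ge.sum _ fun I _ => ?_
        rw [act_word]
        have h4 := (ge_real (P := P) (p I)).mul (Ge.prod Finset.univ (F := fun q =>
          act (E.B P) T0 (fun l => I ⟨q, l⟩)) (n := fun _ => -c P) fun q _ => by
            rw [hact]
            exact hc P _)
        rw [Finset.sum_const, Finset.card_univ, zero_add, nsmul_eq_mul, mul_neg] at h4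
        exact h4
      rw [h2, ge_iff (mul_ne_zero (pow_ne_zero _ (E.det_ne P)) hne),
        P.ord_mul (pow_ne_zero _ (E.det_ne P)) hne, P.ord_pow] at h3
      have h5 : E.detDiv P = -P.ord (E.B P).det := rfl
      rw [h5, mul_neg, neg_neg]
      exact h3
    have h2 : -(Fintype.card Q • c) ≤ -(m' • E.detDiv) + divisor ℂ ω := by
      intro P
      have := h1 P
      rw [Finsupp.neg_apply, Finsupp.add_apply, Finsupp.neg_apply, divisor_apply,
        Finsupp.smul_apply, Finsupp.smul_apply, nsmul_eq_mul, nsmul_eq_mul]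
      exact this
    have h3 := ddeg_mono h2
    rw [ddeg_neg, ddeg_add, ddeg_neg, ddeg_divisor, ddeg_nsmul, ddeg_nsmul, add_zero] at h3
    left
    refine ⟨m', Fintype.card Q, hQ0, ?_, by linarith⟩
    rw [Fintype.card_sigma] at hcard
    simp only [Fintype.card_fin, Finset.sum_const, Finset.card_univ, smul_eq_mul] at hcard
    exact hcard

end Pool.Agent.Helper9.GR
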